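import Pool.Agent.H593Z.FinMach

/-!
The one-way cellular automaton which is periodic exactly when the register machine stops.
-/

set_option autoImplicit false

namespace H593Z.FinAut

open scoped Classical
open Pool.Agent.Helper948.Erode

/-- the global map of a local rule on one-sided configurations -/
def glob {B : Type} (f : B → B → B) (c : ℕ → B) : ℕ → B := fun i => f (c i) (c (i + 1))

instance {Sy : Type} [Finite Sy] {T : ℕ} [NeZero T] : Finite (A Sy T) := by
  refine Finite.of_injective (β := Sy × ZMod T × (Fin 3 → ZMod 2)) (fun x => (x.s, x.b, x.r)) ?_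
  rintro ⟨a, b, c⟩ ⟨a', b', c'⟩ h
  simp_all

section level0

variable {Sy : Type} {N T : ℕ} (E : Env Sy N T) (Ini : Sy → Prop → Prop)

/-- activity on the lowest row -/
def act0 (t m : Bool) (s : Sy) : Prop := t = true → Ini s (m = true)

/-- the local rule of the core; the five bits describe the positions -/
noncomputable def core (x x' : ZMod T × A Sy T) (β : Bool × Bool × Bool × Bool × Bool) :
    ZMod T × A Sy T :=
  (x.1 + 1, if act0 Ini β.1 β.2.1 x.2.s ∧ β.1 = (E.tab x.1).who ∧ ((E.tab x.1).lit = .one ∨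
    ((act0 Ini β.1 β.2.1 x.2.s ∧ act0 Ini β.2.2.1 β.2.2.2.1 x'.2.s ∧ β.2.2.2.2 = true ∧
      x'.1 = x.1) ∧ E.lv x'.2 (E.tab x.1).lit)) then E.kv (E.tab x.1).kind x.2 else x.2)

theorem core_inj (x' : ZMod T × A Sy T) (β : Bool × Bool × Bool × Bool × Bool) :
    Function.Injective (fun x => core E Ini x x' β) := by
  rintro ⟨c, a⟩ ⟨c', a'⟩ h
  have h1 : c = c' := by simpa [core] using congrArg Prod.fst h
  subst h1
  have h2 := congrArg Prod.snd h
  have h3 : a.s = a'.s := by
    have := congrArg A.s h2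
    simp only [core] at this
    split_ifs at this <;> simpa only [E.kv_s] using this
  simp only [core, h3] at h2
  split_ifs at h2
  · have := congrArg (E.kv (E.tab c).kind) h2
    rw [E.kv_kv, E.kv_kv] at this
    rw [this]
  · rw [h2]

/-- the bits of two positions -/
def bits (PP p p' : ℕ) : Bool × Bool × Bool × Bool × Bool :=
  (decide (p % 2 = 1), decide (p = 1), decide (p' % 2 = 1), decide (p' = 1),
    decide (p' = (p + 1) % PP))

/-- the local rule with positions -/
noncomputable def loc (PP : ℕ) (x x' : ℕ × ZMod T × A Sy T) : ℕ × ZMod T × A Sy T :=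
  (x.1, core E Ini x.2 x'.2 (bits PP x.1 x'.1))

/-- the lowest row -/
def row0 (PP : ℕ) (c : ℕ → ℕ × ZMod T × A Sy T) : Gr ℕ where
  act v := act0 Ini (decide ((c v).1 % 2 = 1)) (decide ((c v).1 = 1)) (c v).2.2.s
  lnk v := act0 Ini (decide ((c v).1 % 2 = 1)) (decide ((c v).1 = 1)) (c v).2.2.s ∧
    act0 Ini (decide ((c (v + 1)).1 % 2 = 1)) (decide ((c (v + 1)).1 = 1)) (c (v + 1)).2.2.s ∧
    (c (v + 1)).1 = ((c v).1 + 1) % PP ∧ (c (v + 1)).2.1 = (c v).2.1
  nx v := v + 1
  typ v := decide ((c v).1 % 2 = 1)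

theorem row0_wf (PP : ℕ) (hPP : 2 ∣ PP) (c : ℕ → ℕ × ZMod T × A Sy T) : (row0 Ini PP c).WF := by
  rintro v ⟨h1, h2, h3, -⟩
  refine ⟨h1, h2, ?_⟩
  simp only [row0]
  rw [h3, Nat.mod_mod_of_dvd _ hPP]
  rcases Nat.mod_two_eq_zero_or_one (c v).1 with h | h <;> simp [h, Nat.add_mod]

theorem glob_iter (PP : ℕ) (c : ℕ → ℕ × ZMod T × A Sy T) (n : ℕ) :
    (glob (loc E Ini PP))^[n] c = fun v => ((c v).1, (c v).2.1 + (n : ZMod T),
      E.run (row0 Ini PP c) (fun v => (c v).2.1) (fun v => (c v).2.2) n v) := by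
  induction n with
  | zero => funext v; simp [Env.run]
  | succ n ih =>
    rw [Function.iterate_succ_apply', ih]
    funext v
    simp only [glob, loc, core, bits, Env.run, Env.mv, Env.ap, Env.cond, Env.run_s, row0,
      decide_eq_true_eq, add_left_inj]
    refine Prod.ext rfl (Prod.ext ?_ ?_)
    · simp [add_assoc]
    · rfl

end level0

variable {P J : Type} [Finite P] [Finite J] {e : ℕ} (M : DM P J) (p0 : P) (j0 : J)

/-- the initial condition -/
def MIni (t : St P J e) (m : Prop) : Prop := t.q = p0 ∧ ∀ j, (t.mr j = true ↔ (j = j0 → m))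

variable {N T : ℕ} {E : Env (St P J e) N T}

theorem per_of_halts (hE : E.Good) (hsg : E.sg = St.sg) (hrel : E.Rel = MRel M)
    (he : ∀ p b j, (M.vec p b j + 1).toNat ≤ e) (k : ℕ)
    (h : M.Halts (some p0, fun j => if j = j0 then (k : ℤ) else 0)) :
    ∃ m > 0, ∀ c : ℕ → ℕ × ZMod T × A (St P J e) T, (∀ v, (c v).1 < 2 ^ (k + 1)) →
      (glob (loc E (MIni p0 j0) (2 ^ (k + 1))))^[m] c = c := by
  obtain ⟨t, ht⟩ := h
  have hT := hE.hT
  refine ⟨T * T ^ (t + 1), by positivity, fun c hc => ?_⟩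
  rw [glob_iter]
  have hx : ∀ j, (0 : ℤ) ≤ if j = j0 then (k : ℤ) else 0 := by
    intro j
    split_ifs <;> omega
  have := Env.periodic (ι := ℕ) hE
    (fun i => Match (M.st^[i] (some p0, fun j => if j = j0 then (k : ℤ) else 0)))
    (fun i => by
      rw [Function.iterate_succ_apply']
      exact match_step M E hsg hrel he _ (iter_nonneg M _ hx i)) t 0
    (by
      rintro d l ⟨q, hq, -⟩
      rw [zero_add, ht] at hq
      exact absurd hq (by simp))
    (row0 (MIni p0 j0) (2 ^ (k + 1)) c) (fun v => (c v).2.1) (fun v => (c v).2.2.s)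
    (row0_wf _ _ (Dvd.intro _ (pow_succ' 2 k).symm) c) (fun v hv => hv.2.2.2) ?_
    (fun v => (c v).2.2) (fun v => rfl)
  · rw [this]
    funext v
    simp
  · intro v l hv hl
    have hn : ∀ i, (row0 (MIni p0 j0) (2 ^ (k + 1)) c).nx^[i] v = v + i := by
      intro i
      induction i with
      | zero => rfl
      | succ i ih => rw [Function.iterate_succ_apply', ih]; rfl
    simp only [hn] at hl ⊢
    obtain ⟨r, hr⟩ : ∃ r, (c v).1 = 2 * r := by
      simp only [row0, decide_eq_false_iff_not] at hv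
      exact ⟨(c v).1 / 2, by omega⟩
    have hp : ∀ i ≤ 2 * l + 1, (c (v + i)).1 = (2 * r + i) % 2 ^ (k + 1) := by
      intro i hi
      induction i with
      | zero => rw [add_zero, add_zero, ← hr, Nat.mod_eq_of_lt (hc v)]
      | succ i ih =>
        rw [← add_assoc, (hl i (by omega)).2.2.1, ih (by omega), Nat.mod_add_mod, add_assoc]
    have hI : ∀ a ≤ l, MIni p0 j0 (c (v + (2 * a + 1))).2.2.s (2 ^ k ∣ a + r) := by
      intro a ha
      have h1 := (hl (2 * a) (by omega)).2.1
      have h2 := hp (2 * a + 1) (by omega)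
      have h3 : (2 * r + (2 * a + 1)) % 2 ^ (k + 1) = 2 * ((a + r) % 2 ^ k) + 1 := by
        rw [pow_succ', show 2 * r + (2 * a + 1) = 2 * (a + r) + 1 by ring, Nat.mod_mul,
          show (2 * (a + r) + 1) / 2 = a + r by omega]
        omega
      rw [add_assoc, h2, h3] at h1
      have h4 := h1 (by simp [Nat.add_mod])
      have h5 : (decide (2 * ((a + r) % 2 ^ k) + 1 = 1) = true) ↔ 2 ^ k ∣ a + r := by
        rw [decide_eq_true_eq, Nat.dvd_iff_mod_eq_zero]
        omega
      rwa [propext h5] at h4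
    refine ⟨p0, rfl, fun a ha => (hI a ha).1, fun j => ⟨r, fun a ha => ?_⟩⟩
    rw [(hI a ha).2 j]
    by_cases hj : j = j0 <;> simp [hj]

theorem pair_inj : Function.Injective (fun x : ℕ × ℕ => 2 ^ x.1 * (2 * x.2 + 1)) := by
  rintro ⟨a, b⟩ ⟨c, d⟩ h
  simp only at h
  have key : ∀ a b c d : ℕ, 2 ^ a * (2 * b + 1) = 2 ^ c * (2 * d + 1) → a ≤ c := by
    intro a b c d h
    by_contra hlt
    obtain ⟨k, rfl⟩ : ∃ k, a = c + (k + 1) := ⟨a - c - 1, by omega⟩
    rw [pow_add, mul_assoc, Nat.mul_right_inj (by positivity), pow_succ', mul_assoc] at h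
    omega
  obtain rfl : a = c := le_antisymm (key _ _ _ _ h) (key _ _ _ _ h.symm)
  rw [Nat.mul_right_inj (by positivity)] at h
  obtain rfl : b = d := by omega
  rfl

theorem halts_of_per (hE : E.Good) (hsg : E.sg = St.sg) (hrel : E.Rel = MRel M)
    (he : ∀ p b j, (M.vec p b j + 1).toNat ≤ e) (k : ℕ)
    (h : ∃ m > 0, ∀ c : ℕ → ℕ × ZMod T × A (St P J e) T, (∀ v, (c v).1 < 2 ^ (k + 1)) →
      (glob (loc E (MIni p0 j0) (2 ^ (k + 1))))^[m] c = c) :
    M.Halts (some p0, fun j => if j = j0 then (k : ℤ) else 0) := by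
  by_contra hh
  obtain ⟨m, hm, h⟩ := h
  set x0 : Option P × (J → ℤ) := (some p0, fun j => if j = j0 then (k : ℤ) else 0) with hx0
  have hx : ∀ j, (0 : ℤ) ≤ x0.2 j := by
    intro j
    simp only [hx0]
    split_ifs <;> omega
  have hq : ∀ t, ∃ q, (M.st^[t] x0).1 = some q := fun t =>
    Option.ne_none_iff_exists'.1 (fun h => hh ⟨t, h⟩)
  choose q hq using hq
  obtain ⟨s, hs⟩ : ∃ s : ℕ → St P J e, ∀ t a, s (2 ^ t * (2 * a + 1)) =
      dat e (q t) (M.st^[t] x0).2 a :=
    ⟨Function.extend (fun x : ℕ × ℕ => 2 ^ x.1 * (2 * x.2 + 1))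
      (fun x => dat e (q x.1) (M.st^[x.1] x0).2 x.2) (fun _ => dat e p0 0 0),
      fun t a => pair_inj.extend_apply _ _ (t, a)⟩
  set c : ℕ → ℕ × ZMod T × A (St P J e) T := fun v => (v % 2 ^ (k + 1), 0, ⟨s v, 0, 0⟩) with hc
  have h1 := h c (fun v => Nat.mod_lt _ (by positivity))
  rw [glob_iter] at h1
  have h2 : (m : ZMod T) = 0 := by simpa [hc] using congrArg (fun z => (z 0).2.1) h1
  obtain ⟨m', rfl⟩ := (ZMod.natCast_eq_zero_iff m T).1 h2
  set G := row0 (MIni p0 j0) (2 ^ (k + 1)) c with hG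
  set y : ℕ → A (St P J e) T := fun v => ⟨s v, 0, 0⟩ with hy
  have h3 : E.run G (fun _ => 0) y (T * m') = y := by
    funext v
    exact congrArg (fun z => (z v).2.2) h1
  have hd : 2 ∣ 2 ^ (k + 1) := Dvd.intro _ (pow_succ' 2 k).symm
  have inv : ∀ t, (∀ v, (E.tower G y t).nx v = v + 2 ^ t) ∧ ∀ a,
      (E.tower G y t).lnk (2 ^ t * a) ∧ (E.tower G y t).typ (2 ^ t * a) = decide (a % 2 = 1) := by
    intro t
    induction t with
    | zero =>
      have hA : ∀ v, act0 (MIni p0 j0) (decide ((c v).1 % 2 = 1)) (decide ((c v).1 = 1))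
          (c v).2.2.s := by
        intro v hv
        simp only [hc, decide_eq_true_eq, Nat.mod_mod_of_dvd _ hd] at hv ⊢
        obtain ⟨a, rfl⟩ : ∃ a, v = 2 * a + 1 := ⟨v / 2, by omega⟩
        have h4 := hs 0 a
        rw [pow_zero, one_mul] at h4
        rw [h4]
        have h5 : q 0 = p0 := Option.some.inj (hq 0).symm
        refine ⟨h5, fun j => ?_⟩
        have h3 : (2 * a + 1) % 2 ^ (k + 1) = 2 * (a % 2 ^ k) + 1 := by
          rw [pow_succ', Nat.mod_mul, show (2 * a + 1) / 2 = a by omega]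
          omega
        rw [h3]
        simp only [dat, decide_eq_true_eq, Function.iterate_zero, id, hx0]
        by_cases hj : j = j0
        · simp only [hj, if_true, Int.toNat_natCast, true_imp_iff, Nat.dvd_iff_mod_eq_zero]
          omega
        · simp [hj]
      refine ⟨fun v => rfl, fun a => ⟨⟨hA _, hA _, ?_, rfl⟩, ?_⟩⟩
      · simp [hc]
      · simp only [Env.tower, hG, row0, hc, Nat.mod_mod_of_dvd _ hd, pow_zero, one_mul]
    | succ t ih =>
      obtain ⟨ih1, ih2⟩ := ih
      have e1 : ∀ a, (E.tower G y t).nx (2 ^ t * a) = 2 ^ t * (a + 1) := fun a => by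
        rw [ih1, mul_add, mul_one]
      have hA : ∀ a, E.upA (E.tower G y t) y (2 ^ t * (2 * a)) := by
        intro a
        refine ⟨by rw [(ih2 _).2]; simp, (ih2 _).1, ⟨?_, ?_⟩, rfl, ?_⟩
        · rw [e1]; exact (ih2 _).1
        · rw [e1, e1]; exact (ih2 _).1
        · rw [e1, e1, e1, hrel]
          simp only [hy]
          rw [hs, show 2 * a + 1 + 1 + 1 = 2 * (a + 1) + 1 by ring, hs]
          refine dat_rel M he (q t) (q (t + 1)) _ (M.st^[t + 1] x0).2 (iter_nonneg M _ hx t) ?_ a _ ?_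
          · rw [← hq t, ← hq (t + 1), Function.iterate_succ_apply']
          · rintro b rfl
            rw [← hs, pow_succ]
            congr 1
            ring
      refine ⟨fun v => ?_, fun a => ⟨⟨?_, ?_⟩, ?_⟩⟩
      · change (E.tower G y t).nx ((E.tower G y t).nx v) = _
        rw [ih1, ih1, pow_succ]
        ring
      · rw [pow_succ, mul_assoc]
        exact hA a
      · rw [pow_succ, mul_assoc, e1, e1, show 2 * a + 1 + 1 = 2 * (a + 1) by ring]
        exact hA _
      · change E.sg (y ((E.tower G y t).nx (2 ^ (t + 1) * a))).s = _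
        rw [pow_succ, mul_assoc, e1, hsg]
        simp only [hy]
        rw [hs]
        rfl
  have hwf : G.WF := row0_wf _ _ hd c
  have hwf' : ∀ j, (E.tower G y j).WF := by
    intro j
    cases j with
    | zero => exact hwf
    | succ j => exact Env.up_wf hE y
  have := Env.aperiodic hE hwf y (fun _ => rfl) (fun t => ⟨2 ^ t * 1,
    (hwf' t _ ((inv t).2 1).1).1, ((inv t).2 1).2⟩) m' h3
  subst this
  simp at hm

end H593Z.FinAut
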