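import Pool.Agent.H593Z.FinCore

/-!
Formulas and their catalytic programs.
-/

set_option autoImplicit false

namespace H593Z.FinAut

open scoped Classical

/-- formulas evaluated by the controlling cells -/
inductive Fm (Sy : Type) (N : ℕ) : Type
  | zero
  | own (p : Prd Sy N)
  | nb (l : Lit Sy)
  | next (f : Fm Sy N)
  | xor (f g : Fm Sy N)
  | and (f g : Fm Sy N)

variable {Sy : Type} {N T : ℕ}

/-- sum of a list of formulas -/
def xorAll (l : List (Fm Sy N)) : Fm Sy N := l.foldr Fm.xor .zero

/-- flipping a register under a literal -/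
def flipI (w : Bool) (x : Fin 3) (l : Lit Sy) : Instr Sy N := ⟨w, .inl (.own x .tt), l⟩

/-- the product instruction -/
def mulI (z : Fin 3) : Instr Sy N := ⟨true, .inl (.mul z), .one⟩

/-- the relay through the cell in between -/
def relay (x : Fin 3) : List (Instr Sy N) :=
  [flipI true x (.reg 0), flipI false 0 (.reg (x + 1)), flipI true x (.reg 0),
    flipI false 0 (.reg (x + 1))]

/-- the program adding the value of a formula to a register -/
def comp : Fm Sy N → Fin 3 → List (Instr Sy N)
  | .zero, _ => []
  | .own p, x => [⟨true, ownK x p, .one⟩]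
  | .nb l, x => [flipI true x l]
  | .next f, x => relay x ++ (comp f (x + 1) ++ (relay x ++ comp f (x + 1)))
  | .xor f g, x => comp f x ++ comp g x
  | .and f g, x => mulI x :: (comp f (x + 1) ++ mulI x :: (comp g (x + 2) ++
      mulI x :: (comp f (x + 1) ++ mulI x :: comp g (x + 2))))

/-- the cost of a formula -/
def cost : Fm Sy N → ℕ
  | .zero => 0
  | .own _ => 1
  | .nb _ => 1
  | .next f => 2 * cost f + 8
  | .xor f g => cost f + cost g
  | .and f g => 2 * cost f + 2 * cost g + 4

theorem length_comp (f : Fm Sy N) (x : Fin 3) : (comp f x).length = cost f := by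
  induction f generalizing x with
  | zero => rfl
  | own p => rfl
  | nb l => rfl
  | next f ih => simp [comp, cost, relay, ih]; omega
  | xor f g ihf ihg => simp [comp, cost, ihf, ihg]
  | and f g ihf ihg => simp [comp, cost, ihf, ihg]; omega

theorem cost_xorAll {α : Type} (l : List α) (f : α → Fm Sy N) (c : ℕ) (h : ∀ a, cost (f a) ≤ c) :
    cost (xorAll (l.map f)) ≤ l.length * c := by
  induction l with
  | nil => simp [xorAll, cost]
  | cons a l ih =>
    have : cost (xorAll ((a :: l).map f)) = cost (f a) + cost (xorAll (l.map f)) := rfl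
    rw [this, List.length_cons, Nat.succ_mul]
    have := h a
    omega

namespace Env

variable (E : Env Sy N T) {ι : Type} (G : Gr ι)

/-- values of formulas -/
noncomputable def ev (y : ι → A Sy T) : Fm Sy N → ι → ZMod 2
  | .zero, _ => 0
  | .own p, w => ind (E.pv (y w).s (y w).b p)
  | .nb l, w => ind (E.cond G l y w)
  | .next f, w => ind (G.lnk w ∧ G.lnk (G.nx w)) * ev y f (G.nx (G.nx w))
  | .xor f g, w => ev y f w + ev y g w
  | .and f g, w => ev y f w * ev y g w

theorem ev_xorAll {α : Type} (y : ι → A Sy T) (l : List α) (f : α → Fm Sy N) (w : ι) :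
    E.ev G y (xorAll (l.map f)) w = (l.map (fun a => E.ev G y (f a) w)).sum := by
  induction l with
  | nil => rfl
  | cons a l ih =>
    have : E.ev G y (xorAll ((a :: l).map f)) w =
      E.ev G y (f a) w + E.ev G y (xorAll (l.map f)) w := rfl
    rw [this, ih, List.map_cons, List.sum_cons]

end Env

/-- update of the registers of the cells of one type -/
noncomputable def upd {ι : Type} (G : Gr ι) (t : Bool) (g : ι → Fin 3 → ZMod 2) (y : ι → A Sy T)
    (v : ι) : A Sy T :=
  if G.act v ∧ G.typ v = t then (y v).add (g v) else y v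

section upd

variable {ι : Type} (G : Gr ι)

theorem upd_upd (t : Bool) (g h : ι → Fin 3 → ZMod 2) (y : ι → A Sy T) :
    upd G t h (upd G t g y) = upd G t (fun v => g v + h v) y := by
  funext v
  unfold upd
  split_ifs
  · rw [A.add_add]
  · rfl

theorem upd_congr (t : Bool) {g h : ι → Fin 3 → ZMod 2} (y : ι → A Sy T)
    (e : ∀ v, G.act v → G.typ v = t → g v = h v) : upd G t g y = upd G t h y := by
  funext v
  unfold upd
  split_ifs with hv
  · rw [e v hv.1 hv.2]
  · rfl

theorem upd_zero (t : Bool) (y : ι → A Sy T) : upd G t (fun _ => 0) y = y := by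
  funext v
  unfold upd
  split_ifs
  · rw [A.add_zero]
  · rfl

theorem upd_comm (g h : ι → Fin 3 → ZMod 2) (y : ι → A Sy T) :
    upd G true h (upd G false g y) = upd G false g (upd G true h y) := by
  funext v
  unfold upd
  cases ht : G.typ v <;> simp

theorem upd_s (t : Bool) (g : ι → Fin 3 → ZMod 2) (y : ι → A Sy T) (v : ι) :
    (upd G t g y v).s = (y v).s := by
  unfold upd
  split_ifs <;> rfl

theorem upd_b (t : Bool) (g : ι → Fin 3 → ZMod 2) (y : ι → A Sy T) (v : ι) :
    (upd G t g y v).b = (y v).b := by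
  unfold upd
  split_ifs <;> rfl

theorem upd_r (t : Bool) (g : ι → Fin 3 → ZMod 2) (y : ι → A Sy T) (v : ι) (h1 : G.act v)
    (h2 : G.typ v = t) : (upd G t g y v).r = (y v).r + g v := by
  unfold upd
  rw [if_pos ⟨h1, h2⟩]
  rfl

theorem upd_ne (t : Bool) (g : ι → Fin 3 → ZMod 2) (y : ι → A Sy T) (v : ι)
    (h2 : G.typ v ≠ t) : upd G t g y v = y v := by
  unfold upd
  rw [if_neg (fun h => h2 h.2)]

end upd

namespace Env

variable (E : Env Sy N T) {ι : Type} (G : Gr ι)

theorem ap_add (w : Bool) (k : Kind Sy N) (l : Lit Sy) (x : Fin 3) (c : A Sy T → ZMod 2)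
    (hk : ∀ a, E.kv k a = a.add (Pi.single x (c a))) (y : ι → A Sy T) :
    E.ap G ⟨w, k, l⟩ y =
      upd G w (fun v => Pi.single x (ind (E.cond G l y v) * c (y v))) y := by
  funext v
  unfold ap upd
  beta_reduce
  by_cases h : G.act v ∧ G.typ v = w
  · rw [if_pos h]
    by_cases hc : E.cond G l y v
    · rw [if_pos ⟨h.1, h.2, hc⟩, ind_pos hc, one_mul, hk]
    · rw [if_neg (fun hh => hc hh.2.2), ind_neg hc, zero_mul, Pi.single_zero, A.add_zero]
  · rw [if_neg h, if_neg (fun hh => h ⟨hh.1, hh.2.1⟩)]

theorem cond_one (y : ι → A Sy T) (v : ι) : ind (E.cond G .one y v) = 1 :=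
  ind_pos (Or.inl rfl)

theorem cond_reg (x : Fin 3) (y : ι → A Sy T) (v : ι) :
    ind (E.cond G (.reg x) y v) = ind (G.lnk v) * (y (G.nx v)).r x := by
  rw [← ind_one ((y (G.nx v)).r x), ← ind_and]
  apply ind_congr
  unfold cond
  simp [lv]

theorem ap_flip (w : Bool) (x : Fin 3) (l : Lit Sy) (y : ι → A Sy T) :
    E.ap G (flipI w x l) y = upd G w (fun v => Pi.single x (ind (E.cond G l y v))) y := by
  have := E.ap_add G w (.inl (.own x .tt)) l x (fun _ => 1) (fun a => by
    change a.add (Pi.single x (ind True)) = _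
    rw [ind_pos trivial]) y
  simpa only [mul_one, flipI] using this

theorem ap_mul (x : Fin 3) (y : ι → A Sy T) :
    E.ap G (mulI x) y =
      upd G true (fun v => Pi.single x ((y v).r (x + 1) * (y v).r (x + 2))) y := by
  have := E.ap_add G true (.inl (.mul x)) .one x (fun a => a.r (x + 1) * a.r (x + 2))
    (fun a => rfl) y
  simpa only [cond_one, one_mul, mulI] using this

theorem ap_own (x : Fin 3) (p : Prd Sy N) (y : ι → A Sy T) :
    E.ap G ⟨true, ownK x p, .one⟩ y =
      upd G true (fun v => Pi.single x (ind (E.pv (y v).s (y v).b p))) y := by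
  have := E.ap_add G true (ownK x p) .one x (fun a => ind (E.pv a.s a.b p))
    (fun a => E.kv_own x p a) y
  simpa only [cond_one, one_mul] using this

variable {G}

theorem exec_relay (hG : G.WF) (x : Fin 3) (y : ι → A Sy T) :
    E.exec G (relay x) y = upd G true (fun w => Pi.single x
      (ind (G.lnk w ∧ G.lnk (G.nx w)) * (y (G.nx (G.nx w))).r (x + 1))) y := by
  have hx : x + 1 ≠ x := by revert x; decide
  unfold relay
  simp only [exec_cons, exec_nil, ap_flip, cond_reg]
  set y1 := upd G true (fun v => Pi.single x (ind (G.lnk v) * (y (G.nx v)).r 0)) y with hy1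
  have e1 : upd G false (fun v => Pi.single 0 (ind (G.lnk v) * (y1 (G.nx v)).r (x + 1))) y1 =
      upd G false (fun v => Pi.single 0 (ind (G.lnk v) * (y (G.nx v)).r (x + 1))) y1 := by
    apply upd_congr
    intro v hv ht
    by_cases hl : G.lnk v
    · rw [hy1, upd_r G true _ y _ (hG v hl).2.1 (by rw [(hG v hl).2.2, ht]; rfl), Pi.add_apply,
        Pi.single_eq_of_ne hx, add_zero]
    · rw [ind_neg hl, zero_mul, zero_mul]
  rw [e1]
  set y2 := upd G false (fun v => Pi.single 0 (ind (G.lnk v) * (y (G.nx v)).r (x + 1))) y1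
    with hy2
  have e2 : upd G true (fun v => Pi.single x (ind (G.lnk v) * (y2 (G.nx v)).r 0)) y2 =
      upd G true (fun v => Pi.single x (ind (G.lnk v) * ((y (G.nx v)).r 0 +
        ind (G.lnk (G.nx v)) * (y (G.nx (G.nx v))).r (x + 1)))) y2 := by
    apply upd_congr
    intro v hv ht
    by_cases hl : G.lnk v
    · have h2 : G.typ (G.nx v) = false := by rw [(hG v hl).2.2, ht]; rfl
      rw [hy2, upd_r G false _ y1 _ (hG v hl).2.1 h2, Pi.add_apply, Pi.single_eq_same, hy1,
        upd_ne G true _ y _ (by rw [h2]; decide)]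
    · rw [ind_neg hl, zero_mul, zero_mul]
  rw [e2]
  set y3 := upd G true (fun v => Pi.single x (ind (G.lnk v) * ((y (G.nx v)).r 0 +
        ind (G.lnk (G.nx v)) * (y (G.nx (G.nx v))).r (x + 1)))) y2 with hy3
  have e3 : upd G false (fun v => Pi.single 0 (ind (G.lnk v) * (y3 (G.nx v)).r (x + 1))) y3 =
      upd G false (fun v => Pi.single 0 (ind (G.lnk v) * (y (G.nx v)).r (x + 1))) y3 := by
    apply upd_congr
    intro v hv ht
    by_cases hl : G.lnk v
    · have h2 : G.typ (G.nx v) = true := by rw [(hG v hl).2.2, ht]; rfl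
      rw [hy3, upd_r G true _ y2 _ (hG v hl).2.1 h2, Pi.add_apply, Pi.single_eq_of_ne hx, add_zero,
        hy2, upd_ne G false _ y1 _ (by rw [h2]; decide), hy1, upd_r G true _ y _ (hG v hl).2.1 h2,
        Pi.add_apply, Pi.single_eq_of_ne hx, add_zero]
    · rw [ind_neg hl, zero_mul, zero_mul]
  rw [e3, hy3, ← upd_comm, hy2, upd_upd]
  have e4 : upd G false (fun v => (Pi.single 0 (ind (G.lnk v) * (y (G.nx v)).r (x + 1)) :
      Fin 3 → ZMod 2) + Pi.single 0 (ind (G.lnk v) * (y (G.nx v)).r (x + 1))) y1 = y1 := by
    simp only [single_add_self]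
    exact upd_zero G false y1
  rw [e4, hy1, upd_upd]
  apply upd_congr
  intro v _ _
  rw [← Pi.single_add, ind_and]
  congr 1
  linear_combination two_z (ind (G.lnk v) * (y (G.nx v)).r 0)

theorem ev_upd (hG : G.WF) (g : ι → Fin 3 → ZMod 2) (y : ι → A Sy T) (f : Fm Sy N) (w : ι)
    (hw : G.typ w = true) : E.ev G (upd G true g y) f w = E.ev G y f w := by
  induction f generalizing w with
  | zero => rfl
  | own p => simp only [ev, upd_s, upd_b]
  | nb l =>
    apply ind_congr
    unfold cond
    refine or_congr Iff.rfl (and_congr_right fun hl => ?_)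
    rw [upd_ne G true g y _ (by rw [(hG w hl).2.2, hw]; decide)]
  | next f ih =>
    simp only [ev]
    by_cases hl : G.lnk w ∧ G.lnk (G.nx w)
    · rw [ih _ (by rw [(hG _ hl.2).2.2, (hG _ hl.1).2.2, hw]; rfl)]
    · rw [ind_neg hl, zero_mul, zero_mul]
  | xor f g ihf ihg => simp only [ev, ihf w hw, ihg w hw]
  | and f g ihf ihg => simp only [ev, ihf w hw, ihg w hw]

/-- Correctness of the catalytic programs. -/
theorem exec_comp (hG : G.WF) (f : Fm Sy N) (x : Fin 3) (y : ι → A Sy T) :
    E.exec G (comp f x) y = upd G true (fun w => Pi.single x (E.ev G y f w)) y := by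
  induction f generalizing x y with
  | zero =>
    simp only [comp, ev, exec_nil, Pi.single_zero]
    exact (upd_zero G true y).symm
  | own p => simp only [comp, ev, exec_cons, exec_nil, ap_own]
  | nb l => simp only [comp, ev, exec_cons, exec_nil, ap_flip]
  | next f ih =>
    have hx : x + 1 ≠ x := by revert x; decide
    simp only [comp, exec_append, E.exec_relay hG, ih, upd_upd]
    apply upd_congr
    intro w _ hw
    simp only [E.ev_upd hG _ _ _ _ hw, ev]
    by_cases hl : G.lnk w ∧ G.lnk (G.nx w)
    · have h2 : G.typ (G.nx (G.nx w)) = true := by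
        rw [(hG _ hl.2).2.2, (hG _ hl.1).2.2, hw]; rfl
      rw [upd_r G true _ y _ (hG _ hl.2).2.1 h2]
      simp only [Pi.add_apply, Pi.single_eq_of_ne hx, Pi.single_eq_same, E.ev_upd hG _ _ _ _ h2,
        ind_pos hl, one_mul, zero_add]
      funext j
      simp only [Pi.add_apply, Pi.single_apply]
      split_ifs with h1 h2
      · exact absurd (h2.symm.trans h1) hx
      · linear_combination two_z ((y (G.nx (G.nx w))).r (x + 1))
      · linear_combination two_z (E.ev G y f w)
      · simp
    · simp only [ind_neg hl, zero_mul, Pi.single_zero, zero_add, add_zero, single_add_self]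
  | xor f g ihf ihg =>
    simp only [comp, exec_append, ihf, ihg, upd_upd]
    apply upd_congr
    intro w _ hw
    simp only [E.ev_upd hG _ _ _ _ hw, ev, Pi.single_add]
  | and f g ihf ihg =>
    have h1 : x + 1 ≠ x := by revert x; decide
    have h2 : x + 2 ≠ x := by revert x; decide
    have h3 : x + 2 ≠ x + 1 := by revert x; decide
    simp only [comp, exec_append, exec_cons, ap_mul, ihf, ihg, upd_upd]
    apply upd_congr
    intro w ha hw
    simp only [E.ev_upd hG _ _ _ _ hw, ev, upd_r G true _ y _ ha hw, Pi.add_apply,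
      Pi.single_eq_of_ne h1, Pi.single_eq_of_ne h2, Pi.single_eq_of_ne h3,
      Pi.single_eq_of_ne h3.symm, Pi.single_eq_same, add_zero, zero_add]
    funext j
    simp only [Pi.add_apply, Pi.single_apply]
    generalize (y w).r (x + 1) = a
    generalize (y w).r (x + 2) = b
    generalize E.ev G y f w = c
    generalize E.ev G y g w = d
    by_cases j0 : j = x
    · subst j0
      simp only [if_true, if_neg h1.symm, if_neg h2.symm]
      revert a b c d
      decide
    · by_cases j1 : j = x + 1
      · subst j1
        simp only [if_true, if_neg h1, if_neg h3.symm]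
        revert a b c d
        decide
      · by_cases j2 : j = x + 2
        · subst j2
          simp only [if_true, if_neg h2, if_neg h3]
          revert a b c d
          decide
        · simp only [if_neg j0, if_neg j1, if_neg j2, add_zero]

end Env

end H593Z.FinAut
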