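import Mathlib

/-!
Generalised rows of cells with one-way information flow, instructions and catalytic programs.
-/

set_option autoImplicit false

namespace H593Z.FinAut

open scoped Classical

/-- literals about the neighbour -/
inductive Lit (Sy : Type) : Type
  | one
  | reg (y : Fin 3)
  | st (t : Sy)
  | uon

/-- predicates about the own static symbol and the stored clock -/
inductive P0 (Sy : Type) : Type
  | tt
  | st (t : Sy)
  | on
  | lt (l : Lit Sy)

/-- basic kinds of involutions -/
inductive K0 (Sy : Type) : Type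
  | own (x : Fin 3) (p : P0 Sy)
  | mul (z : Fin 3)
  | tick (e : Bool)
  | nop

instance {Sy : Type} [Finite Sy] : Finite (Lit Sy) := by
  refine Finite.of_injective (β := Option (Option (Fin 3 ⊕ Sy))) (fun x => match x with
    | .one => none
    | .reg y => some (some (.inl y))
    | .st t => some (some (.inr t))
    | .uon => some none) ?_
  intro x y h
  cases x <;> cases y <;> simp_all

instance {Sy : Type} [Finite Sy] : Finite (P0 Sy) := by
  refine Finite.of_injective (β := Option (Option (Lit Sy ⊕ Sy))) (fun x => match x with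
    | .tt => none
    | .lt y => some (some (.inl y))
    | .st t => some (some (.inr t))
    | .on => some none) ?_
  intro x y h
  cases x <;> cases y <;> simp_all

instance {Sy : Type} [Finite Sy] : Finite (K0 Sy) := by
  refine Finite.of_injective (β := Option ((Fin 3 × P0 Sy) ⊕ Fin 3 ⊕ Bool)) (fun x => match x with
    | .nop => none
    | .own x p => some (.inl (x, p))
    | .mul z => some (.inr (.inl z))
    | .tick e => some (.inr (.inr e))) ?_
  intro x y h
  cases x <;> cases y <;> simp_all

/-- all predicates -/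
abbrev Prd (Sy : Type) (N : ℕ) : Type := P0 Sy ⊕ (Fin 5 × Fin N)

/-- all kinds -/
abbrev Kind (Sy : Type) (N : ℕ) : Type := K0 Sy ⊕ (Fin 3 × Fin 5 × Fin N)

/-- the kind adding a predicate to a register -/
def ownK {Sy : Type} {N : ℕ} (x : Fin 3) : Prd Sy N → Kind Sy N
  | .inl p => .inl (.own x p)
  | .inr q => .inr (x, q)

/-- instructions -/
structure Instr (Sy : Type) (N : ℕ) : Type where
  who : Bool
  kind : Kind Sy N
  lit : Lit Sy

/-- states of cells -/
@[ext]
structure A (Sy : Type) (T : ℕ) : Type where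
  s : Sy
  b : ZMod T
  r : Fin 3 → ZMod 2

/-- parameters -/
structure Env (Sy : Type) (N T : ℕ) : Type where
  sg : Sy → Bool
  Rel : Sy → Sy → Sy → Prop
  dig : ZMod T → Fin 3 → Fin N
  code : Kind Sy N → Fin N × Fin N
  tab : ZMod T → Instr Sy N

/-- indicator -/
noncomputable def ind (p : Prop) : ZMod 2 := if p then 1 else 0

theorem ind_pos {p : Prop} (h : p) : ind p = 1 := if_pos h
theorem ind_neg {p : Prop} (h : ¬ p) : ind p = 0 := if_neg h
theorem ind_and (p q : Prop) : ind (p ∧ q) = ind p * ind q := by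
  unfold ind
  by_cases hp : p <;> by_cases hq : q <;> simp [hp, hq]
theorem ind_congr {p q : Prop} (h : p ↔ q) : ind p = ind q := by
  rw [propext h]
theorem ind_eq_one {p : Prop} : ind p = 1 ↔ p := by
  unfold ind
  by_cases hp : p <;> simp [hp]
theorem z_cases (x : ZMod 2) : x = 0 ∨ x = 1 := by
  revert x
  decide
theorem ind_one (x : ZMod 2) : ind (x = 1) = x := by
  rcases z_cases x with rfl | rfl
  · exact ind_neg (by decide)
  · exact ind_pos rfl
theorem two_z (x : ZMod 2) : x + x = 0 := by
  revert x
  decide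

/-- rows -/
structure Gr (ι : Type) : Type where
  act : ι → Prop
  lnk : ι → Prop
  nx : ι → ι
  typ : ι → Bool

/-- well formed rows -/
def Gr.WF {ι : Type} (G : Gr ι) : Prop :=
  ∀ v, G.lnk v → G.act v ∧ G.act (G.nx v) ∧ G.typ (G.nx v) = !G.typ v

/-- adding to the registers -/
def A.add {Sy : Type} {T : ℕ} (a : A Sy T) (g : Fin 3 → ZMod 2) : A Sy T := ⟨a.s, a.b, a.r + g⟩

theorem A.add_add {Sy : Type} {T : ℕ} (a : A Sy T) (g h : Fin 3 → ZMod 2) :
    (a.add g).add h = a.add (g + h) := by
  simp [A.add, add_assoc]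

theorem A.add_zero {Sy : Type} {T : ℕ} (a : A Sy T) : a.add 0 = a := by
  simp [A.add]

namespace Env

variable {Sy : Type} {N T : ℕ} (E : Env Sy N T)

/-- the cell controlled by this cell acts now -/
def On (s : Sy) (b : ZMod T) : Prop := E.sg s = (E.tab b).who

/-- the five digits -/
def dv (b : ZMod T) : Fin 5 → Fin N :=
  ![E.dig b 0, E.dig b 1, E.dig b 2, (E.code (E.tab b).kind).1, (E.code (E.tab b).kind).2]

/-- value of basic predicates -/
def p0v (s : Sy) (b : ZMod T) : P0 Sy → Prop
  | .tt => True
  | .st t => s = t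
  | .on => E.On s b
  | .lt l => (E.tab b).lit = l

/-- value of predicates -/
def pv (s : Sy) (b : ZMod T) : Prd Sy N → Prop
  | .inl p => E.p0v s b p
  | .inr q => E.dv b q.1 = q.2

/-- action of kinds -/
noncomputable def kv : Kind Sy N → A Sy T → A Sy T
  | .inl (.own x p), a => a.add (Pi.single x (ind (E.p0v a.s a.b p)))
  | .inl (.mul z), a => a.add (Pi.single z (a.r (z + 1) * a.r (z + 2)))
  | .inl (.tick e), a => ⟨a.s, (if e then 1 else 0) - a.b, a.r⟩
  | .inl .nop, a => a
  | .inr q, a => a.add (Pi.single q.1 (ind (E.dv a.b q.2.1 = q.2.2)))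

theorem kv_own (x : Fin 3) (p : Prd Sy N) (a : A Sy T) :
    E.kv (ownK x p) a = a.add (Pi.single x (ind (E.pv a.s a.b p))) := by
  rcases p with p | q <;> rfl

theorem kv_s (k : Kind Sy N) (a : A Sy T) : (E.kv k a).s = a.s := by
  rcases k with (k | q)
  · cases k <;> rfl
  · rfl

theorem single_add_self (x : Fin 3) (c : ZMod 2) :
    (Pi.single x c : Fin 3 → ZMod 2) + Pi.single x c = 0 := by
  rw [← Pi.single_add, two_z, Pi.single_zero]

theorem kv_kv (k : Kind Sy N) (a : A Sy T) : E.kv k (E.kv k a) = a := by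
  rcases k with (k | q)
  · cases k with
    | own x p =>
      change (a.add _).add (Pi.single x (ind (E.p0v a.s a.b p))) = a
      rw [A.add_add, single_add_self, A.add_zero]
    | mul z =>
      have h1 : z + 1 ≠ z := by revert z; decide
      have h2 : z + 2 ≠ z := by revert z; decide
      change (a.add _).add (Pi.single z ((a.r + Pi.single z (a.r (z + 1) * a.r (z + 2)) : Fin 3 → ZMod 2) (z + 1) *
        (a.r + Pi.single z (a.r (z + 1) * a.r (z + 2)) : Fin 3 → ZMod 2) (z + 2))) = a
      rw [Pi.add_apply, Pi.add_apply, Pi.single_eq_of_ne h1, Pi.single_eq_of_ne h2, _root_.add_zero,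
        _root_.add_zero, A.add_add, single_add_self, A.add_zero]
    | tick e =>
      change (⟨a.s, (if e then 1 else 0) - ((if e then 1 else 0) - a.b), a.r⟩ : A Sy T) = a
      rw [sub_sub_cancel]
    | nop => rfl
  · change (a.add _).add (Pi.single q.1 (ind (E.dv a.b q.2.1 = q.2.2))) = a
    rw [A.add_add, single_add_self, A.add_zero]

/-- value of literals -/
def lv (a : A Sy T) : Lit Sy → Prop
  | .one => True
  | .reg y => a.r y = 1
  | .st t => a.s = t
  | .uon => a.r 0 = 1 ∧ E.On a.s a.b

variable {ι : Type} (G : Gr ι)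

/-- the condition of an instruction -/
def cond (l : Lit Sy) (y : ι → A Sy T) (v : ι) : Prop :=
  l = .one ∨ (G.lnk v ∧ E.lv (y (G.nx v)) l)

/-- effect of an instruction on one cell -/
noncomputable def ap (I : Instr Sy N) (y : ι → A Sy T) (v : ι) : A Sy T :=
  if G.act v ∧ G.typ v = I.who ∧ E.cond G I.lit y v then E.kv I.kind (y v) else y v

/-- one step with given clocks -/
noncomputable def mv (clk : ι → ZMod T) (y : ι → A Sy T) (v : ι) : A Sy T :=
  E.ap G (E.tab (clk v)) y v

/-- several steps -/
noncomputable def run (clk : ι → ZMod T) (y : ι → A Sy T) : ℕ → ι → A Sy T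
  | 0 => y
  | n + 1 => E.mv G (fun v => clk v + (n : ZMod T)) (run clk y n)

/-- execution of a list of instructions by all cells -/
noncomputable def exec (l : List (Instr Sy N)) (y : ι → A Sy T) : ι → A Sy T :=
  l.foldl (fun y I => E.ap G I y) y

theorem exec_nil (y : ι → A Sy T) : E.exec G [] y = y := rfl

theorem exec_cons (I : Instr Sy N) (l : List (Instr Sy N)) (y : ι → A Sy T) :
    E.exec G (I :: l) y = E.exec G l (E.ap G I y) := rfl

theorem exec_append (l l' : List (Instr Sy N)) (y : ι → A Sy T) :
    E.exec G (l ++ l') y = E.exec G l' (E.exec G l y) := List.foldl_append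

theorem ap_s (I : Instr Sy N) (y : ι → A Sy T) (v : ι) : (E.ap G I y v).s = (y v).s := by
  unfold ap
  split_ifs
  · exact E.kv_s _ _
  · rfl

theorem run_s (clk : ι → ZMod T) (y : ι → A Sy T) (n : ℕ) (v : ι) :
    (E.run G clk y n v).s = (y v).s := by
  induction n with
  | zero => rfl
  | succ n ih => rw [← ih]; exact E.ap_s G _ _ v

theorem run_inact (clk : ι → ZMod T) (y : ι → A Sy T) (n : ℕ) (v : ι) (h : ¬ G.act v) :
    E.run G clk y n v = y v := by
  induction n with
  | zero => rfl
  | succ n ih =>
    rw [← ih]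
    exact if_neg (fun hh => h hh.1)

theorem run_add (clk : ι → ZMod T) (y : ι → A Sy T) (m n : ℕ) :
    E.run G clk y (m + n) = E.run G (fun v => clk v + (m : ZMod T)) (E.run G clk y m) n := by
  induction n with
  | zero => rfl
  | succ n ih =>
    change E.mv G _ (E.run G clk y (m + n)) = E.mv G _ _
    rw [ih]
    congr 1
    funext v
    change clk v + ((m + n : ℕ) : ZMod T) = clk v + (m : ZMod T) + (n : ZMod T)
    rw [Nat.cast_add, add_assoc]

theorem mv_congr {clk clk' : ι → ZMod T} (h : ∀ v, G.act v → clk v = clk' v) (y : ι → A Sy T) :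
    E.mv G clk y = E.mv G clk' y := by
  funext v
  by_cases hv : G.act v
  · unfold mv
    rw [h v hv]
  · unfold mv ap
    rw [if_neg (fun hh => hv hh.1), if_neg (fun hh => hv hh.1)]

theorem run_congr {clk clk' : ι → ZMod T} (h : ∀ v, G.act v → clk v = clk' v) (y : ι → A Sy T)
    (n : ℕ) : E.run G clk y n = E.run G clk' y n := by
  induction n with
  | zero => rfl
  | succ n ih =>
    change E.mv G _ _ = E.mv G _ _
    rw [ih]
    exact E.mv_congr G (fun v hv => by rw [h v hv]) _

/-- a step only reads active cells -/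
theorem mv_loc (hG : G.WF) (clk : ι → ZMod T) {y y' : ι → A Sy T}
    (h : ∀ v, G.act v → y v = y' v) (v : ι) (hv : G.act v) :
    E.mv G clk y v = E.mv G clk y' v := by
  unfold mv ap
  have : E.cond G (E.tab (clk v)).lit y v ↔ E.cond G (E.tab (clk v)).lit y' v := by
    unfold cond
    refine or_congr Iff.rfl (and_congr_right fun hl => ?_)
    rw [h _ (hG v hl).2.1]
  rw [h v hv, propext this]

theorem run_loc (hG : G.WF) (clk : ι → ZMod T) {y y' : ι → A Sy T}
    (h : ∀ v, G.act v → y v = y' v) (n : ℕ) (v : ι) (hv : G.act v) :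
    E.run G clk y n v = E.run G clk y' n v := by
  induction n generalizing v with
  | zero => exact h v hv
  | succ n ih => exact E.mv_loc G hG _ ih v hv

/-- a step is an involution -/
theorem mv_mv (hG : G.WF) (clk : ι → ZMod T) (hc : ∀ v, G.lnk v → clk (G.nx v) = clk v)
    (y : ι → A Sy T) : E.mv G clk (E.mv G clk y) = y := by
  funext v
  have key : G.typ v = (E.tab (clk v)).who →
      (E.cond G (E.tab (clk v)).lit (E.mv G clk y) v ↔ E.cond G (E.tab (clk v)).lit y v) := by
    intro ht
    unfold cond
    refine or_congr Iff.rfl (and_congr_right fun hl => ?_)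
    have : E.mv G clk y (G.nx v) = y (G.nx v) := by
      unfold mv ap
      rw [if_neg]
      rintro ⟨-, h2, -⟩
      rw [(hG v hl).2.2, hc v hl, ← ht] at h2
      revert h2
      cases G.typ v <;> simp
    rw [this]
  by_cases h : G.act v ∧ G.typ v = (E.tab (clk v)).who ∧ E.cond G (E.tab (clk v)).lit y v
  · have h1 : E.mv G clk y v = E.kv (E.tab (clk v)).kind (y v) := if_pos h
    have h2 : E.mv G clk (E.mv G clk y) v = E.kv (E.tab (clk v)).kind (E.mv G clk y v) :=
      if_pos ⟨h.1, h.2.1, (key h.2.1).2 h.2.2⟩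
    rw [h2, h1, kv_kv]
  · have h1 : E.mv G clk y v = y v := if_neg h
    have h2 : E.mv G clk (E.mv G clk y) v = E.mv G clk y v :=
      if_neg (fun hh => h ⟨hh.1, hh.2.1, (key hh.2.1).1 hh.2.2⟩)
    rw [h2, h1]

theorem run_inj (hG : G.WF) (clk : ι → ZMod T) (hc : ∀ v, G.lnk v → clk (G.nx v) = clk v)
    (n : ℕ) {y y' : ι → A Sy T} (h : E.run G clk y n = E.run G clk y' n) : y = y' := by
  induction n with
  | zero => exact h
  | succ n ih =>
    apply ih
    have hc' : ∀ v, G.lnk v → clk (G.nx v) + (n : ZMod T) = clk v + (n : ZMod T) := by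
      intro v hv
      rw [hc v hv]
    have := congrArg (E.mv G (fun v => clk v + (n : ZMod T))) h
    change E.mv G _ (E.mv G _ _) = E.mv G _ (E.mv G _ _) at this
    rwa [E.mv_mv G hG _ hc', E.mv_mv G hG _ hc'] at this

end Env

end H593Z.FinAut
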