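import Pool.Agent.H593Z.FinComp

/-!
The self-simulating program: one cycle of a row performs one step of the next row.
-/

set_option autoImplicit false

namespace H593Z.FinAut

open scoped Classical

/-- list of all elements of a finite type -/
noncomputable def lst (α : Type) [Finite α] : List α := (@Finset.univ α (Fintype.ofFinite α)).toList

theorem mem_lst {α : Type} [Finite α] (a : α) : a ∈ lst α := by
  unfold lst
  simp

theorem nodup_lst (α : Type) [Finite α] : (lst α).Nodup := Finset.nodup_toList _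

theorem length_lst (α : Type) [Finite α] : (lst α).length = Nat.card α := by
  unfold lst
  rw [Finset.length_toList, @Nat.card_eq_fintype_card α (Fintype.ofFinite α)]
  rfl

theorem sum_lst {α : Type} [Finite α] (f : α → ZMod 2) (a : α) (h : ∀ b, b ≠ a → f b = 0) :
    ((lst α).map f).sum = f a := by
  unfold lst
  rw [Finset.sum_map_toList]
  exact Finset.sum_eq_single a (fun b _ hb => h b hb) (fun hh => absurd (@Finset.mem_univ α (Fintype.ofFinite α) a) hh)

variable {Sy : Type} [Finite Sy] {N T : ℕ}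

/-- digit test -/
def dgF (k : Fin 5) (a : Fin N) : Fm Sy N := .own (.inr (k, a))

/-- static test -/
def stF (t : Sy) : Fm Sy N := .own (.inl (.st t))

/-- equality of a digit with the next controlling cell -/
noncomputable def eqdF (k : Fin 5) : Fm Sy N :=
  xorAll ((lst (Fin N)).map fun a => .and (dgF k a) (.next (dgF k a)))

/-- the static relation -/
noncomputable def relF (Rel : Sy → Sy → Sy → Prop) : Fm Sy N :=
  xorAll ((lst (Sy × Sy × Sy)).map fun t => if Rel t.1 t.2.1 t.2.2 then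
    .and (stF t.1) (.and (.nb (.st t.2.1)) (.next (stF t.2.2))) else .zero)

/-- the cell is functional -/
noncomputable def funcF (Rel : Sy → Sy → Sy → Prop) : Fm Sy N :=
  .and (eqdF 0) (.and (eqdF 1) (.and (eqdF 2) (relF Rel)))

/-- the condition of the simulated instruction -/
noncomputable def condF (Rel : Sy → Sy → Sy → Prop) : Fm Sy N :=
  xorAll ((lst (Lit Sy)).map fun l => .and (.own (.inl (.lt l)))
    (if l = .one then .own (.inl .tt) else .and (.next (funcF Rel)) (.nb l)))

/-- the controlled cell has to apply the involution `i` -/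
noncomputable def betaF (Rel : Sy → Sy → Sy → Prop) (code : Kind Sy N → Fin N × Fin N)
    (i : Kind Sy N) : Fm Sy N :=
  .and (.own (.inl .on)) (.and (funcF Rel) (.and (dgF 3 (code i).1) (.and (dgF 4 (code i).2)
    (condF Rel))))

/-- the small cycle for one kind -/
noncomputable def mini (Rel : Sy → Sy → Sy → Prop) (code : Kind Sy N → Fin N × Fin N)
    (i : Kind Sy N) : List (Instr Sy N) :=
  ⟨false, i, .uon⟩ :: (comp (betaF Rel code i) 0 ++ ⟨false, i, .uon⟩ :: comp (betaF Rel code i) 0)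

/-- the program -/
noncomputable def prog (Rel : Sy → Sy → Sy → Prop) (code : Kind Sy N → Fin N × Fin N) :
    List (Instr Sy N) :=
  (lst (Kind Sy N)).flatMap (mini Rel code) ++
    [⟨true, .inl (.tick false), .one⟩, ⟨true, .inl (.tick true), .one⟩]

/-- the empty instruction -/
def nopI : Instr Sy N := ⟨true, .inl .nop, .one⟩

/-- advancing the stored clock -/
def A.tk (a : A Sy T) (m : ℕ) : A Sy T := ⟨a.s, a.b + (m : ZMod T), a.r⟩

namespace Env

variable (E : Env Sy N T)

/-- consistent parameters -/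
structure Good : Prop where
  hdig : Function.Injective E.dig
  hcode : Function.Injective E.code
  hrel : ∀ a b c, E.Rel a b c → E.sg c = !E.sg a
  hlen : (prog E.Rel E.code).length ≤ T
  htab : ∀ c, E.tab c = (prog E.Rel E.code).getD c.val nopI
  hT : 2 ≤ T

variable {ι : Type} (G : Gr ι)

/-- functional cells -/
def Fn (y : ι → A Sy T) (w : ι) : Prop :=
  (G.lnk w ∧ G.lnk (G.nx w)) ∧ (y (G.nx (G.nx w))).b = (y w).b ∧
    E.Rel (y w).s (y (G.nx w)).s (y (G.nx (G.nx w))).s

/-- the simulated condition -/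
def Cd (y : ι → A Sy T) (w : ι) : Prop :=
  (E.tab (y w).b).lit = .one ∨ (((G.lnk w ∧ G.lnk (G.nx w)) ∧ E.Fn G y (G.nx (G.nx w))) ∧
    G.lnk w ∧ E.lv (y (G.nx w)) (E.tab (y w).b).lit)

/-- the value of the main formula -/
def Bv (y : ι → A Sy T) (i : Kind Sy N) (w : ι) : Prop :=
  E.On (y w).s (y w).b ∧ E.Fn G y w ∧ (E.tab (y w).b).kind = i ∧ E.Cd G y w

/-- active cells of the next row -/
def upA (y : ι → A Sy T) (v : ι) : Prop := G.typ v = false ∧ G.lnk v ∧ E.Fn G y (G.nx v)

/-- the next row -/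
def up (y : ι → A Sy T) : Gr ι where
  act := E.upA G y
  lnk v := E.upA G y v ∧ E.upA G y (G.nx (G.nx v))
  nx v := G.nx (G.nx v)
  typ v := E.sg (y (G.nx v)).s

/-- the clocks of the next row -/
def upc (y : ι → A Sy T) (v : ι) : ZMod T := (y (G.nx v)).b

omit [Finite Sy] in
theorem ev_eqd (y : ι → A Sy T) (k : Fin 5) (w : ι) : E.ev G y (eqdF k) w =
    ind ((G.lnk w ∧ G.lnk (G.nx w)) ∧ E.dv (y (G.nx (G.nx w))).b k = E.dv (y w).b k) := by
  unfold eqdF
  rw [ev_xorAll, sum_lst _ (E.dv (y w).b k)]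
  · simp only [ev, dgF, pv]
    rw [ind_pos trivial, one_mul, ind_and (G.lnk w ∧ G.lnk (G.nx w))]
  · intro b hb
    simp only [ev, dgF, pv]
    rw [ind_neg (Ne.symm hb), zero_mul]

theorem ev_rel (y : ι → A Sy T) (w : ι) : E.ev G y (relF E.Rel) w =
    ind ((G.lnk w ∧ G.lnk (G.nx w)) ∧ E.Rel (y w).s (y (G.nx w)).s (y (G.nx (G.nx w))).s) := by
  unfold relF
  rw [ev_xorAll, sum_lst _ ((y w).s, (y (G.nx w)).s, (y (G.nx (G.nx w))).s)]
  · by_cases h : E.Rel (y w).s (y (G.nx w)).s (y (G.nx (G.nx w))).s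
    · rw [if_pos h]
      simp only [ev, stF, pv, p0v, ← ind_and]
      apply ind_congr
      simp only [cond, lv, h, reduceCtorEq]
      tauto
    · rw [if_neg h, ind_neg (fun hh => h hh.2)]
      rfl
  · rintro ⟨a, b, c⟩ hb
    split_ifs
    · simp only [ev, stF, pv, p0v, ← ind_and]
      apply ind_neg
      simp only [cond, lv, reduceCtorEq, false_or]
      rintro ⟨rfl, ⟨-, rfl⟩, -, rfl⟩
      exact hb rfl
    · rfl

variable {E}

theorem ev_func (hE : E.Good) (y : ι → A Sy T) (w : ι) :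
    E.ev G y (funcF E.Rel) w = ind (E.Fn G y w) := by
  unfold funcF
  simp only [ev, ev_eqd, ev_rel, ← ind_and]
  apply ind_congr
  unfold Fn
  constructor
  · rintro ⟨⟨h, h0⟩, ⟨-, h1⟩, ⟨-, h2⟩, -, h3⟩
    refine ⟨h, hE.hdig ?_, h3⟩
    funext k
    fin_cases k
    · exact h0
    · exact h1
    · exact h2
  · rintro ⟨h, h1, h2⟩
    rw [h1]
    exact ⟨⟨h, rfl⟩, ⟨h, rfl⟩, ⟨h, rfl⟩, h, h2⟩

theorem ev_cond (hE : E.Good) (y : ι → A Sy T) (w : ι) :
    E.ev G y (condF E.Rel) w = ind (E.Cd G y w) := by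
  unfold condF
  rw [ev_xorAll, sum_lst _ (E.tab (y w).b).lit]
  · by_cases h : (E.tab (y w).b).lit = .one
    · rw [if_pos h]
      simp only [ev, pv, p0v, ← ind_and]
      apply ind_congr
      simp [Cd, h]
    · rw [if_neg h]
      simp only [ev, pv, p0v, ev_func G hE, ← ind_and]
      apply ind_congr
      simp only [Cd, cond, h, false_or, true_and]
  · intro b hb
    simp only [ev, pv, p0v]
    rw [ind_neg (Ne.symm hb), zero_mul]

theorem ev_beta (hE : E.Good) (y : ι → A Sy T) (i : Kind Sy N) (w : ι) :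
    E.ev G y (betaF E.Rel E.code i) w = ind (E.Bv G y i w) := by
  unfold betaF
  simp only [ev, pv, p0v, dgF, ev_func G hE, ev_cond G hE, ← ind_and]
  apply ind_congr
  unfold Bv
  refine and_congr Iff.rfl (and_congr Iff.rfl ?_)
  rw [← and_assoc]
  refine and_congr ?_ Iff.rfl
  constructor
  · rintro ⟨h1, h2⟩
    exact hE.hcode (Prod.ext h1 h2)
  · rintro rfl
    exact ⟨rfl, rfl⟩

variable (E)

/-- similar configurations -/
def Sim (y y' : ι → A Sy T) : Prop :=
  (∀ v, (y' v).s = (y v).s) ∧ (∀ v, G.typ v = true → (y' v).b = (y v).b) ∧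
    ∀ v, G.typ v = false → G.lnk v → ¬ E.On (y (G.nx v)).s (y (G.nx v)).b → y' v = y v

variable {E G}

omit [Finite Sy] in
theorem typ2 (hG : G.WF) {w : ι} (h : G.lnk w ∧ G.lnk (G.nx w)) :
    G.typ (G.nx (G.nx w)) = G.typ w := by
  rw [(hG _ h.2).2.2, (hG _ h.1).2.2, Bool.not_not]

omit [Finite Sy] in
theorem fn_congr (hG : G.WF) {y y' : ι → A Sy T} (hs : ∀ v, (y' v).s = (y v).s) (c : ZMod T)
    (hb : ∀ v, G.act v → G.typ v = true → (y' v).b = (y v).b + c) {w : ι} (hw : G.typ w = true) :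
    E.Fn G y' w ↔ E.Fn G y w := by
  unfold Fn
  refine and_congr_right fun hl => ?_
  rw [hs, hs, hs, hb w (hG _ hl.1).1 hw, hb _ (hG _ hl.2).2.1 ((typ2 hG hl).trans hw),
    add_left_inj]

theorem bv_sim (hE : E.Good) (hG : G.WF) {y y' : ι → A Sy T} (h : E.Sim G y y') (i : Kind Sy N)
    {w : ι} (hw : G.typ w = true) : E.Bv G y' i w ↔ E.Bv G y i w := by
  have hb : ∀ v, G.act v → G.typ v = true → (y' v).b = (y v).b + 0 := fun v _ hv => by
    rw [h.2.1 v hv, add_zero]
  unfold Bv
  rw [h.1, h.2.1 w hw, fn_congr hG h.1 0 hb hw]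
  refine and_congr_right fun hon => and_congr_right fun hf => and_congr_right fun _ => ?_
  unfold Cd
  rw [h.2.1 w hw]
  refine or_congr Iff.rfl ?_
  have h1 : y' (G.nx w) = y (G.nx w) := by
    refine h.2.2 _ (by rw [(hG _ hf.1.1).2.2, hw]; rfl) hf.1.2 ?_
    unfold On at hon ⊢
    rw [hf.2.1, hE.hrel _ _ _ hf.2.2, hon]
    cases (E.tab (y w).b).who <;> simp
  rw [h1]
  refine and_congr (and_congr_right fun hl => ?_) Iff.rfl
  exact fn_congr hG h.1 0 hb ((typ2 hG hl).trans hw)

omit [Finite Sy] in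
theorem ap_uon (hG : G.WF) (i : Kind Sy N) (y : ι → A Sy T) (v : ι) :
    E.ap G ⟨false, i, .uon⟩ y v = if G.typ v = false ∧ G.lnk v ∧ (y (G.nx v)).r 0 = 1 ∧
      E.On (y (G.nx v)).s (y (G.nx v)).b then E.kv i (y v) else y v := by
  unfold ap
  have : (G.act v ∧ G.typ v = false ∧ E.cond G .uon y v) ↔ (G.typ v = false ∧ G.lnk v ∧
      (y (G.nx v)).r 0 = 1 ∧ E.On (y (G.nx v)).s (y (G.nx v)).b) := by
    simp only [cond, lv, reduceCtorEq, false_or]
    constructor
    · rintro ⟨-, h⟩
      exact h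
    · intro h
      exact ⟨(hG v h.2.1).1, h⟩
  simp only [this]

theorem exec_mini (hE : E.Good) (hG : G.WF) (i : Kind Sy N) (y : ι → A Sy T) (v : ι) :
    E.exec G (mini E.Rel E.code i) y v =
      if G.typ v = false ∧ G.lnk v ∧ E.Bv G y i (G.nx v) then E.kv i (y v) else y v := by
  unfold mini
  simp only [exec_cons, exec_append, E.exec_comp hG]
  set y1 := E.ap G ⟨false, i, .uon⟩ y with hy1
  have w1 : ∀ w, G.typ w = true → y1 w = y w := by
    intro w hw
    rw [hy1, ap_uon hG, if_neg (fun hh => by rw [hw] at hh; exact absurd hh.1 (by decide))]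
  have s1 : E.Sim G y y1 := by
    refine ⟨fun v => E.ap_s G _ _ v, fun v hv => by rw [w1 v hv], fun v _ _ h => ?_⟩
    rw [hy1, ap_uon hG, if_neg (fun hh => h hh.2.2.2)]
  have e1 : upd G true (fun w => Pi.single 0 (E.ev G y1 (betaF E.Rel E.code i) w)) y1 =
      upd G true (fun w => Pi.single 0 (ind (E.Bv G y i w))) y1 := by
    apply upd_congr
    intro w _ hw
    rw [ev_beta G hE, ind_congr (bv_sim hE hG s1 i hw)]
  rw [e1]
  set y2 := upd G true (fun w => Pi.single 0 (ind (E.Bv G y i w))) y1 with hy2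
  set y3 := E.ap G ⟨false, i, .uon⟩ y2 with hy3
  have w3 : ∀ w, G.typ w = true → y3 w = y2 w := by
    intro w hw
    rw [hy3, ap_uon hG, if_neg (fun hh => by rw [hw] at hh; exact absurd hh.1 (by decide))]
  have hs2 : ∀ w, (y2 w).s = (y w).s := fun w => by rw [hy2, upd_s, s1.1]
  have hb2 : ∀ w, G.typ w = true → (y2 w).b = (y w).b := fun w hw => by rw [hy2, upd_b, w1 w hw]
  have s3 : E.Sim G y y3 := by
    refine ⟨fun v => by rw [hy3, E.ap_s, hs2], fun v hv => by rw [w3 v hv, hb2 v hv],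
      fun v ht hl h => ?_⟩
    have h2 : G.typ (G.nx v) = true := by rw [(hG v hl).2.2, ht]; rfl
    rw [hy3, ap_uon hG, hs2, hb2 _ h2, if_neg (fun hh => h hh.2.2.2), hy2,
      upd_ne G true _ _ _ (by rw [ht]; decide), s1.2.2 v ht hl h]
  have e3 : upd G true (fun w => Pi.single 0 (E.ev G y3 (betaF E.Rel E.code i) w)) y3 =
      upd G true (fun w => Pi.single 0 (ind (E.Bv G y i w))) y3 := by
    apply upd_congr
    intro w _ hw
    rw [ev_beta G hE, ind_congr (bv_sim hE hG s3 i hw)]
  rw [e3]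
  cases ht : G.typ v
  · rw [upd_ne G true _ _ _ (by rw [ht]; decide), hy3, ap_uon hG]
    have h2v : y2 v = y1 v := upd_ne G true _ _ _ (by rw [ht]; decide)
    rw [h2v, hy1, ap_uon hG, ht]
    by_cases hl : G.lnk v
    · have h2 : G.typ (G.nx v) = true := by rw [(hG v hl).2.2, ht]; rfl
      have hr : (y2 (G.nx v)).r 0 = (y (G.nx v)).r 0 + ind (E.Bv G y i (G.nx v)) := by
        rw [hy2, upd_r G true _ _ _ (hG v hl).2.1 h2, Pi.add_apply, Pi.single_eq_same, w1 _ h2]
      rw [hr, hs2, hb2 _ h2]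
      by_cases hB : E.Bv G y i (G.nx v)
      · have hon := hB.1
        rw [ind_pos hB]
        rcases z_cases ((y (G.nx v)).r 0) with h0 | h0
        · rw [h0]
          simp [hl, hon, hB]
        · rw [h0]
          have : (1 : ZMod 2) + 1 ≠ 1 := by decide
          simp [hl, hon, hB, this]
      · rw [ind_neg hB, add_zero]
        simp only [hB, and_false, if_false]
        split_ifs
        · rw [kv_kv]
        · rfl
    · simp [hl]
  · rw [if_neg (fun hh => absurd hh.1 (by decide))]
    unfold upd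
    rw [w3 v ht, hy2]
    unfold upd
    split_ifs with h
    · rw [A.add_add, single_add_self, A.add_zero, w1 v ht]
    · exact w1 v ht

theorem exec_loop (hE : E.Good) (hG : G.WF) (l : List (Kind Sy N)) (hl : l.Nodup)
    (y : ι → A Sy T) (v : ι) :
    E.exec G (l.flatMap (mini E.Rel E.code)) y v =
      if G.typ v = false ∧ G.lnk v ∧ ∃ i ∈ l, E.Bv G y i (G.nx v) then
        E.kv (E.tab (y (G.nx v)).b).kind (y v) else y v := by
  induction l generalizing y with
  | nil => simp [exec_nil]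
  | cons i l ih =>
    rw [List.flatMap_cons, exec_append, ih (List.nodup_cons.1 hl).2]
    set y1 := E.exec G (mini E.Rel E.code i) y with hy1
    have s1 : E.Sim G y y1 := by
      refine ⟨fun v => ?_, fun v hv => ?_, fun v _ _ h => ?_⟩
      · rw [hy1, exec_mini hE hG]
        split_ifs
        · exact E.kv_s _ _
        · rfl
      · rw [hy1, exec_mini hE hG, if_neg (fun hh => by rw [hv] at hh; exact absurd hh.1 (by decide))]
      · rw [hy1, exec_mini hE hG, if_neg (fun hh => h hh.2.2.1)]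
    by_cases h : G.typ v = false ∧ G.lnk v
    · have h2 : G.typ (G.nx v) = true := by rw [(hG v h.2).2.2, h.1]; rfl
      simp only [bv_sim hE hG s1 _ h2, s1.2.1 _ h2]
      rw [hy1, exec_mini hE hG]
      by_cases hB : E.Bv G y i (G.nx v)
      · rw [if_neg, if_pos ⟨h.1, h.2, hB⟩, if_pos ⟨h.1, h.2, i, List.mem_cons_self, hB⟩, hB.2.2.1]
        rintro ⟨-, -, j, hj, hj2⟩
        apply (List.nodup_cons.1 hl).1
        rw [← hB.2.2.1, hj2.2.2.1]
        exact hj
      · rw [if_neg (fun hh : G.typ v = false ∧ G.lnk v ∧ E.Bv G y i (G.nx v) => hB hh.2.2)]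
        simp only [List.mem_cons, exists_eq_or_imp, hB, false_or]
    · rw [if_neg (fun hh => h ⟨hh.1, hh.2.1⟩), if_neg (fun hh => h ⟨hh.1, hh.2.1⟩), hy1,
        exec_mini hE hG, if_neg (fun hh => h ⟨hh.1, hh.2.1⟩)]

theorem up_wf (hE : E.Good) (y : ι → A Sy T) : (E.up G y).WF := by
  rintro v ⟨h1, h2⟩
  exact ⟨h1, h2, hE.hrel _ _ _ h1.2.2.2.2⟩

omit [Finite Sy] in
theorem up_ck (y : ι → A Sy T) (v : ι) (h : (E.up G y).lnk v) :
    upc G y ((E.up G y).nx v) = upc G y v := h.1.2.2.2.1

/-- One cycle. -/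
theorem exec_prog (hE : E.Good) (hG : G.WF) (y : ι → A Sy T) (v : ι) :
    E.exec G (prog E.Rel E.code) y v =
      if G.act v ∧ G.typ v = true then (y v).tk 1 else E.mv (E.up G y) (upc G y) y v := by
  unfold prog
  rw [exec_append]
  set y1 := E.exec G ((lst (Kind Sy N)).flatMap (mini E.Rel E.code)) y with hy1
  simp only [exec_cons, exec_nil]
  by_cases h : G.act v ∧ G.typ v = true
  · rw [if_pos h]
    have h1 : y1 v = y v := by
      rw [hy1, exec_loop hE hG _ (nodup_lst _),
        if_neg (fun hh => by rw [h.2] at hh; exact absurd hh.1 (by decide))]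
    have h2 : ∀ (e : Bool) (z : ι → A Sy T), E.ap G ⟨true, .inl (.tick e), .one⟩ z v =
        E.kv (.inl (.tick e)) (z v) := fun e z => if_pos ⟨h.1, h.2, Or.inl rfl⟩
    rw [h2, h2, h1]
    simp [kv, A.tk, add_comm]
  · rw [if_neg h]
    have h2 : ∀ (e : Bool) (z : ι → A Sy T), E.ap G ⟨true, .inl (.tick e), .one⟩ z v = z v :=
      fun e z => if_neg (fun hh => h ⟨hh.1, hh.2.1⟩)
    rw [h2, h2, hy1, exec_loop hE hG _ (nodup_lst _)]
    unfold mv ap
    have : (G.typ v = false ∧ G.lnk v ∧ ∃ i ∈ lst (Kind Sy N), E.Bv G y i (G.nx v)) ↔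
        ((E.up G y).act v ∧ (E.up G y).typ v = (E.tab (upc G y v)).who ∧
          E.cond (E.up G y) (E.tab (upc G y v)).lit y v) := by
      constructor
      · rintro ⟨h1, h2, i, -, h3, h4, -, h5⟩
        refine ⟨⟨h1, h2, h4⟩, h3, ?_⟩
        rcases h5 with h5 | ⟨⟨h5, h6⟩, -, h7⟩
        · exact Or.inl h5
        · exact Or.inr ⟨⟨⟨h1, h2, h4⟩, (typ2 hG ⟨h2, h5.1⟩).trans h1, h5.2, h6⟩, h7⟩
      · rintro ⟨⟨h1, h2, h4⟩, h3, h5⟩
        refine ⟨h1, h2, _, mem_lst _, h3, h4, rfl, ?_⟩
        rcases h5 with h5 | ⟨⟨-, -, -, h6⟩, h7⟩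
        · exact Or.inl h5
        · exact Or.inr ⟨⟨h4.1, h6⟩, h4.1.1, h7⟩
    simp only [this]
    rfl

theorem run_take (hE : E.Good) (y : ι → A Sy T) (n : ℕ) (hn : n ≤ T) :
    E.run G (fun _ => 0) y n = E.exec G ((prog E.Rel E.code).take n) y := by
  have : NeZero T := ⟨by have := hE.hT; omega⟩
  induction n with
  | zero => rfl
  | succ n ih =>
    change E.mv G _ _ = _
    rw [ih (by omega)]
    funext v
    unfold mv
    beta_reduce
    rw [hE.htab, zero_add, ZMod.val_cast_of_lt (by omega)]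
    by_cases h : n < (prog E.Rel E.code).length
    · rw [List.take_succ_eq_append_getElem h, exec_append, exec_cons, exec_nil,
        List.getD_eq_getElem _ _ h]
    · rw [List.take_of_length_le (by omega), List.take_of_length_le (by omega),
        List.getD_eq_default _ _ (by omega)]
      unfold ap
      split_ifs <;> rfl

/-- Several cycles. -/
theorem run_cyc (hE : E.Good) (hG : G.WF) (y : ι → A Sy T) (m : ℕ) (v : ι) :
    E.run G (fun _ => 0) y (T * m) v =
      if G.act v ∧ G.typ v = true then (y v).tk m else E.run (E.up G y) (upc G y) y m v := by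
  induction m generalizing v with
  | zero =>
    simp only [mul_zero, run, A.tk, Nat.cast_zero, add_zero, ite_self]
  | succ m ih =>
    rw [Nat.mul_succ, run_add]
    set z := E.run G (fun _ => 0) y (T * m) with hz
    have h0 : (fun _ : ι => (0 : ZMod T) + ((T * m : ℕ) : ZMod T)) = fun _ => 0 := by
      funext v
      simp
    rw [h0, run_take hE z T le_rfl, List.take_of_length_le hE.hlen, exec_prog hE hG]
    by_cases h : G.act v ∧ G.typ v = true
    · rw [if_pos h, if_pos h, ih, if_pos h]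
      simp [A.tk, add_assoc]
    · rw [if_neg h, if_neg h]
      have hs : ∀ v, (z v).s = (y v).s := fun v => E.run_s G _ y _ v
      have hb : ∀ v, G.act v → G.typ v = true → (z v).b = (y v).b + (m : ZMod T) := by
        intro v h1 h2
        rw [ih, if_pos ⟨h1, h2⟩]
        rfl
      have hA : E.upA G z = E.upA G y := by
        funext v
        unfold upA
        apply propext
        refine and_congr_right fun h1 => and_congr_right fun h2 => ?_
        exact fn_congr hG hs _ hb (by rw [(hG v h2).2.2, h1]; rfl)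
      have hu : E.up G z = E.up G y := by
        unfold up
        simp only [hA, hs]
      rw [hu]
      have hc : E.mv (E.up G y) (upc G z) z =
          E.mv (E.up G y) (fun v => upc G y v + (m : ZMod T)) z := by
        apply mv_congr
        rintro v ⟨h1, h2, -⟩
        exact hb _ (hG v h2).2.1 (by rw [(hG v h2).2.2, h1]; rfl)
      rw [hc]
      by_cases hv : (E.up G y).act v
      · refine E.mv_loc _ (up_wf hE y) _ ?_ v hv
        intro u hu
        rw [ih, if_neg (fun hh => by rw [hu.1] at hh; exact absurd hh.2 (by decide))]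
      · rw [E.run_inact _ _ _ _ _ hv]
        unfold mv ap
        rw [if_neg (fun hh => hv hh.1), ih, if_neg h, E.run_inact _ _ _ _ _ hv]

end Env

end H593Z.FinAut
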