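import Mathlib

/-!
Reset Mealy automata and the groups they generate.
-/

set_option autoImplicit false

namespace H593Z.FinAut

/-- The action on finite words of the state `x` of the reset automaton with reset map `f` (the
state after reading the letter `a` is `f a`) and output permutations `rho`. -/
def resetAct {Q S : Type} (f : S → Q) (rho : Q → Equiv.Perm S) : Q → List S → List S
  | _, [] => []
  | x, a :: u => rho x a :: resetAct f rho (f a) u

/-- The group of permutations of the finite words generated by the states. -/
def resetGroup {Q S : Type} (f : S → Q) (rho : Q → Equiv.Perm S) : Subgroup (Equiv.Perm (List S)) :=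
  Subgroup.closure {g | ∃ x : Q, ∀ u : List S, g u = resetAct f rho x u}

/-- The finite description of a reset automaton with `n` states and `m` letters: the two numbers,
the table of the reset map and the table of the output maps. -/
def resetCode {n m : ℕ} (f : Fin m → Fin n) (rho : Fin n → Equiv.Perm (Fin m)) :
    ℕ × ℕ × List ℕ × List (List ℕ) :=
  (n, m, List.ofFn (fun a => (f a : ℕ)), List.ofFn (fun x => List.ofFn (fun a => (rho x a : ℕ))))

end H593Z.FinAut
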