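import Pool.Agent.H593Z.FinPer
import Pool.Agent.Helper948.Erode.Reg

/-!
The static layer: a register machine run along the rows of the hierarchy.
-/

set_option autoImplicit false

namespace H593Z.FinAut

open scoped Classical
open Pool.Agent.Helper948.Erode

/-- static symbols -/
structure St (P J : Type) (e : ℕ) : Type where
  sg : Bool
  q : P
  mr : J → Bool
  kp : J → ZMod (2 ^ e)

instance {P J : Type} [Finite P] [Finite J] {e : ℕ} : Finite (St P J e) := by
  refine Finite.of_injective (β := Bool × P × (J → Bool) × (J → ZMod (2 ^ e)))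
    (fun x => (x.sg, x.q, x.mr, x.kp)) ?_
  rintro ⟨a, b, c, d⟩ ⟨a', b', c', d'⟩ h
  simp_all

variable {P J : Type} {e : ℕ} (M : DM P J)

/-- selected marks -/
def Sel (t : St P J e) (j : J) (d : ℕ) : Prop := t.mr j = true ∧ 2 ^ d ∣ (t.kp j).val

/-- the branch read from two neighbouring symbols -/
def zf (t1 t3 : St P J e) : Bool := !(t1.mr (M.reg t1.q) && t3.mr (M.reg t1.q))

/-- the static relation -/
def MRel (t1 t2 t3 : St P J e) : Prop :=
  t3.sg = (!t1.sg) ∧ (∀ j, t3.kp j = t1.kp j + (if t3.mr j = true then 1 else 0)) ∧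
    (t1.sg = false → M.nxt t1.q (zf M t1 t3) = some t2.q ∧ ∀ j, (t2.mr j = true ↔
      Sel t1 j (M.vec t1.q (zf M t1 t3) j + 1).toNat ∨
      Sel t3 j (M.vec t1.q (zf M t1 t3) j + 1).toNat))

/-- a window matches a configuration -/
def Match (x : Option P × (J → ℤ)) (d : ℕ → St P J e) (l : ℕ) : Prop :=
  ∃ q, x.1 = some q ∧ (∀ a ≤ l, (d a).q = q) ∧
    ∀ j, ∃ r : ℕ, ∀ a ≤ l, ((d a).mr j = true ↔ 2 ^ (x.2 j).toNat ∣ a + r)

theorem both_dvd (n x : ℕ) : (2 ^ n ∣ x ∧ 2 ^ n ∣ x + 1) ↔ n = 0 := by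
  constructor
  · rintro ⟨h1, h2⟩
    have := (Nat.dvd_add_right h1).1 h2
    rw [Nat.dvd_one, Nat.pow_eq_one] at this
    omega
  · rintro rfl
    simp

theorem sel_dvd (n D x k : ℕ) :
    (2 ^ n ∣ x ∧ 2 ^ D ∣ k + x / 2 ^ n) ↔ 2 ^ (n + D) ∣ x + k * 2 ^ n := by
  have hp : 0 < 2 ^ n := by positivity
  constructor
  · rintro ⟨⟨u, rfl⟩, h⟩
    rw [Nat.mul_div_cancel_left _ hp] at h
    rw [pow_add, show 2 ^ n * u + k * 2 ^ n = 2 ^ n * (k + u) by ring]
    exact Nat.mul_dvd_mul_left _ h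
  · intro h
    have h1 : 2 ^ n ∣ x + k * 2 ^ n := (Dvd.intro _ (pow_add 2 n D).symm).trans h
    obtain ⟨u, rfl⟩ := (Nat.dvd_add_left (Dvd.intro_left k rfl)).1 h1
    refine ⟨Dvd.intro _ rfl, ?_⟩
    rw [Nat.mul_div_cancel_left _ hp]
    rw [pow_add, show 2 ^ n * u + k * 2 ^ n = 2 ^ n * (k + u) by ring] at h
    exact Nat.dvd_of_mul_dvd_mul_left hp h

theorem pair_dvd (n b R : ℕ) :
    (2 ^ (n + 1) ∣ 2 * b + R ∨ 2 ^ (n + 1) ∣ 2 * b + 1 + R) ↔ 2 ^ n ∣ b + (R + 1) / 2 := by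
  have hodd : ∀ x, ¬ 2 ^ (n + 1) ∣ 2 * x + 1 := by
    intro x h
    have := (Dvd.intro _ (pow_succ' 2 n).symm).trans h
    omega
  have hev : ∀ x, 2 ^ (n + 1) ∣ 2 * x ↔ 2 ^ n ∣ x := by
    intro x
    rw [pow_succ']
    exact Nat.mul_dvd_mul_iff_left (by norm_num)
  rcases Nat.even_or_odd' R with ⟨u, rfl | rfl⟩
  · rw [show 2 * b + 2 * u = 2 * (b + u) by ring, show 2 * b + 1 + 2 * u = 2 * (b + u) + 1 by ring,
      hev, show (2 * u + 1) / 2 = u by omega]
    simp [hodd]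
  · rw [show 2 * b + (2 * u + 1) = 2 * (b + u) + 1 by ring,
      show 2 * b + 1 + (2 * u + 1) = 2 * (b + (u + 1)) by ring, hev,
      show (2 * u + 1 + 1) / 2 = u + 1 by omega]
    simp [hodd]

theorem dvd_val (D k : ℕ) (hD : D ≤ e) : 2 ^ D ∣ ((k : ZMod (2 ^ e))).val ↔ 2 ^ D ∣ k := by
  rw [ZMod.val_natCast]
  exact Nat.dvd_mod_iff (pow_dvd_pow 2 hD)

theorem zf_eq (t1 t3 : St P J e) (c : J → ℤ) (x : ℕ)
    (h1 : t1.mr (M.reg t1.q) = true ↔ 2 ^ (c (M.reg t1.q)).toNat ∣ x)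
    (h3 : t3.mr (M.reg t1.q) = true ↔ 2 ^ (c (M.reg t1.q)).toNat ∣ x + 1) :
    zf M t1 t3 = M.br t1.q c := by
  have h := both_dvd (c (M.reg t1.q)).toNat x
  rw [← h1, ← h3] at h
  unfold zf DM.br
  by_cases hc : 0 < c (M.reg t1.q)
  · have : ¬ (t1.mr (M.reg t1.q) = true ∧ t3.mr (M.reg t1.q) = true) := by
      rw [h]
      omega
    revert this
    cases t1.mr (M.reg t1.q) <;> cases t3.mr (M.reg t1.q) <;> simp [hc]
  · have : t1.mr (M.reg t1.q) = true ∧ t3.mr (M.reg t1.q) = true := by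
      rw [h]
      omega
    simp [hc, this.1, this.2]

theorem vec_ge (p : P) (b : Bool) (j : J) : -1 ≤ M.vec p b j := by
  cases b
  · have := M.hz p j
    omega
  · by_cases h : j = M.reg p
    · rw [h, M.hp']
    · have := M.hp p j h
      omega

theorem exp_eq (q : P) (c : J → ℤ) (hc : ∀ j, 0 ≤ c j) (j : J) :
    (c j).toNat + (M.vec q (M.br q c) j + 1).toNat = (c j + M.vec q (M.br q c) j).toNat + 1 := by
  have h1 : 0 ≤ c j + M.vec q (M.br q c) j := M.st_nonneg (some q, c) hc j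
  have h2 := vec_ge M q (M.br q c) j
  have h3 := hc j
  omega

theorem match_step {N T : ℕ} (E : Env (St P J e) N T) (hsg : E.sg = St.sg) (hrel : E.Rel = MRel M)
    (he : ∀ p b j, (M.vec p b j + 1).toNat ≤ e) (x : Option P × (J → ℤ)) (hx : ∀ j, 0 ≤ x.2 j) :
    E.Step (Match x) (Match (M.st x)) := by
  obtain ⟨o, c⟩ := x
  rintro d p l ⟨q, hq, h1, h2⟩ h0 hR
  obtain rfl : o = some q := hq
  rw [hsg] at h0
  rw [hrel] at hR
  have hs : ∀ b ≤ l, (d (2 * b)).sg = false := by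
    intro b hb
    induction b with
    | zero => exact h0
    | succ b ih =>
      have a1 := (hR (2 * b) (by omega)).1
      have a2 := (hR (2 * b + 1) (by omega)).1
      rw [show 2 * (b + 1) = 2 * b + 1 + 1 by ring, a2, a1, ih (by omega)]
      rfl
  have hz : ∀ a ≤ 2 * l + 1, zf M (d a) (d (a + 1)) = M.br q c := by
    intro a ha
    obtain ⟨r, hr⟩ := h2 (M.reg q)
    have := zf_eq M (d a) (d (a + 1)) c (a + r) (by rw [h1 a (by omega)]; exact hr a (by omega))
      (by rw [h1 a (by omega), add_right_comm]; exact hr (a + 1) (by omega))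
    rwa [h1 a (by omega)] at this
  have hn : ∀ b ≤ l, M.nxt q (M.br q c) = some (p (2 * b)).q := by
    intro b hb
    have := ((hR (2 * b) (by omega)).2.2 (hs b hb)).1
    rwa [hz _ (by omega), h1 _ (by omega)] at this
  refine ⟨(p 0).q, hn 0 (by omega), fun b hb => ?_, fun j => ?_⟩
  · exact Option.some.inj ((hn b hb).symm.trans (hn 0 (by omega)))
  · obtain ⟨r, hr⟩ := h2 j
    obtain ⟨k, hk⟩ : ∃ k : ℕ, (k : ZMod (2 ^ e)) = (d 0).kp j - ((r / 2 ^ (c j).toNat : ℕ) : ZMod (2 ^ e)) :=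
      ZMod.natCast_zmod_surjective _
    have hkp : ∀ a ≤ 2 * l + 2, (d a).kp j = ((k + (a + r) / 2 ^ (c j).toNat : ℕ) : ZMod (2 ^ e)) := by
      intro a ha
      induction a with
      | zero => rw [Nat.cast_add, hk, zero_add, sub_add_cancel]
      | succ a ih =>
        rw [(hR a (by omega)).2.1 j, ih (by omega), add_right_comm a 1 r, Nat.succ_div]
        have := hr (a + 1) ha
        rw [add_right_comm] at this
        simp only [this]
        split_ifs <;> simp [add_assoc]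
    have hsel : ∀ a ≤ 2 * l + 2, Sel (d a) j (M.vec q (M.br q c) j + 1).toNat ↔
        2 ^ ((c j + M.vec q (M.br q c) j).toNat + 1) ∣ a + (r + k * 2 ^ (c j).toNat) := by
      intro a ha
      unfold Sel
      rw [hkp a ha, dvd_val _ _ (he _ _ _), hr a ha, sel_dvd, exp_eq M q c hx, add_assoc]
    refine ⟨(r + k * 2 ^ (c j).toNat + 1) / 2, fun b hb => ?_⟩
    have := ((hR (2 * b) (by omega)).2.2 (hs b hb)).2 j
    rw [hz _ (by omega), h1 _ (by omega), hsel _ (by omega), hsel _ (by omega), pair_dvd] at this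
    exact this

/-- the symbols of the model hierarchy -/
noncomputable def dat (e : ℕ) (q : P) (c : J → ℤ) (a : ℕ) : St P J e :=
  ⟨decide (a % 2 = 1), q, fun j => decide (2 ^ (c j).toNat ∣ a),
    fun j => ((a / 2 ^ (c j).toNat : ℕ) : ZMod (2 ^ e))⟩

theorem dat_rel (he : ∀ p b j, (M.vec p b j + 1).toNat ≤ e) (q q' : P) (c c' : J → ℤ)
    (hc : ∀ j, 0 ≤ c j) (h : M.st (some q, c) = (some q', c')) (a : ℕ) (t : St P J e)
    (ht : ∀ b, a = 2 * b → t = dat e q' c' b) : MRel M (dat e q c a) t (dat e q c (a + 1)) := by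
  refine ⟨?_, fun j => ?_, fun hs => ?_⟩
  · simp only [dat]
    rcases Nat.mod_two_eq_zero_or_one a with h | h
    · simp [h, Nat.add_mod]
    · simp [h, Nat.add_mod]
  · simp only [dat, decide_eq_true_eq]
    rw [Nat.succ_div]
    split_ifs <;> simp
  · obtain ⟨b, rfl⟩ : ∃ b, a = 2 * b := by
      simp only [dat, decide_eq_false_iff_not] at hs
      exact ⟨a / 2, by omega⟩
    rw [ht b rfl]
    have hz : zf M (dat e q c (2 * b)) (dat e q c (2 * b + 1)) = M.br q c :=
      zf_eq M (dat e q c (2 * b)) (dat e q c (2 * b + 1)) c (2 * b) (by simp [dat]) (by simp [dat])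
    rw [hz]
    have h1 : M.nxt q (M.br q c) = some q' := congrArg Prod.fst h
    have h2 : c + M.vec q (M.br q c) = c' := congrArg Prod.snd h
    refine ⟨h1, fun j => ?_⟩
    have hsel : ∀ a, Sel (dat e q c a) j (M.vec q (M.br q c) j + 1).toNat ↔
        2 ^ ((c j + M.vec q (M.br q c) j).toNat + 1) ∣ a + 0 := by
      intro a
      have := sel_dvd (c j).toNat (M.vec q (M.br q c) j + 1).toNat a 0
      rw [zero_add, zero_mul, exp_eq M q c hc] at this
      rw [← this]
      unfold Sel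
      simp only [dat, decide_eq_true_eq]
      rw [dvd_val _ _ (he _ _ _)]
    change (dat e q' c' b).mr j = true ↔ Sel (dat e q c (2 * b)) j (M.vec q (M.br q c) j + 1).toNat ∨
      Sel (dat e q c (2 * b + 1)) j (M.vec q (M.br q c) j + 1).toNat
    rw [hsel, hsel, pair_dvd, ← h2]
    simp [dat]

theorem exists_e [Finite P] [Finite J] : ∃ e : ℕ, ∀ p b j, (M.vec p b j + 1).toNat ≤ e := by
  obtain ⟨e, he⟩ := (Set.finite_range (fun x : P × Bool × J =>
    (M.vec x.1 x.2.1 x.2.2 + 1).toNat)).bddAbove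
  exact ⟨e, fun p b j => he ⟨(p, b, j), rfl⟩⟩

theorem iter_nonneg (x : Option P × (J → ℤ)) (h : ∀ j, 0 ≤ x.2 j) (k : ℕ) :
    ∀ j, 0 ≤ (M.st^[k] x).2 j := by
  induction k with
  | zero => exact h
  | succ k ih =>
    rw [Function.iterate_succ_apply']
    exact M.st_nonneg _ ih

/-- A fixed register machine with undecidable halting problem. -/
theorem exists_dm2 : ∃ (P J : Type) (_ : Finite P) (_ : Finite J) (M : DM P J) (p0 : P) (j0 : J)
    (N : ℕ → ℕ), Computable N ∧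
    ¬ ComputablePred (fun n => M.Halts (some p0, fun j => if j = j0 then (N n : ℤ) else 0)) := by
  obtain ⟨Q, hQ, M, q0, N, -, hN, h⟩ := exists_sys
  refine ⟨RS M, Bool × Bool, inferInstance, inferInstance, dm M q0 0, .d1 q0 (z0 M), (false, true),
    N, hN, fun hc => h (hc.of_eq fun n => ?_)⟩
  rw [← dm_halts_iff M q0 0 q0 (ini (N n))]
  have : (fun j : Bool × Bool => if j = (false, true) then (N n : ℤ) else 0) =
      v4 (ini (N n) true) (ini (N n) false) 0 0 := by
    funext ⟨a, b⟩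
    cases a <;> cases b <;> simp [v4, ini]
  rw [← this]
  congr!

end H593Z.FinAut
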