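import Pool.Agent.H593Z.FinCA
import Pool.Agent.H593Z.FinDefs

/-!
Numerical form of the cellular automaton, and the relation with reset automata.
-/

set_option autoImplicit false

namespace H593Z.FinAut

open scoped Classical
open Pool.Agent.Helper948.Erode

/-- periodicity on configurations of numbers below `m` -/
def PerN (m : ℕ) (f : ℕ → ℕ → ℕ) : Prop :=
  ∃ k > 0, ∀ c : ℕ → ℕ, (∀ i, c i < m) → (glob f)^[k] c = c

theorem glob_conj {B C : Type} (f : B → B → B) (g : C → C → C) (φ : B → C)
    (h : ∀ a b, φ (f a b) = g (φ a) (φ b)) (c : ℕ → B) (k : ℕ) :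
    φ ∘ (glob f)^[k] c = (glob g)^[k] (φ ∘ c) := by
  induction k with
  | zero => rfl
  | succ k ih =>
    rw [Function.iterate_succ_apply', Function.iterate_succ_apply', ← ih]
    funext i
    exact h _ _

theorem exists_ca : ∃ (m : ℕ → ℕ) (f : ℕ → ℕ → ℕ → ℕ) (N : ℕ → ℕ), Primrec m ∧
    Primrec (fun x : ℕ × ℕ × ℕ => f x.1 x.2.1 x.2.2) ∧ Computable N ∧ (∀ k, 0 < m k) ∧
    (∀ k x x', x < m k → f k x x' < m k) ∧ (∀ k x', Function.Injective (fun x => f k x x')) ∧
    ¬ ComputablePred (fun n => PerN (m (N n)) (f (N n))) := by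
  obtain ⟨P, J, hP, hJ, M, p0, j0, Nf, hN, hnc⟩ := exists_dm2
  obtain ⟨e, he⟩ := exists_e M
  obtain ⟨N, T, E, hsg, hrel, hE⟩ := exists_env (St.sg : St P J e → Bool) (MRel M)
    (fun a b c h => h.1)
  have : NeZero T := ⟨by have := hE.hT; omega⟩
  have : Nonempty (ZMod T × A (St P J e) T) := ⟨(0, ⟨dat e p0 0 0, 0, 0⟩)⟩
  obtain ⟨m0, hm0, ⟨enc⟩⟩ : ∃ m0 : ℕ, 0 < m0 ∧ Nonempty ((ZMod T × A (St P J e) T) ≃ Fin m0) :=
    ⟨_, Nat.card_pos, ⟨Finite.equivFin _⟩⟩
  set fin : ℕ → Fin m0 := fun x => ⟨x % m0, Nat.mod_lt _ hm0⟩ with hfin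
  set dec : ℕ → ℕ × ZMod T × A (St P J e) T := fun x => (x / m0, enc.symm (fin x)) with hdec
  set cod : ℕ × ZMod T × A (St P J e) T → ℕ := fun y => y.1 * m0 + enc y.2 with hcod
  have cd : ∀ x, cod (dec x) = x := by
    intro x
    simp only [hcod, hdec, hfin, Equiv.apply_symm_apply]
    exact Nat.div_add_mod' x m0
  have dc : ∀ y, dec (cod y) = y := by
    rintro ⟨p, y⟩
    simp only [hcod, hdec, hfin]
    refine Prod.ext ?_ ?_
    · simp only
      rw [add_comm, Nat.add_mul_div_right _ _ hm0, Nat.div_eq_of_lt (enc y).2, zero_add]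
    · simp only
      rw [Equiv.symm_apply_eq]
      apply Fin.ext
      simp only
      rw [add_comm, Nat.add_mul_mod_self_right, Nat.mod_eq_of_lt (enc y).2]
  have hlt : ∀ PP x, x < PP * m0 ↔ (dec x).1 < PP := fun PP x => (Nat.div_lt_iff_lt_mul hm0).symm
  have hpow : Primrec (fun k : ℕ => 2 ^ (k + 1)) :=
    (Primrec₂.unpaired'.1 Nat.Primrec.pow).comp (Primrec.const 2) Primrec.succ
  refine ⟨fun k => 2 ^ (k + 1) * m0,
    fun k x x' => cod (loc E (MIni p0 j0) (2 ^ (k + 1)) (dec x) (dec x')), Nf,
    Primrec.nat_mul.comp hpow (Primrec.const m0), ?_, hN, fun k => by positivity, ?_, ?_, ?_⟩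
  · have hf : Primrec fin := Primrec.fin_val_iff.1 (Primrec.nat_mod.comp Primrec.id (Primrec.const m0))
    have hH : Primrec (fun z : Fin m0 × Fin m0 × (Bool × Bool × Bool × Bool × Bool) =>
        (enc (core E (MIni p0 j0) (enc.symm z.1) (enc.symm z.2.1) z.2.2) : ℕ)) :=
      Primrec.dom_finite _
    have h1 : Primrec (fun x : ℕ × ℕ × ℕ => x.2.1 / m0) :=
      Primrec.nat_div.comp (Primrec.fst.comp Primrec.snd) (Primrec.const m0)
    have h2 : Primrec (fun x : ℕ × ℕ × ℕ => x.2.2 / m0) :=
      Primrec.nat_div.comp (Primrec.snd.comp Primrec.snd) (Primrec.const m0)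
    have hq : ∀ {a b : ℕ × ℕ × ℕ → ℕ}, Primrec a → Primrec b → Primrec (fun x => decide (a x = b x)) :=
      fun ha hb => (Primrec.eq.comp ha hb).decide
    have hb : Primrec (fun x : ℕ × ℕ × ℕ => bits (2 ^ (x.1 + 1)) (x.2.1 / m0) (x.2.2 / m0)) := by
      unfold bits
      exact (hq (Primrec.nat_mod.comp h1 (Primrec.const 2)) (Primrec.const 1)).pair
        ((hq h1 (Primrec.const 1)).pair
        ((hq (Primrec.nat_mod.comp h2 (Primrec.const 2)) (Primrec.const 1)).pair
        ((hq h2 (Primrec.const 1)).pair
        (hq h2 (Primrec.nat_mod.comp (Primrec.succ.comp h1) (hpow.comp Primrec.fst))))))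
    exact Primrec.nat_add.comp (Primrec.nat_mul.comp h1 (Primrec.const m0))
      (hH.comp ((hf.comp (Primrec.fst.comp Primrec.snd)).pair
        ((hf.comp (Primrec.snd.comp Primrec.snd)).pair hb)))
  · intro k x x' hx
    rw [hlt, dc]
    exact (hlt _ _).1 hx
  · intro k x' x y h
    have h1 := congrArg dec h
    simp only [dc] at h1
    have h2 : (dec x).1 = (dec y).1 := by
      have := congrArg Prod.fst h1
      exact this
    have h3 := congrArg Prod.snd h1
    simp only [loc, h2] at h3
    rw [← cd x, ← cd y, Prod.ext h2 (core_inj E _ _ _ h3)]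
  · intro hc
    apply hnc
    refine hc.of_eq fun n => ?_
    constructor
    · rintro ⟨k, hk, h⟩
      refine halts_of_per M p0 j0 hE hsg hrel he _ ⟨k, hk, fun c hc => ?_⟩
      have h1 := h (cod ∘ c) (fun i => by rw [hlt]; simpa only [Function.comp, dc] using hc i)
      rw [← glob_conj (loc E (MIni p0 j0) (2 ^ (Nf n + 1))) _ cod (fun a b => by simp only [dc])] at h1
      funext i
      have := congrArg dec (congrFun h1 i)
      simpa only [Function.comp, dc] using this
    · intro h
      obtain ⟨k, hk, h⟩ := per_of_halts M p0 j0 hE hsg hrel he _ h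
      refine ⟨k, hk, fun c hc => ?_⟩
      have h1 := h (dec ∘ c) (fun i => (hlt _ _).1 (hc i))
      have h2 := glob_conj (loc E (MIni p0 j0) (2 ^ (Nf n + 1)))
        (fun x x' => cod (loc E (MIni p0 j0) (2 ^ (Nf n + 1)) (dec x) (dec x'))) cod
        (fun a b => by rw [dc, dc]) (dec ∘ c) k
      have h3 : cod ∘ dec ∘ c = c := by
        funext i
        exact cd _
      rw [h1, h3] at h2
      exact h2.symm

section words

variable {S : Type} (rho : S → Equiv.Perm S)

/-- products of states -/
def gw (w : List S) : List S → List S := w.foldr (fun x h => resetAct id rho x ∘ h) id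

theorem act_length (x : S) (u : List S) : (resetAct id rho x u).length = u.length := by
  induction u generalizing x with
  | nil => rfl
  | cons a u ih => simp [resetAct, ih]

theorem act_take (x : S) (u : List S) (k : ℕ) :
    (resetAct id rho x u).take k = resetAct id rho x (u.take k) := by
  induction u generalizing x k with
  | nil => simp [resetAct]
  | cons a u ih => cases k <;> simp [resetAct, ih]

theorem act_inj (x : S) : Function.Injective (resetAct id rho x) := by
  intro u v h
  induction u generalizing x v with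
  | nil => cases v with
    | nil => rfl
    | cons b v => simp [resetAct] at h
  | cons a u ih => cases v with
    | nil => simp [resetAct] at h
    | cons b v =>
      simp only [resetAct, List.cons.injEq, EmbeddingLike.apply_eq_iff_eq] at h
      obtain ⟨rfl, h⟩ := h
      rw [ih _ h]

theorem act_surj (x : S) : Function.Surjective (resetAct id rho x) := by
  intro v
  induction v generalizing x with
  | nil => exact ⟨[], rfl⟩
  | cons b v ih =>
    obtain ⟨u, hu⟩ := ih ((rho x).symm b)
    exact ⟨(rho x).symm b :: u, by simp [resetAct, hu]⟩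

theorem act_getD (d x : S) (u : List S) (k : ℕ) (hk : k + 1 < u.length) :
    (resetAct id rho x u).getD (k + 1) d = rho (u.getD k d) (u.getD (k + 1) d) := by
  induction u generalizing x k with
  | nil => simp at hk
  | cons a u ih =>
    cases k with
    | zero =>
      cases u with
      | nil => simp at hk
      | cons b u => rfl
    | succ k => exact ih a k (by simpa using hk)

theorem gw_length (w u : List S) : (gw rho w u).length = u.length := by
  induction w with
  | nil => rfl
  | cons x w ih => exact (act_length rho x _).trans ih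

theorem gw_take (w u : List S) (k : ℕ) : (gw rho w u).take k = gw rho w (u.take k) := by
  induction w with
  | nil => rfl
  | cons x w ih =>
    change (resetAct id rho x (gw rho w u)).take k = resetAct id rho x (gw rho w (u.take k))
    rw [act_take, ih]

theorem gw_append (v w : List S) (u : List S) : gw rho (v ++ w) u = gw rho v (gw rho w u) := by
  induction v with
  | nil => rfl
  | cons x v ih => exact congrArg (resetAct id rho x) ih

theorem gw_glob (d : S) (w u : List S) (i : ℕ) (hi : i < u.length) (c : ℕ → S)
    (hc : ∀ j ≤ i, c j = u.getD (i - j) d) (j : ℕ) (hj : j + w.length ≤ i) :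
    (gw rho w u).getD (i - j) d = (glob (fun a x => rho x a))^[w.length] c j := by
  induction w generalizing j with
  | nil => exact (hc j (by omega)).symm
  | cons x w ih =>
    rw [List.length_cons] at hj
    rw [List.length_cons, Function.iterate_succ_apply']
    change (resetAct id rho x (gw rho w u)).getD (i - j) d = rho _ _
    rw [← ih j (by omega), ← ih (j + 1) (by omega), show i - j = i - (j + 1) + 1 by omega,
      act_getD rho d x _ _ (by rw [gw_length]; omega)]

theorem finite_of_per [Finite S] (k : ℕ) (hk : 0 < k)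
    (h : ∀ c : ℕ → S, (glob (fun a x => rho x a))^[k] c = c) : (Set.range (gw rho)).Finite := by
  have h1 : ∀ w u : List S, w.length = k → (gw rho w u).drop k = u.drop k := by
    intro w u hw
    apply List.ext_getElem (by simp [gw_length])
    intro i h1 h2
    rw [List.length_drop] at h2
    have d : S := u[0]'(by omega)
    have := gw_glob rho d w u (k + i) (by omega) (fun j => u.getD (k + i - j) d) (fun _ _ => rfl) 0
      (by omega)
    rw [hw, h, Nat.sub_zero, List.getD_eq_getElem _ _ (by rw [gw_length]; omega),
      List.getD_eq_getElem _ _ (by omega)] at this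
    simpa using this
  have h2 : ∀ n, ∀ w : List S, w.length = n → ∃ w' : List S, w'.length ≤ k ∧
      ∀ u, (gw rho w u).drop k = (gw rho w' u).drop k := by
    intro n
    induction n using Nat.strong_induction_on with
    | _ n ih =>
      intro w hw
      by_cases hn : n ≤ k
      · exact ⟨w, by omega, fun _ => rfl⟩
      · obtain ⟨w', h3, h4⟩ := ih (n - k) (by omega) (w.drop k) (by simp [hw])
        refine ⟨w', h3, fun u => ?_⟩
        rw [← h4, ← h1 (w.take k) (gw rho (w.drop k) u) (by simp; omega), ← gw_append,
          List.take_append_drop]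
  have : Finite {u : List S // u.length ≤ k} := List.finite_length_le S k
  refine (Set.finite_range (fun z : {u : List S // u.length ≤ k} ×
      ({u : List S // u.length ≤ k} → {u : List S // u.length ≤ k}) =>
      fun u : List S => (z.2 ⟨u.take k, by simp⟩).1 ++ (gw rho z.1.1 u).drop k)).subset ?_
  rintro _ ⟨w, rfl⟩
  obtain ⟨w', h3, h4⟩ := h2 _ w rfl
  refine ⟨(⟨w', h3⟩, fun u => ⟨gw rho w u.1, by rw [gw_length]; exact u.2⟩), ?_⟩
  funext u
  simp only
  rw [← h4, ← gw_take, List.take_append_drop]

theorem gw_replicate (x : S) (k : ℕ) : gw rho (List.replicate k x) = (resetAct id rho x)^[k] := by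
  induction k with
  | zero => rfl
  | succ k ih =>
    rw [Function.iterate_succ', ← ih]
    rfl

theorem per_of_iter (x : S) (k : ℕ) (h : (resetAct id rho x)^[k] = id) (c : ℕ → S) :
    (glob (fun a x => rho x a))^[k] c = c := by
  funext i
  have hu : ∀ j ≤ i + k, c j = (List.ofFn (fun a : Fin (i + k + 1) => c (i + k - a))).getD
      (i + k - j) x := by
    intro j hj
    rw [List.getD_eq_getElem _ _ (by simp only [List.length_ofFn]; omega), List.getElem_ofFn]
    congr 1
    simp only
    omega
  have := gw_glob rho x (List.replicate k x) _ (i + k) (by simp) c hu i (by simp)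
  rw [gw_replicate, h, List.length_replicate] at this
  rw [← this, hu i (by omega)]
  rfl

theorem per_of_finite (x : S) (h : (Set.range (gw rho)).Finite) :
    ∃ k > 0, ∀ c : ℕ → S, (glob (fun a x => rho x a))^[k] c = c := by
  obtain ⟨a, b, hab, h1⟩ := Set.Finite.exists_lt_map_eq_of_forall_mem
    (f := fun k : ℕ => (resetAct id rho x)^[k]) (t := Set.range (gw rho))
    (fun k => ⟨_, gw_replicate rho x k⟩) h
  refine ⟨b - a, by omega, per_of_iter rho x _ ?_⟩
  funext u
  apply (act_inj rho x).iterate a
  rw [← Function.iterate_add_apply, show a + (b - a) = b by omega]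
  exact (congrFun h1 u).symm

theorem group_finite_iff : Finite (resetGroup id rho) ↔ (Set.range (gw rho)).Finite := by
  set P : S → Equiv.Perm (List S) := fun x => Equiv.ofBijective _ ⟨act_inj rho x, act_surj rho x⟩
    with hP
  have hw : ∀ w : List S, ⇑(w.map P).prod = gw rho w := by
    intro w
    induction w with
    | nil => rfl
    | cons x w ih =>
      rw [List.map_cons, List.prod_cons, Equiv.Perm.coe_mul, ih]
      rfl
  constructor
  · intro h
    have h1 : (resetGroup id rho : Set (Equiv.Perm (List S))).Finite := h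
    refine (h1.image (fun g : Equiv.Perm (List S) => ⇑g)).subset ?_
    rintro _ ⟨w, rfl⟩
    refine ⟨(w.map P).prod, ?_, hw w⟩
    apply Subgroup.list_prod_mem
    intro g hg
    obtain ⟨x, -, rfl⟩ := List.mem_map.1 hg
    exact Subgroup.subset_closure ⟨x, fun _ => rfl⟩
  · intro h
    have h1 : (Set.range (fun w : List S => (w.map P).prod)).Finite := by
      refine Set.Finite.of_finite_image (f := fun g : Equiv.Perm (List S) => ⇑g) (h.subset ?_)
        (fun _ _ _ _ e => DFunLike.coe_injective e)
      rintro _ ⟨_, ⟨w, rfl⟩, rfl⟩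
      exact ⟨w, (hw w).symm⟩
    have hmul : ∀ g ∈ Set.range (fun w : List S => (w.map P).prod),
        ∀ g' ∈ Set.range (fun w : List S => (w.map P).prod),
        g * g' ∈ Set.range (fun w : List S => (w.map P).prod) := by
      rintro _ ⟨w, rfl⟩ _ ⟨w', rfl⟩
      exact ⟨w ++ w', by simp⟩
    have hpow : ∀ g ∈ Set.range (fun w : List S => (w.map P).prod), ∀ k : ℕ,
        g ^ k ∈ Set.range (fun w : List S => (w.map P).prod) := by
      intro g hg k
      induction k with
      | zero => exact ⟨[], by simp⟩
      | succ k ih => rw [pow_succ]; exact hmul _ ih _ hg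
    refine h1.subset ?_
    intro g hg
    induction hg using Subgroup.closure_induction with
    | mem g hg =>
      obtain ⟨x, hx⟩ := hg
      refine ⟨[x], ?_⟩
      ext u : 1
      simp [hP, hx]
    | one => exact ⟨[], by simp⟩
    | mul g g' _ _ h1 h2 => exact hmul _ h1 _ h2
    | inv g _ h2 =>
      have h3 : IsOfFinOrder g := finite_powers.1 (h1.subset (by
        rintro _ ⟨k, rfl⟩
        exact hpow g h2 k))
      obtain ⟨k, hk⟩ := h3.mem_powers_iff_mem_zpowers.2 (Subgroup.inv_mem _ (Subgroup.mem_zpowers g))
      rw [← hk]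
      exact hpow g h2 k

end words

/-- A computable family of reset automata whose finiteness problem is undecidable. -/
theorem exists_family : ∃ (m : ℕ → ℕ) (rho : ∀ n, Fin (m n) → Equiv.Perm (Fin (m n))),
    Computable m ∧ Computable (fun n => (resetCode id (rho n)).2.2.2) ∧ (∀ n, 0 < m n) ∧
    ¬ ComputablePred (fun n => (Set.range (gw (rho n))).Finite) := by
  obtain ⟨m, f, N, hm, hf, hN, hpos, hlt, hinj, hnc⟩ := exists_ca
  refine ⟨fun n => m (N n), fun n x => Equiv.ofBijective
    (fun a => ⟨f (N n) a x, hlt _ _ _ a.2⟩) (Finite.injective_iff_bijective.1 fun a b h =>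
      Fin.ext (hinj (N n) x (congrArg Fin.val h))), hm.to_comp.comp hN, ?_, fun n => hpos _, ?_⟩
  · have h1 : Primrec (fun k => (List.range (m k)).map (fun x => (List.range (m k)).map
        (fun a => f k a x))) := by
      refine Primrec.list_map (Primrec.list_range.comp hm) ?_
      refine Primrec.list_map (Primrec.list_range.comp (hm.comp Primrec.fst)) ?_
      exact hf.comp ((Primrec.fst.comp Primrec.fst).pair (Primrec.snd.pair
        (Primrec.snd.comp Primrec.fst)))
    refine (h1.to_comp.comp hN).of_eq fun n => ?_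
    simp only [resetCode]
    apply List.ext_getElem (by simp)
    intro i _ _
    apply List.ext_getElem (by simp)
    intro j _ _
    simp
  · intro hc
    apply hnc
    refine hc.of_eq fun n => ?_
    have hcj := glob_conj (fun (a x : Fin (m (N n))) => (⟨f (N n) a x, hlt _ _ _ a.2⟩ : Fin (m (N n))))
      (f (N n)) Fin.val (fun a b => rfl)
    constructor
    · intro h
      obtain ⟨k, hk, h⟩ := per_of_finite _ ⟨0, hpos _⟩ h
      refine ⟨k, hk, fun c hc => ?_⟩
      have h1 := hcj (fun i => ⟨c i, hc i⟩) k
      have h2 := h (fun i => ⟨c i, hc i⟩)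
      simp only [Equiv.ofBijective_apply] at h2
      rw [h2] at h1
      exact h1.symm
    · rintro ⟨k, hk, h⟩
      refine finite_of_per _ k hk fun c => ?_
      have h1 := hcj c k
      rw [h (Fin.val ∘ c) (fun i => (c i).2)] at h1
      funext i
      exact Fin.ext (congrFun h1 i)

end H593Z.FinAut
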