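import Pool.Agent.H593Z.FinCyc

/-!
Existence of consistent parameters, periodicity of finite hierarchies and aperiodicity of infinite
hierarchies.
-/

set_option autoImplicit false

namespace H593Z.FinAut

open scoped Classical

variable {Sy : Type} [Finite Sy]

theorem cost_func (Rel : Sy → Sy → Sy → Prop) (N : ℕ) :
    cost (funcF Rel : Fm Sy N) ≤ (464 * Nat.card (Sy × Sy × Sy) + 400) * (N + 1) := by
  have h1 : ∀ k, cost (eqdF k : Fm Sy N) ≤ N * 26 := by
    intro k
    have := cost_xorAll (lst (Fin N)) (fun a => (.and (dgF k a) (.next (dgF k a)) : Fm Sy N)) 26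
      (fun a => le_rfl)
    rwa [length_lst, Nat.card_eq_fintype_card, Fintype.card_fin] at this
  have h2 : cost (relF Rel : Fm Sy N) ≤ Nat.card (Sy × Sy × Sy) * 58 := by
    have := cost_xorAll (lst (Sy × Sy × Sy)) (fun t => (if Rel t.1 t.2.1 t.2.2 then
      .and (stF t.1) (.and (.nb (.st t.2.1)) (.next (stF t.2.2))) else .zero : Fm Sy N)) 58
      (fun a => by
        split_ifs
        · exact le_rfl
        · exact Nat.zero_le _)
    rwa [length_lst] at this
  have h3 : cost (funcF Rel : Fm Sy N) = 2 * cost (eqdF 0 : Fm Sy N) + 2 * (2 * cost (eqdF 1 : Fm Sy N) +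
    2 * (2 * cost (eqdF 2 : Fm Sy N) + 2 * cost (relF Rel : Fm Sy N) + 4) + 4) + 4 := rfl
  have a0 := h1 0
  have a1 := h1 1
  have a2 := h1 2
  rw [h3]
  nlinarith [Nat.zero_le (Nat.card (Sy × Sy × Sy) * N)]

theorem cost_beta (Rel : Sy → Sy → Sy → Prop) : ∃ C : ℕ, ∀ (N : ℕ)
    (code : Kind Sy N → Fin N × Fin N) (i : Kind Sy N), cost (betaF Rel code i) ≤ C * (N + 1) := by
  obtain ⟨c, hc⟩ : ∃ c : ℕ, ∀ N, cost (funcF Rel : Fm Sy N) ≤ c * (N + 1) := ⟨_, cost_func Rel⟩
  refine ⟨4 * c + 16 * (Nat.card (Lit Sy) * (8 * c + 50)) + 86, fun N code i => ?_⟩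
  have h1 : cost (condF Rel : Fm Sy N) ≤ Nat.card (Lit Sy) * ((8 * c + 50) * (N + 1)) := by
    have := cost_xorAll (lst (Lit Sy)) (fun l => (.and (.own (.inl (.lt l)))
      (if l = .one then .own (.inl .tt) else .and (.next (funcF Rel)) (.nb l)) : Fm Sy N))
      ((8 * c + 50) * (N + 1)) (fun a => by
        have := hc N
        split_ifs
        · simp only [cost]
          nlinarith [Nat.zero_le (c * N)]
        · simp only [cost]
          nlinarith)
    rwa [length_lst] at this
  have h3 : cost (betaF Rel code i) = 2 * 1 + 2 * (2 * cost (funcF Rel : Fm Sy N) + 2 * (2 * 1 + 2 *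
    (2 * 1 + 2 * cost (condF Rel : Fm Sy N) + 4) + 4) + 4) + 4 := rfl
  have := hc N
  rw [h3]
  nlinarith

theorem length_flatMap_le {α β : Type} (l : List α) (f : α → List β) (c : ℕ)
    (h : ∀ a, (f a).length ≤ c) : (l.flatMap f).length ≤ l.length * c := by
  induction l with
  | nil => simp
  | cons a l ih =>
    rw [List.flatMap_cons, List.length_append, List.length_cons, Nat.succ_mul]
    have := h a
    omega

/-- Consistent parameters exist. -/
theorem exists_env (sg : Sy → Bool) (Rel : Sy → Sy → Sy → Prop)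
    (hrel : ∀ a b c, Rel a b c → sg c = !sg a) :
    ∃ (N T : ℕ) (E : Env Sy N T), E.sg = sg ∧ E.Rel = Rel ∧ E.Good := by
  obtain ⟨c, hc⟩ := cost_beta Rel
  obtain ⟨C, hC1, hC2⟩ : ∃ C : ℕ, c ≤ C ∧ Nat.card (K0 Sy) + 15 ≤ C :=
    ⟨c + (Nat.card (K0 Sy) + 15), by omega, by omega⟩
  obtain ⟨N, hN⟩ : ∃ N : ℕ, N = 8 * C ^ 2 + 4 * C + 2 := ⟨_, rfl⟩
  have hN2 : 2 ≤ N := by omega
  have hK : Nat.card (Kind Sy N) ≤ C * (N + 1) := by
    rw [Nat.card_sum, Nat.card_prod, Nat.card_prod]
    simp only [Nat.card_eq_fintype_card (α := Fin _), Fintype.card_fin]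
    nlinarith [Nat.zero_le (Nat.card (K0 Sy) * N)]
  have hT : 2 ≤ N ^ 3 := by nlinarith [Nat.zero_le (N ^ 2), pow_succ N 2, pow_two N]
  have : NeZero (N ^ 3) := ⟨by omega⟩
  have hdig : Nonempty (ZMod (N ^ 3) ↪ (Fin 3 → Fin N)) := by
    apply Function.Embedding.nonempty_of_card_le
    simp
  have hcode : Nonempty (Kind Sy N ↪ Fin N × Fin N) := by
    have := Fintype.ofFinite (Kind Sy N)
    apply Function.Embedding.nonempty_of_card_le
    rw [← Nat.card_eq_fintype_card]
    simp only [Fintype.card_prod, Fintype.card_fin]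
    nlinarith
  obtain ⟨dig⟩ := hdig
  obtain ⟨code⟩ := hcode
  refine ⟨N, N ^ 3, ⟨sg, Rel, dig, code, fun c => (prog Rel code).getD c.val nopI⟩, rfl, rfl,
    dig.injective, code.injective, hrel, ?_, fun _ => rfl, hT⟩
  change (prog Rel code).length ≤ N ^ 3
  unfold prog
  have h1 := length_flatMap_le (lst (Kind Sy N)) (mini Rel code) (2 * (C * (N + 1)) + 2) (fun i => by
    have h1 := hc N code i
    have h2 : c * (N + 1) ≤ C * (N + 1) := Nat.mul_le_mul_right _ hC1
    simp only [mini, List.length_cons, List.length_append, length_comp]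
    omega)
  rw [length_lst] at h1
  rw [List.length_append]
  have h2 : Nat.card (Kind Sy N) * (2 * (C * (N + 1)) + 2) ≤
      (C * (N + 1)) * (2 * (C * (N + 1)) + 2) := Nat.mul_le_mul_right _ hK
  have h3 : C * (N + 1) ≤ 2 * C * N := by nlinarith
  have h4 : (C * (N + 1)) * (2 * (C * (N + 1)) + 2) ≤ (2 * C * N) * (2 * (2 * C * N) + 2 * N) :=
    Nat.mul_le_mul h3 (by omega)
  have h5 : N ^ 3 = (8 * C ^ 2 + 4 * C + 2) * N ^ 2 := by rw [← hN]; ring
  simp only [List.length_cons, List.length_nil]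
  nlinarith

variable {N T : ℕ} {ι : Type}

/-- restriction to one phase -/
def Gr.res (G : Gr ι) (clk : ι → ZMod T) (p : ZMod T) : Gr ι where
  act v := G.act v ∧ clk v = p
  lnk v := G.lnk v ∧ clk v = p
  nx := G.nx
  typ := G.typ

theorem Gr.res_wf {G : Gr ι} (hG : G.WF) {clk : ι → ZMod T}
    (hc : ∀ v, G.lnk v → clk (G.nx v) = clk v) (p : ZMod T) : (G.res clk p).WF := by
  rintro v ⟨h1, h2⟩
  exact ⟨⟨(hG v h1).1, h2⟩, ⟨(hG v h1).2.1, (hc v h1).trans h2⟩, (hG v h1).2.2⟩

/-- windows of the data of the controlling cells satisfy a property -/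
def Base (Mt : (ℕ → Sy) → ℕ → Prop) (G : Gr ι) (s : ι → Sy) : Prop :=
  ∀ v l, G.typ v = false → (∀ i ≤ 2 * l, G.lnk (G.nx^[i] v)) → Mt (fun a => s (G.nx^[2 * a + 1] v)) l

namespace Env

variable {E : Env Sy N T}

omit [Finite Sy] in
theorem run_res {G : Gr ι} {clk : ι → ZMod T}
    (hc : ∀ v, G.lnk v → clk (G.nx v) = clk v) (p : ZMod T) (y : ι → A Sy T) (n : ℕ) (v : ι)
    (hv : clk v = p) : E.run G clk y n v = E.run (G.res clk p) (fun _ => p) y n v := by
  induction n generalizing v with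
  | zero => rfl
  | succ n ih =>
    change E.ap G _ _ v = E.ap _ _ _ v
    unfold ap
    beta_reduce
    rw [ih v hv, hv]
    have : (G.act v ∧ G.typ v = (E.tab (p + (n : ZMod T))).who ∧
        E.cond G (E.tab (p + (n : ZMod T))).lit (E.run G clk y n) v) ↔
        ((G.res clk p).act v ∧ (G.res clk p).typ v = (E.tab (p + (n : ZMod T))).who ∧
        E.cond (G.res clk p) (E.tab (p + (n : ZMod T))).lit
          (E.run (G.res clk p) (fun _ => p) y n) v) := by
      unfold cond
      simp only [Gr.res, hv, and_true]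
      refine and_congr Iff.rfl (and_congr Iff.rfl (or_congr Iff.rfl (and_congr_right fun hl => ?_)))
      rw [ih _ ((hc v hl).trans hv)]
      rfl
    simp only [this]

theorem red (hE : E.Good) {G : Gr ι} (hG : G.WF) {clk : ι → ZMod T}
    (hc : ∀ v, G.lnk v → clk (G.nx v) = clk v) (s : ι → Sy) (m : ℕ) (hm : T ∣ m)
    (h : ∀ (p : ZMod T) (y : ι → A Sy T), (∀ v, (y v).s = s v) →
      E.run (E.up (G.res clk p) y) (upc (G.res clk p) y) y m = y)
    (y : ι → A Sy T) (hy : ∀ v, (y v).s = s v) : E.run G clk y (T * m) = y := by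
  have : NeZero T := ⟨by have := hE.hT; omega⟩
  funext v
  rw [run_res hc (clk v) y _ v rfl]
  generalize clk v = p
  have hw := Gr.res_wf hG hc p
  have h0 : ∀ y : ι → A Sy T, (∀ v, (y v).s = s v) →
      E.run (G.res clk p) (fun _ => 0) y (T * m) = y := by
    intro y hy
    funext v
    rw [run_cyc hE hw, h p y hy]
    split_ifs
    · unfold A.tk
      rw [(ZMod.natCast_eq_zero_iff m T).2 hm, add_zero]
    · rfl
  suffices E.run (G.res clk p) (fun _ => p) y (T * m) = y by rw [this]
  apply E.run_inj _ hw (fun _ => p) (fun _ _ => rfl) (-p).val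
  have e1 := E.run_add (G.res clk p) (fun _ => p) y (T * m) (-p).val
  have e2 := E.run_add (G.res clk p) (fun _ => p) y (-p).val (T * m)
  have e3 : (fun _ : ι => p + ((T * m : ℕ) : ZMod T)) = fun _ => p := by
    funext v
    simp
  have e4 : (fun _ : ι => p + (((-p).val : ℕ) : ZMod T)) = fun _ => 0 := by
    funext v
    simp
  rw [e3] at e1
  rw [e4, h0 _ (fun v => by rw [run_s, hy])] at e2
  rw [← e1, ← e2, add_comm]

variable (E)

/-- passage of the property of windows to the next row -/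
def Step (Mt Mt' : (ℕ → Sy) → ℕ → Prop) : Prop :=
  ∀ (d p : ℕ → Sy) (l : ℕ), Mt d (2 * l + 2) → E.sg (d 0) = false →
    (∀ a ≤ 2 * l + 1, E.Rel (d a) (p a) (d (a + 1))) → Mt' (fun b => p (2 * b)) l

variable {E}

omit [Finite Sy] in
theorem base_up {Mt Mt' : (ℕ → Sy) → ℕ → Prop} (h : E.Step Mt Mt') {G : Gr ι} {s : ι → Sy}
    (hb : Base Mt G s) (y : ι → A Sy T) (hy : ∀ v, (y v).s = s v) : Base Mt' (E.up G y) s := by
  intro v l ht hl
  have hn : ∀ i, (E.up G y).nx^[i] v = G.nx^[2 * i] v := by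
    intro i
    rw [Function.iterate_mul]
    rfl
  have hA : ∀ i ≤ 2 * l + 1, E.upA G y (G.nx^[2 * i] v) := by
    intro i hi
    rcases i with _ | i
    · exact (hl 0 (by omega)).1
    · have := (hl i (by omega)).2
      rw [hn] at this
      rwa [show 2 * (i + 1) = 2 * i + 1 + 1 by ring, Function.iterate_succ_apply',
        Function.iterate_succ_apply']
  have hL : ∀ i ≤ 2 * (2 * l + 2), G.lnk (G.nx^[i] v) := by
    intro i hi
    rcases Nat.even_or_odd' i with ⟨k, rfl | rfl⟩
    · rcases k with _ | k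
      · exact (hA 0 (by omega)).2.1
      · have := (hA k (by omega)).2.2.1.2
        rwa [show 2 * (k + 1) = 2 * k + 1 + 1 by ring, Function.iterate_succ_apply',
          Function.iterate_succ_apply']
    · have := (hA k (by omega)).2.2.1.1
      rwa [Function.iterate_succ_apply']
  have h1 := h (fun a => s (G.nx^[2 * a + 1] v)) (fun a => s (G.nx^[2 * a + 2] v)) l
    (hb v _ (hA 0 (by omega)).1 hL) (by rw [← ht, ← hy]; rfl) (fun a ha => by
      have := (hA a ha).2.2.2.2
      rw [hy, hy, hy] at this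
      simpa only [show 2 * (a + 1) + 1 = 2 * a + 1 + 1 + 1 by ring, Function.iterate_succ_apply']
        using this)
  simp only [hn]
  exact h1

/-- Finite hierarchies are periodic. -/
theorem periodic (hE : E.Good) (Mt : ℕ → (ℕ → Sy) → ℕ → Prop)
    (hM : ∀ j, E.Step (Mt j) (Mt (j + 1))) (k : ℕ) : ∀ (j : ℕ), (∀ d l, ¬ Mt (j + k) d l) →
    ∀ (G : Gr ι) (clk : ι → ZMod T) (s : ι → Sy), G.WF → (∀ v, G.lnk v → clk (G.nx v) = clk v) →
    Base (Mt j) G s → ∀ y : ι → A Sy T, (∀ v, (y v).s = s v) →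
    E.run G clk y (T * T ^ (k + 1)) = y := by
  induction k with
  | zero =>
    intro j hj G clk s hG hc hb y hy
    refine red hE hG hc s _ (by simp) (fun p z hz => ?_) y hy
    funext v
    apply run_inact
    rintro ⟨h1, h2, -⟩
    refine hj _ 0 (hb v 0 h1 ?_)
    intro i hi
    obtain rfl : i = 0 := by omega
    exact h2.1
  | succ k ih =>
    intro j hj G clk s hG hc hb y hy
    refine red hE hG hc s _ (Dvd.intro _ (pow_succ' T (k + 1)).symm) (fun p z hz => ?_) y hy
    rw [pow_succ']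
    refine ih (j + 1) (by rwa [add_right_comm, add_assoc]) _ _ s (up_wf hE z) (up_ck z) ?_ z hz
    refine base_up (G := G.res clk p) (hM j) (fun v l h1 h2 => hb v l h1 (fun i hi => (h2 i hi).1)) z hz

variable (E)

/-- the hierarchy -/
def tower (G : Gr ι) (y : ι → A Sy T) : ℕ → Gr ι
  | 0 => G
  | j + 1 => E.up (tower G y j) y

variable {E}

/-- Infinite hierarchies are not periodic. -/
theorem aperiodic (hE : E.Good) {G : Gr ι} (hG : G.WF) (y : ι → A Sy T) (hy : ∀ v, (y v).b = 0)
    (hw : ∀ j, ∃ w, (E.tower G y j).act w ∧ (E.tower G y j).typ w = true) (m : ℕ)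
    (h : E.run G (fun _ => 0) y (T * m) = y) : m = 0 := by
  have hwf : ∀ j, (E.tower G y j).WF := by
    intro j
    cases j with
    | zero => exact hG
    | succ j => exact up_wf hE y
  have key : ∀ k j m, E.run (E.tower G y j) (fun _ => 0) y (T * m) = y → T ^ k ∣ m := by
    intro k
    induction k with
    | zero => intro j m _; simp
    | succ k ih =>
      intro j m h
      obtain ⟨w, hw⟩ := hw j
      have h1 := congrArg (fun z => (z w).b) h
      simp only [run_cyc hE (hwf j), if_pos hw, A.tk, add_eq_left] at h1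
      obtain ⟨m', rfl⟩ := (ZMod.natCast_eq_zero_iff m T).1 h1
      rw [pow_succ']
      refine Nat.mul_dvd_mul_left _ (ih (j + 1) m' ?_)
      funext v
      have h2 := congrFun h v
      rw [run_cyc hE (hwf j)] at h2
      split_ifs at h2 with hv
      · apply run_inact
        rintro ⟨h3, -⟩
        rw [hv.2] at h3
        exact absurd h3 (by decide)
      · rw [← h2]
        congr 1
        funext u
        exact (hy _).symm
  by_contra hm
  have h1 := Nat.le_of_dvd (Nat.pos_of_ne_zero hm) (key m 0 m h)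
  have h2 : m < T ^ m := Nat.lt_pow_self (by have := hE.hT; omega)
  omega

end Env

end H593Z.FinAut
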