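import Pool.Agent.H593Z.SimTower

set_option autoImplicit false

namespace H593Z.Sim

@[ext] structure Heis where
  a : ℤ
  b : ℤ
  c : ℤ

namespace Heis

instance : Mul Heis := ⟨fun u v => ⟨u.a + v.a, u.b + v.b, u.c + v.c + u.a * v.b⟩⟩
instance : One Heis := ⟨⟨0, 0, 0⟩⟩
instance : Inv Heis := ⟨fun u => ⟨-u.a, -u.b, -u.c + u.a * u.b⟩⟩

@[simp] theorem mul_a (u v : Heis) : (u * v).a = u.a + v.a := rfl
@[simp] theorem mul_b (u v : Heis) : (u * v).b = u.b + v.b := rfl
@[simp] theorem mul_c (u v : Heis) : (u * v).c = u.c + v.c + u.a * v.b := rfl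
@[simp] theorem one_a : (1 : Heis).a = 0 := rfl
@[simp] theorem one_b : (1 : Heis).b = 0 := rfl
@[simp] theorem one_c : (1 : Heis).c = 0 := rfl
@[simp] theorem inv_a (u : Heis) : (u⁻¹).a = -u.a := rfl
@[simp] theorem inv_b (u : Heis) : (u⁻¹).b = -u.b := rfl
@[simp] theorem inv_c (u : Heis) : (u⁻¹).c = -u.c + u.a * u.b := rfl

instance : Group Heis := Group.ofLeftAxioms
  (fun u v w => by ext <;> simp <;> ring)
  (fun u => by ext <;> simp)
  (fun u => by ext <;> simp)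

def dil (m : ℤ) (h : Heis) : Heis := ⟨m * h.a, m * h.b, m ^ 2 * h.c⟩

theorem dil_mul (m : ℤ) (h k : Heis) : dil m (h * k) = dil m h * dil m k := by
  ext <;> simp [dil] <;> ring

def dig (m : ℤ) (u : Heis) : Heis :=
  ⟨u.a % m, u.b % m, (u.c - u.a % m * (m * (u.b / m))) % m ^ 2⟩

def tail (m : ℤ) (u : Heis) : Heis :=
  ⟨u.a / m, u.b / m, (u.c - u.a % m * (m * (u.b / m))) / m ^ 2⟩

theorem dig_tail (m : ℤ) (u : Heis) : dig m u * dil m (tail m u) = u := by
  ext
  · exact Int.emod_add_mul_ediv _ _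
  · exact Int.emod_add_mul_ediv _ _
  · have := Int.emod_add_mul_ediv (u.c - u.a % m * (m * (u.b / m))) (m ^ 2)
    simp only [mul_c, dig, dil, tail]
    linarith

def Box (m : ℤ) (u : Heis) : Prop :=
  0 ≤ u.a ∧ u.a < m ∧ 0 ≤ u.b ∧ u.b < m ∧ 0 ≤ u.c ∧ u.c < m ^ 2

theorem box_dig {m : ℤ} (hm : 0 < m) (u : Heis) : Box m (dig m u) :=
  ⟨Int.emod_nonneg _ hm.ne', Int.emod_lt_of_pos _ hm, Int.emod_nonneg _ hm.ne',
    Int.emod_lt_of_pos _ hm, Int.emod_nonneg _ (pow_pos hm 2).ne',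
    Int.emod_lt_of_pos _ (pow_pos hm 2)⟩

theorem uniq {m : ℤ} (hm : 0 < m) {t : Heis} (ht : Box m t) (h : Heis) :
    dig m (t * dil m h) = t ∧ tail m (t * dil m h) = h := by
  obtain ⟨h1, h2, h3, h4, h5, h6⟩ := ht
  have a1 : (t.a + m * h.a) % m = t.a := by
    rw [Int.add_mul_emod_self_left, Int.emod_eq_of_lt h1 h2]
  have a2 : (t.a + m * h.a) / m = h.a := by
    rw [Int.add_mul_ediv_left _ _ hm.ne', Int.ediv_eq_zero_of_lt h1 h2, zero_add]
  have b1 : (t.b + m * h.b) % m = t.b := by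
    rw [Int.add_mul_emod_self_left, Int.emod_eq_of_lt h3 h4]
  have b2 : (t.b + m * h.b) / m = h.b := by
    rw [Int.add_mul_ediv_left _ _ hm.ne', Int.ediv_eq_zero_of_lt h3 h4, zero_add]
  have c0 : t.c + m ^ 2 * h.c + t.a * (m * h.b) - t.a * (m * h.b) = t.c + m ^ 2 * h.c := by ring
  have c1 : (t.c + m ^ 2 * h.c) % m ^ 2 = t.c := by
    rw [Int.add_mul_emod_self_left, Int.emod_eq_of_lt h5 h6]
  have c2 : (t.c + m ^ 2 * h.c) / m ^ 2 = h.c := by
    rw [Int.add_mul_ediv_left _ _ (pow_pos hm 2).ne', Int.ediv_eq_zero_of_lt h5 h6, zero_add]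
  constructor
  · ext
    · exact a1
    · exact b1
    · simp only [dig, dil, mul_a, mul_b, mul_c]
      rw [a1, b2, c0, c1]
  · ext
    · exact a2
    · exact b2
    · simp only [tail, dil, mul_a, mul_b, mul_c]
      rw [a1, b2, c0, c2]

theorem cocycle {m : ℤ} (hm : 0 < m) (g u : Heis) :
    dig m (g * u) = dig m (g * dig m u) ∧
      tail m (g * u) = tail m (g * dig m u) * tail m u := by
  have h : g * u = dig m (g * dig m u) * dil m (tail m (g * dig m u) * tail m u) := by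
    rw [dil_mul, ← mul_assoc, dig_tail, mul_assoc, dig_tail]
  have := uniq hm (box_dig hm (g * dig m u)) (tail m (g * dig m u) * tail m u)
  rw [← h] at this
  exact this

theorem box_self {m : ℤ} (hm : 0 < m) {t : Heis} (ht : Box m t) : dig m t = t ∧ tail m t = 1 := by
  have := uniq hm ht 1
  have h1 : t * dil m 1 = t := by ext <;> simp [dil]
  rwa [h1] at this

def mm (R : ℕ) : ℤ := 7 * (R + 1)

theorem mm_pos (R : ℕ) : 0 < mm R := by unfold mm; positivity

def Dig (R : ℕ) : Type := {u : Heis // Box (mm R) u}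

instance (R : ℕ) : MulAction Heis (Dig R) where
  smul g t := ⟨dig (mm R) (g * t.1), box_dig (mm_pos R) _⟩
  one_smul t := Subtype.ext (by
    show dig (mm R) (1 * t.1) = t.1
    rw [one_mul]; exact (box_self (mm_pos R) t.2).1)
  mul_smul g h t := Subtype.ext (by
    show dig (mm R) (g * h * t.1) = dig (mm R) (g * dig (mm R) (h * t.1))
    rw [mul_assoc]; exact (cocycle (mm_pos R) g _).1)

theorem finite_bdd (K : ℤ) (P : Heis → Prop)
    (h : ∀ u, P u → |u.a| ≤ K ∧ |u.b| ≤ K ∧ |u.c| ≤ K) : Finite {u // P u} := by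
  let f : {u // P u} → Set.Icc (-K) K × Set.Icc (-K) K × Set.Icc (-K) K :=
    fun u => (⟨u.1.a, abs_le.1 (h _ u.2).1⟩, ⟨u.1.b, abs_le.1 (h _ u.2).2.1⟩,
      ⟨u.1.c, abs_le.1 (h _ u.2).2.2⟩)
  apply Finite.of_injective f
  intro u v huv
  apply Subtype.ext
  ext
  · exact congrArg (fun p => p.1.1) huv
  · exact congrArg (fun p => p.2.1.1) huv
  · exact congrArg (fun p => p.2.2.1) huv

instance (R : ℕ) : Finite (Dig R) := by
  apply finite_bdd ((mm R) ^ 2 + mm R)
  rintro u ⟨h1, h2, h3, h4, h5, h6⟩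
  have := mm_pos R
  have h7 : 0 < (mm R) ^ 2 := by positivity
  refine ⟨?_, ?_, ?_⟩ <;> rw [abs_le] <;> constructor <;> linarith

@[ext] structure Col where
  x : ZMod 7
  y : ZMod 7
  z : ZMod 7

instance : Finite Col := by
  apply Finite.of_injective (fun p : Col => (p.x, p.y, p.z))
  intro p q h
  ext
  · exact congrArg (fun p => p.1) h
  · exact congrArg (fun p => p.2.1) h
  · exact congrArg (fun p => p.2.2) h

def cact (g : Heis) (p : Col) : Col := ⟨g.a + p.x, g.b + p.y, g.c + p.z + g.a * p.y⟩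

instance : MulAction Heis Col where
  smul := cact
  one_smul p := by
    show cact 1 p = p
    ext <;> simp [cact]
  mul_smul g h p := by
    show cact (g * h) p = cact g (cact h p)
    ext <;> simp [cact] <;> ring

def colH (u : Heis) : Col := ⟨u.a, u.b, u.c⟩

theorem colH_mul (g u : Heis) : colH (g * u) = g • colH u := by
  show _ = cact g _
  ext <;> simp [cact, colH]

theorem colH_dil (R : ℕ) (u h : Heis) : colH (u * dil (mm R) h) = colH u := by
  have h7 : ((mm R : ℤ) : ZMod 7) = 0 := by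
    unfold mm
    push_cast
    rw [show (7 : ZMod 7) = 0 from rfl, zero_mul]
  ext <;> simp [colH, dil, h7]

def Bl (l : ℕ) (g : Heis) : Prop := |g.a| ≤ l ∧ |g.b| ≤ l ∧ |2 * g.c - g.a * g.b| ≤ 5 * l ^ 2

theorem bl_mul (l l' : ℕ) (g g' : Heis) (h : Bl l g) (h' : Bl l' g') : Bl (l + l') (g * g') := by
  obtain ⟨h1, h2, h3⟩ := h
  obtain ⟨k1, k2, k3⟩ := h'
  have e1 : |g.a * g'.b| ≤ l * l' := by
    rw [abs_mul]; exact mul_le_mul h1 k2 (abs_nonneg _) (Nat.cast_nonneg _)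
  have e2 : |g'.a * g.b| ≤ l' * l := by
    rw [abs_mul]; exact mul_le_mul k1 h2 (abs_nonneg _) (Nat.cast_nonneg _)
  have e3 : (0 : ℤ) ≤ l * l' := by positivity
  rw [abs_le] at h1 h2 h3 k1 k2 k3 e1 e2
  refine ⟨?_, ?_, ?_⟩ <;> simp only [mul_a, mul_b, mul_c] <;> push_cast <;> rw [abs_le] <;>
    constructor <;> nlinarith

theorem bl_one_bound {g : Heis} (h : Bl 1 g) : |g.a| ≤ 1 ∧ |g.b| ≤ 1 ∧ |g.c| ≤ 3 := by
  obtain ⟨h1, h2, h3⟩ := h
  have e1 : |g.a * g.b| ≤ 1 * 1 := by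
    rw [abs_mul]; exact mul_le_mul (by exact_mod_cast h1) (by exact_mod_cast h2)
      (abs_nonneg _) (by norm_num)
  refine ⟨by exact_mod_cast h1, by exact_mod_cast h2, ?_⟩
  rw [abs_le] at h3 e1 ⊢
  push_cast at h3
  constructor <;> omega

instance : Finite {g // Bl 1 g} := by
  apply finite_bdd 3
  intro u hu
  obtain ⟨h1, h2, h3⟩ := bl_one_bound hu
  exact ⟨by linarith, by linarith, h3⟩

theorem free (n n' : Heis) (p : Col) (h : Bl 1 n) (h' : Bl 1 n') (e : n • p = n' • p) :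
    n = n' := by
  obtain ⟨h1, h2, h3⟩ := bl_one_bound h
  obtain ⟨k1, k2, k3⟩ := bl_one_bound h'
  rw [abs_le] at h1 h2 h3 k1 k2 k3
  have key : ∀ s t : ℤ, (s : ZMod 7) = (t : ZMod 7) → -3 ≤ s → s ≤ 3 → -3 ≤ t → t ≤ 3 → s = t := by
    intro s t hst _ _ _ _
    have := (ZMod.intCast_eq_intCast_iff_dvd_sub s t 7).1 hst
    omega
  have e1 : (n.a : ZMod 7) + p.x = n'.a + p.x := congrArg Col.x e
  have e2 : (n.b : ZMod 7) + p.y = n'.b + p.y := congrArg Col.y e
  have e3 : (n.c : ZMod 7) + p.z + n.a * p.y = n'.c + p.z + n'.a * p.y := congrArg Col.z e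
  have f1 := key _ _ (add_right_cancel e1) (by omega) (by omega) (by omega) (by omega)
  have f2 := key _ _ (add_right_cancel e2) (by omega) (by omega) (by omega) (by omega)
  rw [f1] at e3
  have f3 := key _ _ (add_right_cancel (add_right_cancel e3)) h3.1 h3.2 k3.1 k3.2
  ext <;> assumption

theorem ediv_range {x m lo hi : ℤ} (hm : 0 < m) (h1 : lo * m ≤ x) (h2 : x < (hi + 1) * m) :
    lo ≤ x / m ∧ x / m ≤ hi :=
  ⟨(Int.le_ediv_iff_mul_le hm).2 h1, Int.lt_add_one_iff.1 ((Int.ediv_lt_iff_lt_mul hm).2 h2)⟩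

theorem contr (R : ℕ) (g t : Heis) (hg : Bl R g) (ht : Box (mm R) t) :
    Bl 1 (tail (mm R) (g * t)) := by
  obtain ⟨h1, h2, h3⟩ := hg
  obtain ⟨t1, t2, t3, t4, t5, t6⟩ := ht
  have hm := mm_pos R
  have hR : (0 : ℤ) ≤ R := Nat.cast_nonneg R
  have hmR : mm R = 7 * (R + 1) := rfl
  have e1 : |g.a * g.b| ≤ R * R := by
    rw [abs_mul]; exact mul_le_mul h1 h2 (abs_nonneg _) hR
  have e2 : |g.a * t.b| ≤ R * mm R := by
    rw [abs_mul]
    exact mul_le_mul h1 (by rw [abs_of_nonneg t3]; exact t4.le) (abs_nonneg _) hR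
  rw [abs_le] at h1 h2 h3 e1 e2
  have a1 := ediv_range (x := g.a + t.a) (lo := -1) (hi := 1) hm (by linarith) (by linarith)
  have b1 := ediv_range (x := g.b + t.b) (lo := -1) (hi := 1) hm (by linarith) (by linarith)
  have r1 := Int.emod_nonneg (g.a + t.a) hm.ne'
  have r2 := Int.emod_lt_of_pos (g.a + t.a) hm
  have e3 : |(g.a + t.a) % mm R * (mm R * ((g.b + t.b) / mm R))| ≤ mm R * (mm R * 1) := by
    rw [abs_mul, abs_mul, abs_of_nonneg r1, abs_of_pos hm]
    exact mul_le_mul r2.le (mul_le_mul_of_nonneg_left (abs_le.2 b1) hm.le) (by positivity) hm.le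
  rw [abs_le] at e3
  have e4 : 7 * (R * mm R) ≤ mm R * mm R := by nlinarith
  have e5 : 49 * (R * R) ≤ mm R * mm R := by nlinarith
  have c1 := ediv_range
    (x := g.c + t.c + g.a * t.b - (g.a + t.a) % mm R * (mm R * ((g.b + t.b) / mm R)))
    (lo := -2) (hi := 2) (pow_pos hm 2) (by nlinarith) (by nlinarith)
  have e6 : |(g.a + t.a) / mm R * ((g.b + t.b) / mm R)| ≤ 1 * 1 := by
    rw [abs_mul]
    exact mul_le_mul (abs_le.2 a1) (abs_le.2 b1) (abs_nonneg _) (by norm_num)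
  rw [abs_le] at e6
  refine ⟨abs_le.2 a1, abs_le.2 b1, ?_⟩
  simp only [tail, mul_a, mul_b, mul_c]
  rw [abs_le]
  push_cast
  constructor <;> linarith

def setup (B : ℕ) (pos : Role Col {g // Bl 1 g} → ℕ) (h1 : ∀ r, pos r < B)
    (h2 : Function.Injective pos) (h3 : ∀ r r', r.stage < r'.stage → pos r < pos r') :
    Setup Heis (Dig (2 * cap B)) Col where
  sec := fun g t => tail (mm (2 * cap B)) (g * t.1)
  sec_one := fun t => by rw [one_mul]; exact (box_self (mm_pos _) t.2).2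
  sec_mul := fun g h t => by rw [mul_assoc]; exact (cocycle (mm_pos _) g _).2
  col := fun t => colH t.1
  col_smul := fun g t => by
    rw [← colH_mul, ← dig_tail (mm (2 * cap B)) (g * t.1), colH_dil]; rfl
  Bl := Bl
  bl_one := by simp [Bl]
  bl_succ := fun l g h => by
    obtain ⟨k1, k2, k3⟩ := h
    have : (0 : ℤ) ≤ l := Nat.cast_nonneg l
    refine ⟨?_, ?_, ?_⟩ <;> push_cast <;> nlinarith
  bl_mul := bl_mul
  bl_inv := fun l g h => by
    obtain ⟨k1, k2, k3⟩ := h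
    refine ⟨by simpa using k1, by simpa using k2, ?_⟩
    rw [← abs_neg]
    convert k3 using 2
    simp; ring
  free := free
  B := B
  pos := pos
  pos_lt := h1
  pos_inj := h2
  pos_stage := h3
  contr := fun g t h => contr _ g t.1 h t.2

def x : Heis := ⟨1, 0, 0⟩
def y : Heis := ⟨0, 1, 0⟩
def z : Heis := ⟨0, 0, 1⟩

theorem x_zpow (n : ℤ) : x ^ n = ⟨n, 0, 0⟩ := by
  induction n using Int.induction_on with
  | zero => rfl
  | succ n ih => rw [zpow_add_one, ih]; ext <;> simp [x]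
  | pred n ih => rw [zpow_sub_one, ih]; ext <;> simp [x]; ring

theorem y_zpow (n : ℤ) : y ^ n = ⟨0, n, 0⟩ := by
  induction n using Int.induction_on with
  | zero => rfl
  | succ n ih => rw [zpow_add_one, ih]; ext <;> simp [y]
  | pred n ih => rw [zpow_sub_one, ih]; ext <;> simp [y]; ring

theorem z_zpow (n : ℤ) : z ^ n = ⟨0, 0, n⟩ := by
  induction n using Int.induction_on with
  | zero => rfl
  | succ n ih => rw [zpow_add_one, ih]; ext <;> simp [z]
  | pred n ih => rw [zpow_sub_one, ih]; ext <;> simp [z]; ring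

theorem gen : Subgroup.closure {g | Bl 1 g} = ⊤ := by
  rw [eq_top_iff]
  intro g _
  have hx : x ∈ Subgroup.closure {g | Bl 1 g} := Subgroup.subset_closure (by simp [Bl, x])
  have hy : y ∈ Subgroup.closure {g | Bl 1 g} := Subgroup.subset_closure (by simp [Bl, y])
  have hz : z ∈ Subgroup.closure {g | Bl 1 g} := Subgroup.subset_closure (by simp [Bl, z])
  have : g = z ^ (g.c - g.a * g.b) * (x ^ g.a * y ^ g.b) := by
    rw [x_zpow, y_zpow, z_zpow]; ext <;> simp
  rw [this]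
  exact mul_mem (zpow_mem hz _) (mul_mem (zpow_mem hx _) (zpow_mem hy _))

def dig0 (R : ℕ) : Dig R :=
  ⟨1, le_rfl, mm_pos R, le_rfl, mm_pos R, le_rfl, pow_pos (mm_pos R) 2⟩

theorem exists_fam : ∃ (k : ℕ) (F : Fam Heis (Fin k)),
    Filter.Tendsto (fun n : ℕ => Real.log (F.words n).ncard / n) Filter.atTop (nhds 0) := by
  obtain ⟨B, pos, h1, h2, h3⟩ := exists_pos Col {g // Bl 1 g}
  let S := setup B pos h1 h2 h3
  have hN : Finite S.NN := inferInstanceAs (Finite {g // Bl 1 g})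
  refine S.exists_fam (dig0 _) gen fun g hg => ?_
  set m := mm (2 * cap B) with hm
  have key : ∀ (L : ℕ) (g : Heis), S.Fix L g → m ^ L ∣ g.a ∧ m ^ L ∣ g.b ∧ m ^ L ∣ g.c := by
    intro L
    induction L with
    | zero => intro g _; simp
    | succ L ih =>
      intro g hg
      obtain ⟨e1, e2⟩ := hg (dig0 _)
      have e3 : dig m (g * 1) = 1 := congrArg Subtype.val e1
      have e4 := ih (tail m (g * 1)) e2
      have e5 := dig_tail m (g * 1)
      rw [e3, one_mul] at e5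
      rw [mul_one] at e4 e5
      obtain ⟨f1, f2, f3⟩ := e4
      rw [← e5, pow_succ']
      refine ⟨mul_dvd_mul_left m f1, mul_dvd_mul_left m f2, ?_⟩
      show m * m ^ L ∣ m ^ 2 * (tail m g).c
      rw [pow_two, mul_assoc]
      exact mul_dvd_mul_left m (f3.mul_left m)
  have hz : ∀ s : ℤ, (∀ L : ℕ, m ^ L ∣ s) → s = 0 := by
    intro s hs
    have hm2 : (1 : ℤ) < m := by
      rw [hm]; unfold mm
      have : (0 : ℤ) ≤ ((2 * cap B : ℕ) : ℤ) := Nat.cast_nonneg _
      linarith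
    obtain ⟨L, hL⟩ := pow_unbounded_of_one_lt |s| hm2
    exact Int.eq_zero_of_abs_lt_dvd (hs L) hL
  ext
  · exact hz _ fun L => (key L g (hg L)).1
  · exact hz _ fun L => (key L g (hg L)).2.1
  · exact hz _ fun L => (key L g (hg L)).2.2

theorem z_inf : ¬ IsOfFinOrder z := by
  rw [isOfFinOrder_iff_pow_eq_one]
  rintro ⟨n, hn, h⟩
  rw [← zpow_natCast, z_zpow] at h
  have : (n : ℤ) = 0 := congrArg Heis.c h
  omega

theorem z_distorted (ε : ℝ) (hε : 0 < ε) : ∃ N : ℕ, ∀ n : ℕ, N ≤ n → ∃ l : List Heis,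
    (∀ s ∈ l, s ∈ [x, y, z] ∨ s⁻¹ ∈ [x, y, z]) ∧ l.prod = z ^ n ∧ (l.length : ℝ) ≤ ε * n := by
  obtain ⟨K, hK⟩ := exists_nat_gt (6 / ε)
  refine ⟨K * K, fun n hn => ?_⟩
  set s := Nat.sqrt n with hs
  have h1 : s * s ≤ n := Nat.sqrt_le n
  have h2 : n < (s + 1) * (s + 1) := Nat.lt_succ_sqrt n
  have h3 : K ≤ s := Nat.le_sqrt.2 hn
  refine ⟨List.replicate s x ++ List.replicate s y ++ List.replicate s x⁻¹ ++
    List.replicate s y⁻¹ ++ List.replicate (n - s * s) z, ?_, ?_, ?_⟩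
  · intro t ht
    simp only [List.mem_append, List.mem_replicate] at ht
    rcases ht with (((ht | ht) | ht) | ht) | ht <;> rw [ht.2] <;> simp
  · simp only [List.prod_append, List.prod_replicate, inv_pow]
    simp only [← zpow_natCast, x_zpow, y_zpow, z_zpow]
    ext <;> simp [Nat.cast_sub h1]
  · simp only [List.length_append, List.length_replicate]
    have h4 : s + s + s + s + (n - s * s) ≤ 6 * s := by
      have : (s + 1) * (s + 1) = s * s + 2 * s + 1 := by ring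
      omega
    have h5 : ((s + s + s + s + (n - s * s) : ℕ) : ℝ) ≤ 6 * s := by exact_mod_cast h4
    have h6 : (s : ℝ) * s ≤ n := by exact_mod_cast h1
    have h7 : (K : ℝ) ≤ s := by exact_mod_cast h3
    rw [div_lt_iff₀ hε] at hK
    have h8 : (0 : ℝ) ≤ s := Nat.cast_nonneg s
    have h9 : 6 ≤ s * ε := by nlinarith
    nlinarith

end Heis

end H593Z.Sim
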