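import Pool.Agent.H593Z.Heis

set_option autoImplicit false

namespace H593Z.Sim

open Filter Topology

noncomputable def avg (f : ℤ → ℝ) (N : ℕ) : ℝ := (∑ i ∈ Finset.range (N + 1), f i) / (N + 1)

noncomputable def mean (f : ℤ → ℝ) : ℝ := limUnder (hyperfilter ℕ : Filter ℕ) (avg f)

def U01 (f : ℤ → ℝ) : Prop := ∀ i, 0 ≤ f i ∧ f i ≤ 1

theorem avg_mem {f : ℤ → ℝ} (h : U01 f) (N : ℕ) : avg f N ∈ Set.Icc (0 : ℝ) 1 := by
  have hN : (0 : ℝ) < N + 1 := by positivity
  constructor
  · exact div_nonneg (Finset.sum_nonneg fun i _ => (h i).1) hN.le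
  · unfold avg
    rw [div_le_one hN]
    have := Finset.sum_le_sum (s := Finset.range (N + 1)) fun (i : ℕ) _ => (h i).2
    simpa using this

theorem tendsto_mean {f : ℤ → ℝ} (h : U01 f) :
    Tendsto (avg f) (hyperfilter ℕ : Filter ℕ) (𝓝 (mean f)) := by
  obtain ⟨a, -, ha⟩ := isCompact_Icc.ultrafilter_le_nhds ((hyperfilter ℕ).map (avg f))
    (by
      rw [le_principal_iff]
      exact Filter.mem_map.2 (Filter.univ_mem' fun N => avg_mem h N))
  exact tendsto_nhds_limUnder ⟨a, ha⟩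

theorem mean_mem {f : ℤ → ℝ} (h : U01 f) : 0 ≤ mean f ∧ mean f ≤ 1 :=
  isClosed_Icc.mem_of_tendsto (tendsto_mean h) (Filter.Eventually.of_forall (avg_mem h))

theorem mean_add {f g : ℤ → ℝ} (hf : U01 f) (hg : U01 g) (hfg : U01 fun i => f i + g i) :
    mean (fun i => f i + g i) = mean f + mean g := by
  refine tendsto_nhds_unique (tendsto_mean hfg) ?_
  have : avg (fun i => f i + g i) = fun N => avg f N + avg g N := by
    funext N; unfold avg; rw [Finset.sum_add_distrib, add_div]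
  rw [this]
  exact (tendsto_mean hf).add (tendsto_mean hg)

theorem mean_one : mean (fun _ => 1) = 1 := by
  refine tendsto_nhds_unique (tendsto_mean fun _ => ⟨zero_le_one, le_rfl⟩) ?_
  have : avg (fun _ => 1) = fun _ => 1 := by
    funext N; unfold avg
    have hN : (0 : ℝ) < N + 1 := by positivity
    simp [hN.ne']
  rw [this]
  exact tendsto_const_nhds

theorem mean_succ {f : ℤ → ℝ} (h : U01 f) : mean (fun i => f (i + 1)) = mean f := by
  refine tendsto_nhds_unique (tendsto_mean fun i => h (i + 1)) ?_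
  have e : avg (fun i => f (i + 1)) =
      fun N => avg f N + (f ((N + 1 : ℕ) : ℤ) - f 0) * (1 / ((N : ℝ) + 1)) := by
    funext N
    unfold avg
    have h1 := Finset.sum_range_succ' (fun i : ℕ => f i) (N + 1)
    rw [Finset.sum_range_succ (fun i : ℕ => f i) (N + 1)] at h1
    push_cast at h1 ⊢
    have hN : (0 : ℝ) < N + 1 := by positivity
    field_simp
    linarith
  have e2 : Tendsto (fun N : ℕ => (f ((N + 1 : ℕ) : ℤ) - f 0) * (1 / ((N : ℝ) + 1))) atTop (𝓝 0) := by
    apply squeeze_zero_norm (a := fun N : ℕ => 1 / ((N : ℝ) + 1)) _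
      tendsto_one_div_add_atTop_nhds_zero_nat
    intro N
    rw [norm_mul, Real.norm_of_nonneg (by positivity : (0 : ℝ) ≤ 1 / ((N : ℝ) + 1))]
    apply mul_le_of_le_one_left (by positivity)
    rw [Real.norm_eq_abs, abs_le]
    have h1 := h ((N + 1 : ℕ) : ℤ)
    have h2 := h 0
    constructor <;> linarith [h1.1, h1.2, h2.1, h2.2]
  have e3 := e2.mono_left (hyperfilter_le_cofinite.trans Nat.cofinite_eq_atTop.le)
  rw [e]
  simpa using (tendsto_mean h).add e3

theorem mean_shift {f : ℤ → ℝ} (h : U01 f) (k : ℤ) : mean (fun i => f (i + k)) = mean f := by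
  induction k using Int.induction_on with
  | zero => simp
  | succ k ih =>
    rw [← ih, ← mean_succ (f := fun i => f (i + k)) fun i => h _]
    simp only [add_assoc, add_comm (1 : ℤ)]
  | pred k ih =>
    rw [← ih, ← mean_succ (f := fun i => f (i + (-k - 1))) fun i => h _]
    congr 1
    funext i
    congr 1
    ring

namespace Heis

noncomputable def mean3 (f : Heis → ℝ) : ℝ :=
  mean fun a => mean fun b => mean fun c => f ⟨a, b, c⟩

theorem mean3_mem {f : Heis → ℝ} (h : ∀ u, 0 ≤ f u ∧ f u ≤ 1) : 0 ≤ mean3 f ∧ mean3 f ≤ 1 :=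
  mean_mem fun _ => mean_mem fun _ => mean_mem fun _ => h _

theorem mean3_add {f g : Heis → ℝ} (hf : ∀ u, 0 ≤ f u ∧ f u ≤ 1) (hg : ∀ u, 0 ≤ g u ∧ g u ≤ 1)
    (hfg : ∀ u, 0 ≤ f u + g u ∧ f u + g u ≤ 1) :
    mean3 (fun u => f u + g u) = mean3 f + mean3 g := by
  have e1 : ∀ a b, (mean fun c => f ⟨a, b, c⟩ + g ⟨a, b, c⟩) =
      (mean fun c => f ⟨a, b, c⟩) + mean fun c => g ⟨a, b, c⟩ :=
    fun a b => mean_add (fun _ => hf _) (fun _ => hg _) (fun _ => hfg _)
  have e2 : ∀ a, (mean fun b => mean fun c => f ⟨a, b, c⟩ + g ⟨a, b, c⟩) =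
      (mean fun b => mean fun c => f ⟨a, b, c⟩) + mean fun b => mean fun c => g ⟨a, b, c⟩ := by
    intro a
    rw [← mean_add (fun _ => mean_mem fun _ => hf _) (fun _ => mean_mem fun _ => hg _)
      (fun b => by beta_reduce; rw [← e1]; exact mean_mem fun _ => hfg _)]
    simp only [e1]
  unfold mean3
  rw [← mean_add (fun _ => mean_mem fun _ => mean_mem fun _ => hf _)
    (fun _ => mean_mem fun _ => mean_mem fun _ => hg _)
    (fun a => by beta_reduce; rw [← e2]; exact mean_mem fun _ => mean_mem fun _ => hfg _)]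
  simp only [e2]

theorem mean3_one : mean3 (fun _ => 1) = 1 := by
  unfold mean3; simp only [mean_one]

theorem mean3_inv {f : Heis → ℝ} (h : ∀ u, 0 ≤ f u ∧ f u ≤ 1) (g : Heis) :
    mean3 (fun u => f (g * u)) = mean3 f := by
  unfold mean3
  have e1 : ∀ a b c : ℤ, g * ⟨a, b, c⟩ = ⟨a + g.a, b + g.b, c + (g.c + g.a * b)⟩ := by
    intro a b c; ext <;> simp <;> ring
  have e2 : ∀ a b, (mean fun c => f (g * ⟨a, b, c⟩)) = mean fun c => f ⟨a + g.a, b + g.b, c⟩ := by
    intro a b
    simp only [e1]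
    exact mean_shift (f := fun c => f ⟨a + g.a, b + g.b, c⟩) (fun _ => h _) _
  have e3 : ∀ a, (mean fun b => mean fun c => f ⟨a + g.a, b + g.b, c⟩) =
      mean fun b => mean fun c => f ⟨a + g.a, b, c⟩ := fun a =>
    mean_shift (f := fun b => mean fun c => f ⟨a + g.a, b, c⟩)
      (fun _ => mean_mem fun _ => h _) _
  simp only [e2, e3]
  exact mean_shift (f := fun a => mean fun b => mean fun c => f ⟨a, b, c⟩)
    (fun _ => mean_mem fun _ => mean_mem fun _ => h _) _

/-- every quotient of the Heisenberg group has an invariant mean -/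
theorem exists_mean {K : Type} [Group K] (φ : Heis →* K) (hφ : Function.Surjective φ) :
    ∃ m : Set K → ℝ, (∀ A, 0 ≤ m A) ∧ m Set.univ = 1 ∧
      (∀ A B, Disjoint A B → m (A ∪ B) = m A + m B) ∧
      (∀ (g : K) (A : Set K), m ((fun h : K => g * h) '' A) = m A) := by
  have hb : ∀ (A : Set K) (k : K), 0 ≤ A.indicator (fun _ => (1 : ℝ)) k ∧
      A.indicator (fun _ => (1 : ℝ)) k ≤ 1 := fun A k =>
    ⟨Set.indicator_nonneg (fun _ _ => zero_le_one) k, Set.indicator_le_self' (fun _ _ => zero_le_one) k⟩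
  refine ⟨fun A => mean3 fun u => A.indicator (fun _ => 1) (φ u),
    fun A => (mean3_mem fun u => hb A _).1, ?_, fun A B hAB => ?_, fun g A => ?_⟩
  · simp only [Set.indicator_univ]
    exact mean3_one
  · have e : ∀ k, (A ∪ B).indicator (fun _ => (1 : ℝ)) k =
        A.indicator (fun _ => 1) k + B.indicator (fun _ => 1) k := fun k => by
      rw [Set.indicator_union_of_disjoint hAB]
    simp only [e]
    exact mean3_add (fun u => hb A _) (fun u => hb B _) (fun u => by rw [← e]; exact hb _ _)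
  · obtain ⟨g0, rfl⟩ := hφ g
    show mean3 _ = mean3 _
    rw [← mean3_inv (fun u => hb _ _) g0]
    congr 1
    funext u
    rw [map_mul]
    exact Set.indicator_image (f := fun _ => (1 : ℝ)) (mul_right_injective (φ g0))

theorem distorted_map {K : Type} [Group K] [DecidableEq K] (φ : Heis →* K) (ε : ℝ) (hε : 0 < ε) :
    ∃ N : ℕ, ∀ n : ℕ, N ≤ n → ∃ l : List K,
      (∀ s ∈ l, s ∈ ({φ x, φ y, φ z} : Finset K) ∨ s⁻¹ ∈ ({φ x, φ y, φ z} : Finset K)) ∧
      l.prod = φ z ^ n ∧ (l.length : ℝ) ≤ ε * n := by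
  obtain ⟨N, hN⟩ := z_distorted ε hε
  refine ⟨N, fun n hn => ?_⟩
  obtain ⟨l, h1, h2, h3⟩ := hN n hn
  have key : ∀ t ∈ [x, y, z], φ t ∈ ({φ x, φ y, φ z} : Finset K) := by
    intro t ht
    simp only [List.mem_cons, List.not_mem_nil, or_false] at ht
    rcases ht with rfl | rfl | rfl <;> simp
  refine ⟨l.map φ, fun s hs => ?_, ?_, by rwa [List.length_map]⟩
  · obtain ⟨t, ht, rfl⟩ := List.mem_map.1 hs
    rcases h1 t ht with h | h
    · exact Or.inl (key t h)
    · exact Or.inr (by rw [← map_inv]; exact key _ h)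
  · rw [← map_list_prod, h2, map_pow]

end Heis

end H593Z.Sim
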