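import Mathlib

set_option autoImplicit false

/-!
A one-sided subshift with an automorphism of infinite order whose powers have sublinear radius.

Every second cell of a row is a clock cell; the remaining cells form a coarser row of the same
kind, which makes one step while the fine row makes three steps.
-/

namespace H593Z.OneSided

/-- symbols: colour, first digit, second digit, tick bit, data bit -/
abbrev A := Bool × Fin 3 × Fin 3 × Bool × Bool

def col (a : A) : Bool := a.1
def dig (a : A) : Fin 3 := a.2.1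

/-- the bit offered to the left neighbour -/
def E (a : A) (j : Fin 3) : Bool :=
  if j = 0 then a.2.2.2.1 else if j = 1 then a.2.2.2.2 else false

def updU (s : Bool) (b b' : Fin 3) (c : Bool) (u : Bool × Bool) : Bool × Bool :=
  if s = true then
    (if (b = 0 ∧ b' ≠ 2) ∨ (b = 1 ∧ b' ≠ 0) then (u.1, xor u.2 c) else u)
  else
    (if b = 0 ∧ b' ≠ 1 then (xor u.1 c, u.2) else if b = 1 ∧ b' ≠ 1 then (u.1, xor u.2 c) else u)

def tick (c : Bool) (a : A) : A :=
  (a.1, a.2.1 + 1, (if a.2.1 = 2 then a.2.2.1 + 1 else a.2.2.1), updU a.1 a.2.1 a.2.2.1 c a.2.2.2)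

def untick (c : Bool) (a : A) : A :=
  (a.1, a.2.1 - 1, (if a.2.1 = 0 then a.2.2.1 - 1 else a.2.2.1),
    updU a.1 (a.2.1 - 1) a.2.2.1 c a.2.2.2)

def act (l : Bool × Bool) (a : A) : A := if l.1 = true then tick l.2 a else a

def unact (l : Bool × Bool) (a : A) : A := if l.1 = true then untick l.2 a else a

theorem tick_untick (c : Bool) (a : A) : tick c (untick c a) = a := by
  revert c a; decide

theorem untick_tick (c : Bool) (a : A) : untick c (tick c a) = a := by
  revert c a; decide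

theorem act_unact (l : Bool × Bool) (a : A) : act l (unact l a) = a := by
  revert l a; decide

theorem unact_act (l : Bool × Bool) (a : A) : unact l (act l a) = a := by
  revert l a; decide

theorem col_tick (c : Bool) (a : A) : col (tick c a) = col a := rfl
theorem col_untick (c : Bool) (a : A) : col (untick c a) = col a := rfl
theorem col_act (l : Bool × Bool) (a : A) : col (act l a) = col a := by
  unfold act; split_ifs <;> rfl
theorem col_unact (l : Bool × Bool) (a : A) : col (unact l a) = col a := by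
  unfold unact; split_ifs <;> rfl
theorem dig_tick (c : Bool) (a : A) : dig (tick c a) = dig a + 1 := rfl
theorem dig_untick (c : Bool) (a : A) : dig (untick c a) = dig a - 1 := rfl

/-- cell `i` is recognised as a clock cell -/
def lev (x : ℕ → A) (i : ℕ) : Prop :=
  col (x i) = col (x (i + 4)) ∧ col (x (i + 2)) = col (x (i + 6))

instance (x : ℕ → A) (i : ℕ) : Decidable (lev x i) := by unfold lev; infer_instance

def F (x : ℕ → A) (i : ℕ) : A :=
  if lev x i then tick (E (x (i + 1)) (dig (x i))) (x i)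
  else if dig (x (i + 1)) = 2 then act (x (i + 1)).2.2.2 (x i) else x i

def sh (x : ℕ → A) : ℕ → A := fun i => x (i + 1)

theorem F_sh (x : ℕ → A) : F (sh x) = sh (F x) := by
  funext i
  have h : lev (sh x) i ↔ lev x (i + 1) := by
    unfold lev sh
    rw [show i + 4 + 1 = i + 1 + 4 by omega, show i + 2 + 1 = i + 1 + 2 by omega,
      show i + 6 + 1 = i + 1 + 6 by omega]
  show F (sh x) i = F x (i + 1)
  unfold F
  by_cases h1 : lev x (i + 1)
  · rw [if_pos h1, if_pos (h.2 h1)]; rfl
  · rw [if_neg h1, if_neg (fun h2 => h1 (h.1 h2))]; rfl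

theorem col_F (x : ℕ → A) (i : ℕ) : col (F x i) = col (x i) := by
  unfold F
  split_ifs
  · rfl
  · exact col_act _ _
  · rfl

def U (s : Bool) (b b' : Fin 3) (a : A) : Bool × Bool :=
  if s = true then
    (true, if b = 0 then E a (b' - 1) else if b = 2 then E a b'
      else if b' = 0 then E a 0 else if b' = 1 then false else E a 1)
  else if b' = 0 then
    (if b = 0 then a.2.2.2 else if b = 1 then (false, a.2.2.2.2) else (false, false))
  else if b' = 1 then (false, false)
  else (if b = 0 then (false, false) else if b = 1 then (a.2.2.2.1, false) else a.2.2.2)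

def W (s : Bool) (b b' : Fin 3) (a : A) : A := (s, b, b', U s b b' a)

theorem tick_W (s : Bool) (b b' : Fin 3) (a : A) (hb : b ≠ 2) :
    tick (E a b) (W s b b' a) = W s (b + 1) b' a := by
  revert s b b' a; decide

theorem tick_W_two (s c : Bool) (b' : Fin 3) (a : A) :
    tick c (W s 2 b' a) = (s, 0, b' + 1, U s 2 b' a) := by
  revert s c b' a; decide

theorem U_true_step (b' : Fin 3) (a a' : A) (h : b' ≠ 2 → a' = a) :
    U true 0 (b' + 1) a' = U true 2 b' a := by
  by_cases hb : b' = 2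
  · subst hb; rfl
  · rw [h hb]; clear h; revert b' a; decide

theorem U_false_step (c : Bool) (a : A) :
    U false 0 (dig a + 1) (tick c a) = U false 2 (dig a) a := by
  revert c a; decide

theorem act_U_true (b' : Fin 3) (a v : A) : act (U true 2 b' a) v = tick (E a b') v := rfl

theorem act_U_false (b' : Fin 3) (a v : A) :
    act (U false 2 b' a) v = if b' = 2 then act a.2.2.2 v else v := by
  fin_cases b' <;> rfl

/-- the fine row with offset `p` and digit `b` over the coarse row `y` with offset `p'` and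
digit `b'` -/
def Enc (p : Bool) (b : Fin 3) (p' : Bool) (b' : Fin 3) (y : ℕ → A) (n : ℕ) : A :=
  if (n + p.toNat) % 2 = 0 then
    W (decide (((n + p.toNat) / 2 + p'.toNat) % 2 = 1)) b b' (y ((n + p.toNat) / 2))
  else y ((n + p.toNat) / 2)

theorem Enc_even {p : Bool} {b : Fin 3} {p' : Bool} {b' : Fin 3} {y : ℕ → A} {n j : ℕ}
    (h : n + p.toNat = 2 * j) :
    Enc p b p' b' y n = W (decide ((j + p'.toNat) % 2 = 1)) b b' (y j) := by
  unfold Enc
  rw [if_pos (by omega), show (n + p.toNat) / 2 = j by omega]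

theorem Enc_odd {p : Bool} {b : Fin 3} {p' : Bool} {b' : Fin 3} {y : ℕ → A} {n j : ℕ}
    (h : n + p.toNat = 2 * j + 1) : Enc p b p' b' y n = y j := by
  unfold Enc
  rw [if_neg (by omega), show (n + p.toNat) / 2 = j by omega]

def Alt (p : Bool) (b : Fin 3) (x : ℕ → A) : Prop :=
  ∀ i, (i + p.toNat) % 2 = 0 → col (x i) ≠ col (x (i + 2)) ∧ dig (x i) = b

def NL (p : Bool) (x : ℕ → A) : Prop := ∀ i, (i + p.toNat) % 2 = 1 → ¬ lev x i

def Rec (p : Bool) (b : Fin 3) (x : ℕ → A) : Prop := Alt p b x ∧ NL p x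

theorem toNat_le (p : Bool) : p.toNat ≤ 1 := by cases p <;> simp

theorem Alt.lev {p : Bool} {b : Fin 3} {x : ℕ → A} (h : Alt p b x) {i : ℕ}
    (hi : (i + p.toNat) % 2 = 0) : lev x i := by
  have h0 := (h i hi).1
  have h2 := (h (i + 2) (by omega)).1
  have h4 := (h (i + 4) (by omega)).1
  rw [show i + 2 + 2 = i + 4 by omega] at h2
  rw [show i + 4 + 2 = i + 6 by omega] at h4
  unfold OneSided.lev
  revert h0 h2 h4
  cases col (x i) <;> cases col (x (i + 2)) <;> cases col (x (i + 4)) <;>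
    cases col (x (i + 6)) <;> simp

theorem alt_Enc (p : Bool) (b : Fin 3) (p' : Bool) (b' : Fin 3) (y : ℕ → A) :
    Alt p b (Enc p b p' b' y) := by
  intro i hi
  obtain ⟨j, hj⟩ : ∃ j, i + p.toNat = 2 * j := ⟨(i + p.toNat) / 2, by omega⟩
  rw [Enc_even hj, Enc_even (j := j + 1) (by omega)]
  refine ⟨?_, rfl⟩
  show decide _ ≠ decide _
  by_cases h : (j + p'.toNat) % 2 = 1
  · rw [decide_eq_true h, decide_eq_false (by omega)]; simp
  · rw [decide_eq_false h, decide_eq_true (by omega)]; simp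

theorem nl_Enc (p : Bool) (b : Fin 3) {p' : Bool} {b' b'' : Fin 3} {y : ℕ → A}
    (hy : Alt p' b'' y) : NL p (Enc p b p' b' y) := by
  intro i hi hl
  obtain ⟨j, hj⟩ : ∃ j, i + p.toNat = 2 * j + 1 := ⟨(i + p.toNat) / 2, by omega⟩
  unfold lev at hl
  rw [Enc_odd hj, Enc_odd (j := j + 2) (by omega), Enc_odd (j := j + 1) (by omega),
    Enc_odd (j := j + 3) (by omega)] at hl
  by_cases h : (j + p'.toNat) % 2 = 0
  · exact (hy j h).1 hl.1
  · exact (hy (j + 1) (by omega)).1 hl.2

theorem rec_Enc (p : Bool) (b : Fin 3) {p' : Bool} {b' b'' : Fin 3} {y : ℕ → A}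
    (hy : Rec p' b'' y) : Rec p b (Enc p b p' b' y) :=
  ⟨alt_Enc p b p' b' y, nl_Enc p b hy.1⟩

theorem Rec.F_even {p : Bool} {b : Fin 3} {x : ℕ → A} (h : Rec p b x) {i : ℕ}
    (hi : (i + p.toNat) % 2 = 0) : F x i = tick (E (x (i + 1)) b) (x i) := by
  unfold F
  rw [if_pos (h.1.lev hi), (h.1 i hi).2]

theorem Rec.F_odd {p : Bool} {b : Fin 3} {x : ℕ → A} (h : Rec p b x) {i : ℕ}
    (hi : (i + p.toNat) % 2 = 1) :
    F x i = if b = 2 then act (x (i + 1)).2.2.2 (x i) else x i := by
  unfold F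
  rw [if_neg (h.2 i hi), (h.1 (i + 1) (by omega)).2]

theorem lev_congr {x y : ℕ → A} (h : ∀ i, col (x i) = col (y i)) (i : ℕ) :
    lev x i ↔ lev y i := by
  unfold lev; simp only [h]

theorem Rec.F {p : Bool} {b : Fin 3} {x : ℕ → A} (h : Rec p b x) : Rec p (b + 1) (F x) := by
  refine ⟨fun i hi => ⟨?_, ?_⟩, fun i hi hl => h.2 i hi ((lev_congr (col_F x) i).1 hl)⟩
  · rw [col_F, col_F]; exact (h.1 i hi).1
  · rw [h.F_even hi, dig_tick, (h.1 i hi).2]

theorem Rec.sh {p : Bool} {b : Fin 3} {x : ℕ → A} (h : Rec p b x) : Rec (!p) b (sh x) := by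
  have hp : ∀ i : ℕ, (i + (!p).toNat) % 2 = (i + 1 + p.toNat) % 2 := by
    intro i; cases p <;> simp <;> omega
  refine ⟨fun i hi => ?_, fun i hi hl => ?_⟩
  · rw [hp] at hi
    have := h.1 (i + 1) hi
    unfold OneSided.sh
    rw [show i + 2 + 1 = i + 1 + 2 by omega]
    exact this
  · rw [hp] at hi
    apply h.2 (i + 1) hi
    unfold lev OneSided.sh at hl
    unfold lev
    rw [show i + 4 + 1 = i + 1 + 4 by omega, show i + 2 + 1 = i + 1 + 2 by omega,
      show i + 6 + 1 = i + 1 + 6 by omega] at hl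
    exact hl

/-- offset and digit are read off from a window -/
theorem Rec.uniq {p q : Bool} {b c : Fin 3} {x y : ℕ → A} (hx : Rec p b x) (hy : Rec q c y)
    (h : ∀ i ≤ 6, x i = y i) : p = q ∧ b = c := by
  have hl : lev x 0 ↔ lev y 0 := by
    unfold lev
    rw [h 0 (by omega), h (0 + 4) (by omega), h (0 + 2) (by omega), h (0 + 6) (by omega)]
  have hpq : p = q := by
    cases p <;> cases q
    · rfl
    · exact absurd (hl.1 (hx.1.lev (by simp))) (hy.2 0 (by simp))
    · exact absurd (hl.2 (hy.1.lev (by simp))) (hx.2 0 (by simp))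
    · rfl
  subst hpq
  refine ⟨rfl, ?_⟩
  have hp := toNat_le p
  rw [← (hx.1 p.toNat (by omega)).2, ← (hy.1 p.toNat (by omega)).2, h _ (by omega)]

theorem F_Enc_of_ne (p : Bool) {b : Fin 3} {p' : Bool} {b' b'' : Fin 3} {y : ℕ → A}
    (hy : Rec p' b'' y) (hb : b ≠ 2) : F (Enc p b p' b' y) = Enc p (b + 1) p' b' y := by
  have hr : Rec p b (Enc p b p' b' y) := rec_Enc p b hy
  funext i
  by_cases hi : (i + p.toNat) % 2 = 0
  · obtain ⟨j, hj⟩ : ∃ j, i + p.toNat = 2 * j := ⟨(i + p.toNat) / 2, by omega⟩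
    rw [hr.F_even hi, Enc_even hj, Enc_even hj, Enc_odd (j := j) (by omega), tick_W _ _ _ _ hb]
  · obtain ⟨j, hj⟩ : ∃ j, i + p.toNat = 2 * j + 1 := ⟨(i + p.toNat) / 2, by omega⟩
    rw [hr.F_odd (by omega), if_neg hb, Enc_odd hj, Enc_odd hj]

theorem F_Enc_two (p : Bool) {p' : Bool} {b' : Fin 3} {y : ℕ → A}
    (hy : Rec p' b' y) : F (Enc p 2 p' b' y) = Enc p 0 p' (b' + 1) (F y) := by
  have hr : Rec p 2 (Enc p 2 p' b' y) := rec_Enc p 2 hy
  funext i
  by_cases hi : (i + p.toNat) % 2 = 0
  · obtain ⟨j, hj⟩ : ∃ j, i + p.toNat = 2 * j := ⟨(i + p.toNat) / 2, by omega⟩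
    rw [hr.F_even hi, Enc_even hj, Enc_even hj, tick_W_two]
    unfold W
    by_cases h : (j + p'.toNat) % 2 = 1
    · rw [decide_eq_true h, U_true_step b' (y j) (F y j)]
      intro hb
      rw [hy.F_odd h, if_neg hb]
    · have h0 : (j + p'.toNat) % 2 = 0 := by omega
      rw [decide_eq_false h, hy.F_even h0]
      have := U_false_step (E (y (j + 1)) b') (y j)
      rw [(hy.1 j h0).2] at this
      rw [this]
  · obtain ⟨j, hj⟩ : ∃ j, i + p.toNat = 2 * j + 1 := ⟨(i + p.toNat) / 2, by omega⟩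
    rw [hr.F_odd (by omega), if_pos rfl, Enc_odd hj, Enc_odd hj,
      Enc_even (j := j + 1) (by omega)]
    show act (U _ 2 b' (y (j + 1))) (y j) = _
    by_cases h : (j + p'.toNat) % 2 = 0
    · rw [decide_eq_true (by omega), act_U_true, hy.F_even h]
    · rw [decide_eq_false (by omega), act_U_false, hy.F_odd (by omega)]

end H593Z.OneSided
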