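import Pool.Agent.H593Z.OneSided

set_option autoImplicit false

namespace H593Z.OneSided

theorem Rec.inj {p q : Bool} {b c : Fin 3} {x y : ℕ → A} (hx : Rec p b x) (hy : Rec q c y)
    (h : OneSided.F x = OneSided.F y) : x = y := by
  obtain ⟨hpq, hbc⟩ := hx.F.uniq hy.F (fun i _ => by rw [h])
  subst hpq
  have hb : b = c := add_right_cancel hbc
  subst hb
  have he : ∀ i, (i + p.toNat) % 2 = 0 → x i = y i := by
    intro i hi
    have h1 := congrFun h i
    rw [hx.F_even hi, hy.F_even hi] at h1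
    have hE : E (x (i + 1)) b = E (y (i + 1)) b := by
      by_cases hb : b = 2
      · subst hb; rfl
      · have h2 := congrFun h (i + 1)
        rw [hx.F_odd (by omega), hy.F_odd (by omega), if_neg hb, if_neg hb] at h2
        rw [h2]
    rw [hE] at h1
    rw [← untick_tick (E (y (i + 1)) b) (x i), h1, untick_tick]
  funext i
  by_cases hi : (i + p.toNat) % 2 = 0
  · exact he i hi
  · have h1 := congrFun h i
    rw [hx.F_odd (by omega), hy.F_odd (by omega), he (i + 1) (by omega)] at h1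
    by_cases hb : b = 2
    · rw [if_pos hb, if_pos hb] at h1
      rw [← unact_act (y (i + 1)).2.2.2 (x i), h1, unact_act]
    · rw [if_neg hb, if_neg hb] at h1
      exact h1

def G (p : Bool) (b : Fin 3) (x : ℕ → A) (i : ℕ) : A :=
  if (i + p.toNat) % 2 = 0 then untick (E (x (i + 1)) b) (x i)
  else if b = 2 then unact (x (i + 1)).2.2.2 (x i) else x i

theorem col_G (p : Bool) (b : Fin 3) (x : ℕ → A) (i : ℕ) : col (G p b x i) = col (x i) := by
  unfold G
  split_ifs
  · rfl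
  · exact col_unact _ _
  · rfl

theorem untick_two (c : Bool) (a : A) (h : dig a = 0) : (untick c a).2.2.2 = a.2.2.2 := by
  revert c a; decide

theorem Rec.surj {p : Bool} {b : Fin 3} {x : ℕ → A} (hx : Rec p (b + 1) x) :
    ∃ y, Rec p b y ∧ OneSided.F y = x := by
  have hr : Rec p b (G p b x) := by
    refine ⟨fun i hi => ⟨?_, ?_⟩, fun i hi hl => hx.2 i hi ((lev_congr (col_G p b x) i).1 hl)⟩
    · rw [col_G, col_G]; exact (hx.1 i hi).1
    · unfold G
      rw [if_pos hi, dig_untick, (hx.1 i hi).2, add_sub_cancel_right]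
  refine ⟨G p b x, hr, ?_⟩
  funext i
  by_cases hi : (i + p.toNat) % 2 = 0
  · rw [hr.F_even hi]
    have hE : E (G p b x (i + 1)) b = E (x (i + 1)) b := by
      by_cases hb : b = 2
      · subst hb; rfl
      · unfold G
        rw [if_neg (by omega), if_neg hb]
    rw [hE]
    unfold G
    rw [if_pos hi, tick_untick]
  · rw [hr.F_odd (by omega)]
    by_cases hb : b = 2
    · subst hb
      have h1 : (G p 2 x (i + 1)).2.2.2 = (x (i + 1)).2.2.2 := by
        unfold G
        rw [if_pos (by omega)]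
        exact untick_two _ _ (hx.1 (i + 1) (by omega)).2
      rw [if_pos rfl, h1]
      unfold G
      rw [if_neg hi, if_pos rfl, act_unact]
    · rw [if_neg hb]
      unfold G
      rw [if_neg hi, if_neg hb]

/-- rows which have `k` coarser rows above them -/
def Good : ℕ → Bool → Fin 3 → (ℕ → A) → Prop
  | 0, p, b, x => Rec p b x
  | k + 1, p, b, x => ∃ p' b' y, Good k p' b' y ∧ x = Enc p b p' b' y

theorem Good.toRec : ∀ {k : ℕ} {p : Bool} {b : Fin 3} {x : ℕ → A}, Good k p b x → Rec p b x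
  | 0, _, _, _, h => h
  | _ + 1, p, b, _, ⟨_, _, _, hy, hx⟩ => hx ▸ rec_Enc p b hy.toRec

theorem sh_Enc_false (b : Fin 3) (p' : Bool) (b' : Fin 3) (y : ℕ → A) :
    sh (Enc false b p' b' y) = Enc true b p' b' y := by
  funext i; rfl

theorem sh_Enc_true (b : Fin 3) (p' : Bool) (b' : Fin 3) (y : ℕ → A) :
    sh (Enc true b p' b' y) = Enc false b (!p') b' (sh y) := by
  funext i
  show Enc true b p' b' y (i + 1) = _
  by_cases hi : i % 2 = 0
  · obtain ⟨j, hj⟩ : ∃ j, i = 2 * j := ⟨i / 2, by omega⟩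
    rw [Enc_even (j := j + 1) (by simp; omega), Enc_even (j := j) (by simp; omega)]
    congr 1
    cases p' <;> simp
    omega
  · obtain ⟨j, hj⟩ : ∃ j, i = 2 * j + 1 := ⟨i / 2, by omega⟩
    rw [Enc_odd (j := j + 1) (by simp; omega), Enc_odd (j := j) (by simp; omega)]
    rfl

theorem Good.sh : ∀ {k : ℕ} {p : Bool} {b : Fin 3} {x : ℕ → A}, Good k p b x →
    Good k (!p) b (sh x)
  | 0, _, _, _, h => Rec.sh h
  | _ + 1, false, b, _, ⟨p', b', y, hy, hx⟩ => ⟨p', b', y, hy, by rw [hx, sh_Enc_false]; rfl⟩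
  | _ + 1, true, b, _, ⟨p', b', y, hy, hx⟩ =>
      ⟨!p', b', OneSided.sh y, hy.sh, by rw [hx, sh_Enc_true]; rfl⟩

theorem Good.F : ∀ {k : ℕ} {p : Bool} {b : Fin 3} {x : ℕ → A}, Good k p b x →
    Good k p (b + 1) (F x)
  | 0, _, _, _, h => Rec.F h
  | _ + 1, p, b, _, ⟨p', b', y, hy, hx⟩ => by
      by_cases hb : b = 2
      · subst hb
        exact ⟨p', b' + 1, OneSided.F y, hy.F, by rw [hx, F_Enc_two p hy.toRec]; rfl⟩
      · exact ⟨p', b', y, hy, by rw [hx, F_Enc_of_ne p hy.toRec hb]⟩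

theorem Good.surj : ∀ {k : ℕ} {p : Bool} {b : Fin 3} {x : ℕ → A}, Good k p (b + 1) x →
    ∃ y, Good k p b y ∧ OneSided.F y = x
  | 0, _, _, _, h => Rec.surj h
  | k + 1, p, b, _, ⟨p', b', y, hy, hx⟩ => by
      by_cases hb : b = 2
      · subst hb
        have hy' : Good k p' (b' - 1 + 1) y := by rwa [sub_add_cancel]
        obtain ⟨z, hz, hzy⟩ := hy'.surj
        refine ⟨Enc p 2 p' (b' - 1) z, ⟨p', b' - 1, z, hz, rfl⟩, ?_⟩
        rw [F_Enc_two p hz.toRec, hzy, sub_add_cancel, hx]; rfl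
      · exact ⟨Enc p b p' b' y, ⟨p', b', y, hy, rfl⟩, by rw [F_Enc_of_ne p hy.toRec hb, hx]⟩

theorem Enc_congr {p : Bool} {b : Fin 3} {p' : Bool} {b' : Fin 3} {y z : ℕ → A} {n : ℕ}
    (h : y ((n + p.toNat) / 2) = z ((n + p.toNat) / 2)) :
    Enc p b p' b' y n = Enc p b p' b' z n := by
  unfold Enc; rw [h]

theorem Enc_dec (p : Bool) (b : Fin 3) (p' : Bool) (b' : Fin 3) (y : ℕ → A) (j : ℕ) :
    Enc p b p' b' y (2 * j + 1 - p.toNat) = y j :=
  Enc_odd (by have := toNat_le p; omega)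

theorem Good.closed : ∀ {k : ℕ} {p : Bool} {b : Fin 3} {x : ℕ → A},
    (∀ m, ∃ y, Good k p b y ∧ ∀ i < m, y i = x i) → Good k p b x
  | 0, p, b, x, h => by
      refine ⟨fun i hi => ?_, fun i hi hl => ?_⟩
      · obtain ⟨y, hy, hxy⟩ := h (i + 3)
        rw [← hxy i (by omega), ← hxy (i + 2) (by omega)]
        exact hy.1 i hi
      · obtain ⟨y, hy, hxy⟩ := h (i + 7)
        apply hy.2 i hi
        unfold lev at hl ⊢
        rw [hxy i (by omega), hxy (i + 2) (by omega), hxy (i + 4) (by omega),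
          hxy (i + 6) (by omega)]
        exact hl
  | k + 1, p, b, x, h => by
      have hp := toNat_le p
      obtain ⟨y0, ⟨p', b', z0, hz0, hy0⟩, hxy0⟩ := h 14
      have key : ∀ m, ∃ z, Good k p' b' z ∧ (∀ i < m, z i = x (2 * i + 1 - p.toNat)) ∧
          ∀ i < m, Enc p b p' b' z i = x i := by
        intro m
        obtain ⟨y, ⟨q', c', z, hz, hy⟩, hxy⟩ := h (2 * m + 14)
        have hzx : ∀ i < m + 7, z i = x (2 * i + 1 - p.toNat) := by
          intro i hi
          rw [← hxy _ (by omega), hy, Enc_dec]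
        obtain ⟨h1, h2⟩ := hz.toRec.uniq hz0.toRec (fun i hi => by
          rw [hzx i (by omega), ← hxy0 _ (by omega), hy0, Enc_dec])
        subst h1 h2
        exact ⟨z, hz, fun i hi => hzx i (by omega), fun i hi => by
          rw [← hy]; exact hxy i (by omega)⟩
      refine ⟨p', b', fun i => x (2 * i + 1 - p.toNat), Good.closed fun m => ?_, ?_⟩
      · obtain ⟨z, hz, h1, -⟩ := key m
        exact ⟨z, hz, h1⟩
      · funext n
        obtain ⟨z, -, h1, h2⟩ := key (n + 1)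
        rw [← h2 n (by omega)]
        exact Enc_congr (h1 _ (by omega))

def cst (n : ℕ) : Fin 3 := ⟨n % 3, Nat.mod_lt _ (by norm_num)⟩

theorem cst_zero : cst 0 = 0 := rfl

theorem cst_succ (n : ℕ) : cst (n + 1) = cst n + 1 := by
  apply Fin.ext
  rw [Fin.val_add]
  show (n + 1) % 3 = (n % 3 + 1) % 3
  omega

theorem Good.iter {k : ℕ} {p : Bool} {b : Fin 3} {x : ℕ → A} (h : Good k p b x) (n : ℕ) :
    Good k p (b + cst n) (OneSided.F^[n] x) := by
  induction n with
  | zero => simpa [cst_zero] using h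
  | succ n ih =>
    rw [Function.iterate_succ_apply', cst_succ, ← add_assoc]
    exact ih.F

theorem iter_Enc (p : Bool) (b : Fin 3) {p' : Bool} {b' : Fin 3} {y : ℕ → A}
    (hy : Rec p' b' y) (n : ℕ) :
    F^[n] (Enc p b p' b' y) =
      Enc p (b + cst n) p' (b' + cst ((b.val + n) / 3)) (F^[(b.val + n) / 3] y) := by
  induction n with
  | zero =>
    have : (b.val + 0) / 3 = 0 := by have := b.isLt; omega
    rw [this]; simp [cst_zero]
  | succ n ih =>
    have hy' : Rec p' (b' + cst ((b.val + n) / 3)) (F^[(b.val + n) / 3] y) :=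
      (Good.iter (k := 0) hy _)
    rw [Function.iterate_succ_apply', ih]
    have hv : (b + cst n).val = (b.val + n) % 3 := by
      rw [Fin.val_add]
      show (b.val + n % 3) % 3 = _
      omega
    by_cases hb : b + cst n = 2
    · have h3 : (b.val + n) % 3 = 2 := by rw [← hv, hb]; rfl
      have h4 : (b.val + (n + 1)) / 3 = (b.val + n) / 3 + 1 := by omega
      rw [h4, Function.iterate_succ_apply', cst_succ, cst_succ, ← add_assoc,
        ← add_assoc, hb, F_Enc_two p hy']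
      rfl
    · have h3 : (b.val + n) % 3 ≠ 2 := by
        intro h3; apply hb; apply Fin.ext; rw [hv, h3]; rfl
      have h4 : (b.val + (n + 1)) / 3 = (b.val + n) / 3 := by omega
      rw [h4, F_Enc_of_ne p hy' hb, cst_succ, add_assoc]

/-- the radius bound -/
theorem Good.radius : ∀ {k : ℕ} {p : Bool} {b : Fin 3} {x x' : ℕ → A}, Good k p b x →
    Good k p b x' → (∀ i < 8 * 2 ^ k, x i = x' i) → ∀ n ≤ 3 ^ k,
    OneSided.F^[n] x 0 = OneSided.F^[n] x' 0
  | 0, p, b, x, x', _, _, h, n, hn => by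
      have hn' : n = 0 ∨ n = 1 := by simp at hn; omega
      rcases hn' with rfl | rfl
      · exact h 0 (by norm_num)
      · show OneSided.F x 0 = OneSided.F x' 0
        have hl : lev x 0 ↔ lev x' 0 := by
          unfold lev
          rw [h 0 (by omega), h (0 + 4) (by omega), h (0 + 2) (by omega), h (0 + 6) (by omega)]
        unfold OneSided.F
        rw [h 0 (by omega), h (0 + 1) (by omega)]
        by_cases h1 : lev x 0
        · rw [if_pos h1, if_pos (hl.1 h1)]
        · rw [if_neg h1, if_neg (fun h2 => h1 (hl.2 h2))]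
  | k + 1, p, b, x, x', ⟨p', b', y, hy, hx⟩, ⟨q', c', y', hy', hx'⟩, h, n, hn => by
      have hp := toNat_le p
      have hpos : 0 < 2 ^ k := by positivity
      have hyy : ∀ i < 8 * 2 ^ k, y i = y' i := by
        intro i hi
        rw [← Enc_dec p b p' b' y i, ← Enc_dec p b q' c' y' i, ← hx, ← hx']
        apply h
        rw [pow_succ]; omega
      obtain ⟨h1, h2⟩ := hy.toRec.uniq hy'.toRec (fun i hi => hyy i (by omega))
      subst h1 h2
      rw [hx, hx', iter_Enc p b hy.toRec, iter_Enc p b hy'.toRec]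
      apply Enc_congr
      rw [show (0 + p.toNat) / 2 = 0 by omega]
      apply Good.radius hy hy' hyy
      have := b.isLt
      rw [pow_succ] at hn
      omega

def All (p : Bool) (b : Fin 3) (x : ℕ → A) : Prop := ∀ k, Good k p b x

theorem All.enc (p : Bool) (b : Fin 3) {p' : Bool} {b' : Fin 3} {y : ℕ → A} (hy : All p' b' y) :
    All p b (Enc p b p' b' y)
  | 0 => rec_Enc p b (hy 0)
  | k + 1 => ⟨p', b', y, hy k, rfl⟩

/-- a row which is its own coarse row -/
def star (a : A) (n : ℕ) : A :=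
  if h : n = 0 then a
  else if n % 2 = 1 then W (decide (((n + 1) / 2 + 1) % 2 = 1)) 1 1 a
  else star a (n / 2)
termination_by n
decreasing_by omega

theorem W_one (s : Bool) (a a' : A) : W s 1 1 a = W s 1 1 a' := by
  cases s <;> rfl

theorem star_zero (a : A) : star a 0 = a := by rw [star]; simp

theorem star_eq (a : A) : star a = Enc true 1 true 1 (star a) := by
  funext n
  by_cases hn : n % 2 = 1
  · obtain ⟨j, hj⟩ : ∃ j, n + 1 = 2 * j := ⟨(n + 1) / 2, by omega⟩
    rw [Enc_even (j := j) (by simpa using hj), star, dif_neg (by omega), if_pos hn,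
      show (n + 1) / 2 = j by omega]
    exact W_one _ _ _
  · rw [Enc_odd (j := n / 2) (by simp; omega)]
    by_cases h0 : n = 0
    · subst h0; rfl
    · conv_lhs => rw [star, dif_neg h0, if_neg hn]

theorem all_star (a : A) : All true 1 (star a) := by
  have h1 : Alt true 1 (star a) := by rw [star_eq]; exact alt_Enc _ _ _ _ _
  have h2 : NL true (star a) := by rw [star_eq]; exact nl_Enc _ _ h1
  intro k
  induction k with
  | zero => exact ⟨h1, h2⟩
  | succ k ih => exact ⟨true, 1, star a, ih, star_eq a⟩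

theorem unb_base : ∃ (p : Bool) (b : Fin 3) (x x' : ℕ → A), All p b x ∧ All p b x' ∧
    (∀ i ≤ 1, x i = x' i) ∧ ∃ n, F^[n] x 0 ≠ F^[n] x' 0 := by
  let a0 : A := (false, 0, 0, false, false)
  let z : ℕ → A := sh (star a0)
  let z' : ℕ → A := star (z 0)
  have hz : All false 1 z := fun k => (all_star a0 k).sh
  have hz' : All true 1 z' := all_star _
  have h0 : z 0 = z' 0 := (star_zero _).symm
  have hF : F z 0 ≠ F z' 0 := by
    have r : Rec false 1 z := hz 0
    have r' : Rec true 1 z' := hz' 0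
    rw [r.F_even (by simp), r'.F_odd (by simp), if_neg (by decide), ← h0]
    intro h
    have h1 := congrArg dig h
    rw [dig_tick, (r.1 0 (by simp)).2] at h1
    exact absurd h1 (by decide)
  have hy := hz.enc true 1
  have hy' := hz'.enc true 1
  refine ⟨true, 0, _, _, hy.enc true 0, hy'.enc true 0, ?_, 6, ?_⟩
  · intro i hi
    have hi' : i = 0 ∨ i = 1 := by omega
    rcases hi' with rfl | rfl
    · rw [Enc_odd (j := 0) rfl, Enc_odd (j := 0) rfl, Enc_odd (j := 0) rfl, Enc_odd (j := 0) rfl]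
      exact h0
    · rw [Enc_even (j := 1) rfl, Enc_even (j := 1) rfl]
      rfl
  · rw [iter_Enc true 0 (hy 0), iter_Enc true 0 (hy' 0), Enc_odd (j := 0) rfl,
      Enc_odd (j := 0) rfl]
    show F^[2] _ 0 ≠ F^[2] _ 0
    rw [iter_Enc true 1 (hz 0), iter_Enc true 1 (hz' 0), Enc_odd (j := 0) rfl,
      Enc_odd (j := 0) rfl]
    exact hF

theorem unb (k : ℕ) : ∃ (p : Bool) (b : Fin 3) (x x' : ℕ → A), All p b x ∧ All p b x' ∧
    (∀ i ≤ 2 ^ k, x i = x' i) ∧ ∃ n, F^[n] x 0 ≠ F^[n] x' 0 := by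
  induction k with
  | zero => simpa using unb_base
  | succ k ih =>
    obtain ⟨p, b, y, y', hy, hy', h, n, hn⟩ := ih
    refine ⟨true, 0, _, _, hy.enc true 0, hy'.enc true 0, fun i hi => ?_, 3 * n, ?_⟩
    · apply Enc_congr
      apply h
      rw [pow_succ] at hi
      simp only [Bool.toNat_true]
      omega
    · rw [iter_Enc true 0 (hy 0), iter_Enc true 0 (hy' 0), Enc_odd (j := 0) rfl,
        Enc_odd (j := 0) rfl]
      have : ((0 : Fin 3).val + 3 * n) / 3 = n := by simp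
      rw [this]
      exact hn

def X : Set (ℕ → A) := {x | ∃ p b, All p b x}

theorem X_closed (x : ℕ → A) (h : ∀ m : ℕ, ∃ y ∈ X, ∀ i < m, y i = x i) : x ∈ X := by
  obtain ⟨y0, ⟨p, b, hy0⟩, h0⟩ := h 7
  refine ⟨p, b, fun k => Good.closed fun m => ?_⟩
  obtain ⟨y, ⟨q, c, hy⟩, h1⟩ := h (m + 7)
  obtain ⟨h2, h3⟩ := (hy 0).toRec.uniq (hy0 0).toRec (fun i hi => by
    rw [h1 i (by omega), h0 i (by omega)])
  subst h2 h3
  exact ⟨y, hy k, fun i hi => h1 i (by omega)⟩

theorem X_sh {x : ℕ → A} (h : x ∈ X) : sh x ∈ X := by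
  obtain ⟨p, b, hx⟩ := h
  exact ⟨!p, b, fun k => (hx k).sh⟩

theorem X_F {x : ℕ → A} (h : x ∈ X) : F x ∈ X := by
  obtain ⟨p, b, hx⟩ := h
  exact ⟨p, b + 1, fun k => (hx k).F⟩

theorem X_inj {x y : ℕ → A} (hx : x ∈ X) (hy : y ∈ X) (h : F x = F y) : x = y := by
  obtain ⟨p, b, hx⟩ := hx
  obtain ⟨q, c, hy⟩ := hy
  exact (hx 0).toRec.inj (hy 0).toRec h

theorem X_surj {x : ℕ → A} (h : x ∈ X) : ∃ y ∈ X, F y = x := by
  obtain ⟨p, b, hx⟩ := h
  have hx' : ∀ k, Good k p (b - 1 + 1) x := by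
    intro k; rw [sub_add_cancel]; exact hx k
  obtain ⟨y, hy, hyx⟩ := (hx' 0).surj
  refine ⟨y, ⟨p, b - 1, fun k => ?_⟩, hyx⟩
  obtain ⟨z, hz, hzx⟩ := (hx' k).surj
  rw [hy.toRec.inj hz.toRec (hyx.trans hzx.symm)]
  exact hz

theorem X_radius (k : ℕ) {x y : ℕ → A} (hx : x ∈ X) (hy : y ∈ X)
    (h : ∀ i < 8 * 2 ^ k, x i = y i) {n : ℕ} (hn : n ≤ 3 ^ k) : F^[n] x 0 = F^[n] y 0 := by
  obtain ⟨p, b, hx⟩ := hx
  obtain ⟨q, c, hy⟩ := hy
  have hpos : 0 < 2 ^ k := by positivity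
  obtain ⟨h2, h3⟩ := (hx 0).toRec.uniq (hy 0).toRec (fun i hi => h i (by omega))
  subst h2 h3
  exact Good.radius (hx k) (hy k) h n hn

theorem X_unb (R : ℕ) : ∃ n : ℕ, ∃ x ∈ X, ∃ y ∈ X,
    (∀ i ≤ R, x i = y i) ∧ F^[n] x 0 ≠ F^[n] y 0 := by
  obtain ⟨p, b, x, y, hx, hy, h, n, hn⟩ := unb R
  have : R < 2 ^ R := Nat.lt_two_pow_self
  exact ⟨n, x, ⟨p, b, hx⟩, y, ⟨p, b, hy⟩, fun i hi => h i (by omega), hn⟩

theorem X_sublinear (ε : ℝ) (hε : 0 < ε) : ∃ N : ℕ, ∀ n ≥ N, ∃ r : ℕ, (r : ℝ) ≤ ε * n ∧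
    ∀ x ∈ X, ∀ y ∈ X, (∀ i ≤ r, x i = y i) → F^[n] x 0 = F^[n] y 0 := by
  obtain ⟨K, hK⟩ := exists_pow_lt_of_lt_one (x := ε / 24) (y := (2 / 3 : ℝ)) (by positivity)
    (by norm_num)
  refine ⟨3 ^ K + 1, fun n hn => ?_⟩
  have hpos : 0 < 3 ^ K := by positivity
  set k := Nat.clog 3 n with hk
  have h1 : n ≤ 3 ^ k := Nat.le_pow_clog (by norm_num) n
  have h2 : 3 ^ (k - 1) < n := Nat.pow_pred_clog_lt_self (by norm_num) (by omega)
  have h3 : K < k := by
    by_contra h3
    have : 3 ^ k ≤ 3 ^ K := Nat.pow_le_pow_right (by norm_num) (by omega)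
    omega
  refine ⟨8 * 2 ^ k, ?_, fun x hx y hy h => X_radius k hx hy (fun i hi => h i hi.le) h1⟩
  have h4 : (2 / 3 : ℝ) ^ k ≤ (2 / 3 : ℝ) ^ K :=
    pow_le_pow_of_le_one (by norm_num) (by norm_num) h3.le
  have h5 : (3 : ℝ) ^ k ≤ 3 * n := by
    have h6 : 3 ^ k ≤ 3 * n := by
      have : k = (k - 1) + 1 := by omega
      rw [this, pow_succ]; omega
    exact_mod_cast h6
  have h7 : (2 : ℝ) ^ k = (2 / 3 : ℝ) ^ k * 3 ^ k := by
    rw [← mul_pow]; norm_num
  push_cast
  rw [h7]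
  have h8 : (0 : ℝ) < 3 ^ k := by positivity
  have h9 : (2 / 3 : ℝ) ^ k * 3 ^ k ≤ ε / 24 * (3 * n) :=
    mul_le_mul (h4.trans hK.le) h5 h8.le (by positivity)
  linarith

end H593Z.OneSided
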