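import Mathlib

set_option autoImplicit false

/-!
Rows of cells whose time is a self-similar group.  A fine row simulates a coarse row of the same
kind; information only travels from right to left.
-/

namespace H593Z.Sim

open Classical

inductive Role (Col NN : Type) where
  | S (x : Col)
  | V (x : Col)
  | IR (x : Col) (n : NN)
  | O (x : Col) (n : NN) (t : Fin 4)
  | W (x : Col)
  | Rr
  | Dg (x : Col)

def Role.stage {Col NN : Type} : Role Col NN → ℕ
  | .S _ => 0
  | .V _ => 1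
  | .IR _ _ => 2
  | .O _ _ _ => 3
  | .W _ => 4
  | .Rr => 5
  | .Dg _ => 6

inductive Fid (NN TH : Type) where
  | keep
  | exec
  | copy
  | move (n : NN)
  | wire (d : TH)
  | pick (n : NN) (t : Fin 4) (d : TH)
  | eval (n : NN) (d : TH)

inductive Val (NN TH PP DD : Type) where
  | blank
  | role (p : PP)
  | dig (d : DD)
  | fid (f : Fid NN TH)

def PL (B : ℕ) : ℕ := 2 * B + 2
def LL (B : ℕ) : ℕ := B * PL B
def rS (B : ℕ) : ℕ := LL B + 1
def cap (B : ℕ) : ℕ := LL B + 3

structure Setup (G C Col : Type) [Group G] [MulAction G C] [MulAction G Col] where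
  sec : G → C → G
  sec_one : ∀ c, sec 1 c = 1
  sec_mul : ∀ g h c, sec (g * h) c = sec g (h • c) * sec h c
  col : C → Col
  col_smul : ∀ (g : G) c, col (g • c) = g • col c
  Bl : ℕ → G → Prop
  bl_one : Bl 0 1
  bl_succ : ∀ l g, Bl l g → Bl (l + 1) g
  bl_mul : ∀ l l' g g', Bl l g → Bl l' g' → Bl (l + l') (g * g')
  bl_inv : ∀ l g, Bl l g → Bl l g⁻¹
  free : ∀ (n n' : G) (x : Col), Bl 1 n → Bl 1 n' → n • x = n' • x → n = n'
  B : ℕ
  pos : Role Col {g // Bl 1 g} → ℕ
  pos_lt : ∀ r, pos r < B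
  pos_inj : Function.Injective pos
  pos_stage : ∀ r r', r.stage < r'.stage → pos r < pos r'
  contr : ∀ g c, Bl (2 * cap B) g → Bl 1 (sec g c)

namespace Setup

variable {G C Col : Type} [Group G] [MulAction G C] [MulAction G Col] (S : Setup G C Col)

abbrev NN := {g // S.Bl 1 g}
abbrev TH := Fin (cap S.B + 1)
abbrev Q := Val S.NN S.TH (ZMod S.B) (C × Col)

theorem B_pos : 0 < S.B := lt_of_le_of_lt (Nat.zero_le _) (S.pos_lt .Rr)

instance : NeZero S.B := ⟨S.B_pos.ne'⟩

theorem bl_le {l l' : ℕ} {g : G} (h : S.Bl l g) (hl : l ≤ l') : S.Bl l' g := by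
  induction hl with
  | refl => exact h
  | step _ ih => exact S.bl_succ _ _ ih

theorem contr' {l : ℕ} {g : G} (h : S.Bl l g) (hl : l ≤ 2 * cap S.B) (c : C) :
    S.Bl 1 (S.sec g c) := S.contr g c (S.bl_le h hl)

def dact (g : G) (D : C × Col) : C × Col := (g • D.1, S.sec g D.1 • D.2)

theorem dact_one (D : C × Col) : S.dact 1 D = D := by
  unfold dact; rw [one_smul, S.sec_one, one_smul]

theorem dact_mul (g h : G) (D : C × Col) : S.dact (g * h) D = S.dact g (S.dact h D) := by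
  unfold dact; rw [mul_smul, S.sec_mul, mul_smul]

theorem sec_inv (g : G) (c : C) : S.sec g⁻¹ (g • c) = (S.sec g c)⁻¹ := by
  have h := S.sec_mul g⁻¹ g c
  rw [inv_mul_cancel, S.sec_one] at h
  exact eq_inv_of_mul_eq_one_left h.symm

def Near (D : C × Col) (x : Col) (l : ℕ) : Prop := ∃ g, S.Bl l g ∧ (S.dact g D).2 = x

noncomputable def d (D : C × Col) (x : Col) : ℕ :=
  Nat.find (p := fun l => S.Near D x l ∨ cap S.B ≤ l) ⟨cap S.B, Or.inr le_rfl⟩

theorem d_le_cap (D : C × Col) (x : Col) : S.d D x ≤ cap S.B :=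
  Nat.find_min' _ (Or.inr le_rfl)

theorem d_le {D : C × Col} {x : Col} {l : ℕ} (h : S.Near D x l) : S.d D x ≤ l :=
  Nat.find_min' _ (Or.inl h)

theorem near_d {D : C × Col} {x : Col} (h : S.d D x < cap S.B) : S.Near D x (S.d D x) := by
  rcases Nat.find_spec (p := fun l => S.Near D x l ∨ cap S.B ≤ l)
    ⟨cap S.B, Or.inr le_rfl⟩ with h1 | h1
  · exact h1
  · exact absurd h1 (not_le.2 h)

theorem d_self (D : C × Col) : S.d D D.2 = 0 :=
  Nat.le_zero.1 (S.d_le ⟨1, S.bl_one, by rw [S.dact_one]⟩)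

theorem d_back {n : G} (hn : S.Bl 1 n) (D : C × Col) (x : Col) :
    S.d D x ≤ S.d (S.dact n D) x + 1 := by
  by_cases h : S.d (S.dact n D) x < cap S.B
  · obtain ⟨g, hg, hx⟩ := S.near_d h
    exact S.d_le ⟨g * n, S.bl_mul _ _ _ _ hg hn, by rw [S.dact_mul, hx]⟩
  · have := S.d_le_cap D x
    omega

theorem d_forth {n : G} (hn : S.Bl 1 n) (D : C × Col) (x : Col) :
    S.d (S.dact n D) x ≤ S.d D x + 1 := by
  have := S.d_back (S.bl_inv _ _ hn) (S.dact n D) x
  rwa [← S.dact_mul, inv_mul_cancel, S.dact_one] at this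

noncomputable def dd (D : C × Col) (x : Col) : S.TH :=
  ⟨S.d D x, Nat.lt_succ_of_le (S.d_le_cap D x)⟩

noncomputable def rel (x y : Col) : S.NN :=
  if h : ∃ n : S.NN, n.1 • x = y then h.choose else ⟨1, S.bl_succ _ _ S.bl_one⟩

theorem rel_eq {x y : Col} {n : G} (hn : S.Bl 1 n) (h : n • x = y) : (S.rel x y).1 = n := by
  have hex : ∃ n : S.NN, n.1 • x = y := ⟨⟨n, hn⟩, h⟩
  unfold rel
  rw [dif_pos hex]
  exact S.free _ _ x hex.choose.2 hn (hex.choose_spec.trans h.symm)

theorem rel_self (x : Col) : (S.rel x x).1 = 1 :=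
  S.rel_eq (S.bl_succ _ _ S.bl_one) (one_smul _ _)

/-- stability of the tile of a given colour under one move -/
theorem rel_move {n : G} (hn : S.Bl 1 n) {D : C × Col} {x : Col} (h : S.d D x < cap S.B) :
    (S.rel (S.dact n D).2 x).1 * S.sec n D.1 = (S.rel D.2 x).1 := by
  obtain ⟨g, hg, hx⟩ := S.near_d h
  have h1 : (S.rel D.2 x).1 = S.sec g D.1 := S.rel_eq (S.contr' hg (by omega) _) hx
  have h2 : S.Bl 1 (S.sec (g * n⁻¹) (n • D.1)) :=
    S.contr' (S.bl_mul _ _ _ _ hg (S.bl_inv _ _ hn)) (by omega) _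
  have h3 : S.sec (g * n⁻¹) (n • D.1) = S.sec g D.1 * (S.sec n D.1)⁻¹ := by
    rw [S.sec_mul, inv_smul_smul, S.sec_inv]
  have h4 : (S.rel (S.dact n D).2 x).1 = S.sec (g * n⁻¹) (n • D.1) := by
    apply S.rel_eq h2
    rw [h3, ← hx]
    show _ • (S.sec n D.1 • D.2) = S.sec g D.1 • D.2
    rw [← mul_smul, inv_mul_cancel_right]
  rw [h4, h3, h1, inv_mul_cancel_right]

theorem rel_comp {D : C × Col} {x y : Col} (hx : S.d D x < cap S.B) (hy : S.d D y < cap S.B) :
    (S.rel x y).1 * (S.rel D.2 x).1 = (S.rel D.2 y).1 := by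
  obtain ⟨g, hg, hgx⟩ := S.near_d hx
  obtain ⟨k, hk, hky⟩ := S.near_d hy
  have h1 : (S.rel D.2 x).1 = S.sec g D.1 := S.rel_eq (S.contr' hg (by omega) _) hgx
  have h1' : (S.rel D.2 y).1 = S.sec k D.1 := S.rel_eq (S.contr' hk (by omega) _) hky
  have h2 : S.Bl 1 (S.sec (k * g⁻¹) (g • D.1)) :=
    S.contr' (S.bl_mul _ _ _ _ hk (S.bl_inv _ _ hg)) (by omega) _
  have h3 : S.sec (k * g⁻¹) (g • D.1) = S.sec k D.1 * (S.sec g D.1)⁻¹ := by
    rw [S.sec_mul, inv_smul_smul, S.sec_inv]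
  have h4 : (S.rel x y).1 = S.sec (k * g⁻¹) (g • D.1) := by
    apply S.rel_eq h2
    rw [h3, ← hgx, ← hky]
    show _ • (S.sec g D.1 • D.2) = S.sec k D.1 • D.2
    rw [← mul_smul, inv_mul_cancel_right]
  rw [h4, h3, h1, h1', inv_mul_cancel_right]

/-- distance to the next cell to the right in a given residue class -/
def dist (p f : ZMod S.B) : ℕ := (f - p - 1).val + 1

theorem dist_pos (p f : ZMod S.B) : 1 ≤ S.dist p f := Nat.le_add_left _ _

theorem dist_le (p f : ZMod S.B) : S.dist p f ≤ S.B := Nat.succ_le_of_lt (ZMod.val_lt _)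

theorem add_dist (p f : ZMod S.B) : p + (S.dist p f : ZMod S.B) = f := by
  unfold dist
  push_cast
  rw [ZMod.natCast_zmod_val]
  ring

theorem dist_eq {p f : ZMod S.B} {j : ℕ} (h1 : 1 ≤ j) (h2 : j ≤ S.B)
    (h : p + (j : ZMod S.B) = f) : S.dist p f = j := by
  obtain ⟨k, rfl⟩ : ∃ k, j = k + 1 := ⟨j - 1, by omega⟩
  unfold dist
  have : f - p - 1 = (k : ZMod S.B) := by
    rw [← h]; push_cast; ring
  rw [this, ZMod.val_natCast, Nat.mod_eq_of_lt (by omega)]

theorem dist_succ {p f : ZMod S.B} (h : S.dist p f ≠ 1) : S.dist (p + 1) f + 1 = S.dist p f := by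
  have h1 := S.dist_pos p f
  have h2 := S.dist_le p f
  have h3 := S.add_dist p f
  rw [S.dist_eq (j := S.dist p f - 1) (by omega) (by omega)]
  · omega
  · rw [Nat.cast_sub h1]
    push_cast
    linear_combination h3

def nxt (i : ℤ) (f : ZMod S.B) : ℤ := i + S.dist (i : ZMod S.B) f

theorem nxt_succ {i : ℤ} {f : ZMod S.B} (h : S.dist (i : ZMod S.B) f ≠ 1) :
    S.nxt (i + 1) f = S.nxt i f := by
  unfold nxt
  have := S.dist_succ h
  push_cast
  omega

theorem cast_cell (i : ℤ) (p : ℕ) : (((S.B : ℤ) * i + p : ℤ) : ZMod S.B) = (p : ZMod S.B) := by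
  push_cast
  rw [ZMod.natCast_self]
  ring

theorem nxt_same (i : ℤ) {p p' : ℕ} (h : p < p') (h' : p' < S.B) :
    S.nxt ((S.B : ℤ) * i + p) (p' : ZMod S.B) = (S.B : ℤ) * i + p' := by
  unfold nxt
  rw [S.cast_cell, S.dist_eq (j := p' - p) (by omega) (by omega)]
  · push_cast [h.le]; ring
  · rw [Nat.cast_sub h.le]; ring

theorem nxt_next (i : ℤ) {p p' : ℕ} (h : p' ≤ p) (h' : p < S.B) :
    S.nxt ((S.B : ℤ) * i + p) (p' : ZMod S.B) = (S.B : ℤ) * (i + 1) + p' := by
  unfold nxt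
  rw [S.cast_cell, S.dist_eq (j := S.B + p' - p) (by omega) (by omega)]
  · rw [Nat.cast_sub (by omega)]; push_cast; ring
  · rw [Nat.cast_sub (by omega)]
    push_cast
    rw [ZMod.natCast_self]
    ring

noncomputable def dec (p : ZMod S.B) : Option (Role Col S.NN) :=
  if h : ∃ r, S.pos r = p.val then some h.choose else none

theorem dec_pos (r : Role Col S.NN) : S.dec (S.pos r : ZMod S.B) = some r := by
  have hv : ((S.pos r : ℕ) : ZMod S.B).val = S.pos r := by
    rw [ZMod.val_natCast, Nat.mod_eq_of_lt (S.pos_lt r)]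
  have hex : ∃ r', S.pos r' = ((S.pos r : ℕ) : ZMod S.B).val := ⟨r, hv.symm⟩
  unfold dec
  rw [dif_pos hex, S.pos_inj (hex.choose_spec.trans hv)]

theorem dec_some {p : ZMod S.B} {r : Role Col S.NN} (h : S.dec p = some r) : S.pos r = p.val := by
  unfold dec at h
  split_ifs at h with hex
  rw [← Option.some.inj h]
  exact hex.choose_spec

noncomputable def cur (k : ℕ) (D : C × Col) (x : Col) : Col := if S.d D x ≤ k then x else D.2

def th (d : ℕ) : ℕ := rS S.B - d

def cls (t : ℕ) : ZMod S.B := ((t / PL S.B : ℕ) : ZMod S.B)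

def len (t : ℕ) : ℕ := min S.B (min (t % PL S.B) (PL S.B - t % PL S.B))

def pt (f : ZMod S.B) : ℕ := f.val * PL S.B + S.B + 1

noncomputable def baseR (D E : C × Col) : Role Col S.NN → Fid S.NN S.TH
  | .S x => if S.d E x ≤ rS S.B then (if S.d D x ≤ rS S.B then .keep else .exec) else .copy
  | .V _ => .exec
  | .IR x n => .eval n (S.dd E x)
  | .O x n t => .pick n t (S.dd E x)
  | .W x => .wire (S.dd E x)
  | .Rr => .keep
  | .Dg x => .move (S.rel (S.cur (rS S.B) D x) (S.cur (rS S.B) E x))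

noncomputable def lab (x y : Col) (t : Fin 4) : Role Col S.NN :=
  if t = 0 then .IR x (S.rel x y) else .O x (S.rel x y) t

noncomputable def tgtR (D E : C × Col) : Role Col S.NN → Fin 4 → Role Col S.NN
  | .S x, t => if S.d E x ≤ rS S.B then S.lab D.2 x t else .V E.2
  | .V x, t => S.lab (S.cur 1 D x) (S.cur 1 E x) t
  | .IR x n, t => if t = 1 then .O x n 0 else if t = 2 then .Rr else .Dg x
  | .O x _ _, t => if t = 1 then .W x else if t = 2 then .Rr else .Dg x
  | .W x, t => if t = 1 then .W x else if t = 2 then .Rr else .S x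
  | .Rr, _ => .Rr
  | .Dg _, _ => .Rr

noncomputable def base (p : ZMod S.B) (D E : C × Col) : Fid S.NN S.TH :=
  match S.dec p with
  | some r => S.baseR D E r
  | none => .keep

noncomputable def tgt (p : ZMod S.B) (D E : C × Col) (t : Fin 4) : ZMod S.B :=
  match S.dec p with
  | some r => (S.pos (S.tgtR D E r t) : ZMod S.B)
  | none => 0

noncomputable def app : S.Q → S.Q → S.Q → S.Q → S.Q → S.Q
  | .fid .keep, own, _, _, _ => own
  | .fid .copy, _, o1, _, _ => o1
  | .fid (.move n), .dig D, _, _, _ => .dig (S.dact n.1 D)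
  | .fid (.wire d), _, o1, .role p, o3 =>
      if S.dist p (S.cls (S.th d)) ≤ S.len (S.th d) then
        (if S.dist p (S.cls (S.th d)) = 1 then o3 else o1) else .blank
  | .fid (.pick n t d), own, o1, .role p, .dig D =>
      if S.th d < S.pt (S.tgt p D (S.dact n.1 D) t) then .blank
      else if S.th d = S.pt (S.tgt p D (S.dact n.1 D) t) then o1 else own
  | .fid (.eval n d), _, o1, .role p, .dig D =>
      if LL S.B ≤ S.th d then
        (if S.base p D (S.dact n.1 D) = .exec then o1 else .fid (S.base p D (S.dact n.1 D)))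
      else .blank
  | _, _, _, _, _ => .blank

noncomputable def RF (D E : C × Col) (row : ℤ → S.Q) (i : ℤ) : S.Q :=
  if S.base i D E = .exec then row (S.nxt i (S.tgt i D E 0)) else .fid (S.base i D E)

noncomputable def step (D E : C × Col) (row : ℤ → S.Q) (i : ℤ) : S.Q :=
  S.app (S.RF D E row i) (row i) (row (S.nxt i (S.tgt i D E 1))) (row (S.nxt i (S.tgt i D E 2)))
    (row (S.nxt i (S.tgt i D E 3)))

end Setup

end H593Z.Sim
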