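import Pool.Agent.H593Z.SimDefs

set_option autoImplicit false

namespace H593Z.Sim

open Classical

variable {G C Col : Type} [Group G] [MulAction G C] [MulAction G Col]

structure Sys (S : Setup G C Col) where
  T : Type
  act : G → T → T
  act_one : ∀ w, act 1 w = w
  act_mul : ∀ g h w, act (g * h) w = act g (act h w)
  dg : T → C × Col
  dg_act : ∀ g w, dg (act g w) = S.dact g (dg w)
  q : T → ℤ → S.Q
  law : ∀ n : G, S.Bl 1 n → ∀ w i, q (act n w) i = S.step (dg w) (S.dact n (dg w)) (q w) i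

namespace Setup

variable (S : Setup G C Col)

theorem app_blank (f : S.Q) : S.app f .blank .blank .blank .blank = .blank := by
  cases f with
  | fid f => cases f <;> rfl
  | _ => rfl

/-- the empty system -/
def sys0 : Sys S where
  T := C × Col
  act := S.dact
  act_one := S.dact_one
  act_mul := S.dact_mul
  dg := id
  dg_act := fun _ _ => rfl
  q := fun _ _ => .blank
  law := fun _ _ _ _ => (S.app_blank _).symm

theorem step_cell (D E : C × Col) (row : ℤ → S.Q) (i : ℤ) (r : Role Col S.NN) :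
    S.step D E row ((S.B : ℤ) * i + S.pos r) =
      S.app (if S.baseR D E r = .exec then
          row (S.nxt ((S.B : ℤ) * i + S.pos r) (S.pos (S.tgtR D E r 0) : ZMod S.B))
        else .fid (S.baseR D E r))
        (row ((S.B : ℤ) * i + S.pos r))
        (row (S.nxt ((S.B : ℤ) * i + S.pos r) (S.pos (S.tgtR D E r 1) : ZMod S.B)))
        (row (S.nxt ((S.B : ℤ) * i + S.pos r) (S.pos (S.tgtR D E r 2) : ZMod S.B)))
        (row (S.nxt ((S.B : ℤ) * i + S.pos r) (S.pos (S.tgtR D E r 3) : ZMod S.B))) := by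
  unfold step RF base tgt
  rw [S.cast_cell, S.dec_pos]

theorem step_fid (D E : C × Col) (row : ℤ → S.Q) (i : ℤ) (r r1 r2 r3 : Role Col S.NN)
    (f : Fid S.NN S.TH) (h : S.baseR D E r = f) (hf : f ≠ .exec) (h1 : S.tgtR D E r 1 = r1)
    (h2 : S.tgtR D E r 2 = r2) (h3 : S.tgtR D E r 3 = r3) :
    S.step D E row ((S.B : ℤ) * i + S.pos r) =
      S.app (.fid f) (row ((S.B : ℤ) * i + S.pos r))
        (row (S.nxt ((S.B : ℤ) * i + S.pos r) (S.pos r1 : ZMod S.B)))
        (row (S.nxt ((S.B : ℤ) * i + S.pos r) (S.pos r2 : ZMod S.B)))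
        (row (S.nxt ((S.B : ℤ) * i + S.pos r) (S.pos r3 : ZMod S.B))) := by
  rw [S.step_cell, if_neg (h ▸ hf), h, h1, h2, h3]

theorem step_idle (D E : C × Col) (row : ℤ → S.Q) (n : ℤ) (h : S.dec n = none) :
    S.step D E row n = row n := by
  have hb : S.base n D E = .keep := by unfold base; rw [h]
  unfold step RF
  rw [if_neg (by rw [hb]; simp), hb]
  rfl

theorem pt_le (f : ZMod S.B) : S.pt f + 1 ≤ LL S.B := by
  unfold pt LL
  have h1 : f.val + 1 ≤ S.B := Nat.succ_le_of_lt (ZMod.val_lt f)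
  have h2 : (f.val + 1) * PL S.B ≤ S.B * PL S.B := Nat.mul_le_mul_right _ h1
  have h3 : PL S.B = 2 * S.B + 2 := rfl
  rw [add_mul, one_mul] at h2
  omega

theorem cls_near {f : ZMod S.B} {t : ℕ} (h1 : S.pt f ≤ t + 1) (h2 : t ≤ S.pt f + 1) :
    S.cls t = f ∧ S.len t = S.B := by
  unfold pt at h1 h2
  have h3 : PL S.B = 2 * S.B + 2 := rfl
  have hB := S.B_pos
  obtain ⟨s, rfl⟩ : ∃ s, t = s + PL S.B * f.val := ⟨t - PL S.B * f.val, by
    rw [mul_comm] at h1; omega⟩
  have hs : s < PL S.B := by rw [mul_comm] at h2; omega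
  have hs1 : S.B ≤ s := by rw [mul_comm] at h1; omega
  have hs2 : s ≤ S.B + 2 := by rw [mul_comm] at h2; omega
  unfold cls len
  rw [Nat.add_mul_div_left _ _ (by omega), Nat.add_mul_mod_self_left, Nat.div_eq_of_lt hs,
    Nat.mod_eq_of_lt hs, zero_add, ZMod.natCast_zmod_val]
  exact ⟨rfl, by omega⟩

theorem cls_step {t t' : ℕ} (h1 : t ≤ t' + 1) (h2 : t' ≤ t + 1) (h : 2 ≤ S.len t') :
    S.cls t = S.cls t' ∧ S.len t' ≤ S.len t + 1 := by
  have h3 : PL S.B = 2 * S.B + 2 := rfl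
  have hP : 0 < PL S.B := by omega
  have hlt : t' % PL S.B < PL S.B := Nat.mod_lt _ hP
  have hdiv := Nat.div_add_mod t' (PL S.B)
  unfold len at h
  obtain ⟨s, hs⟩ : ∃ s, t = s + PL S.B * (t' / PL S.B) :=
    ⟨t - PL S.B * (t' / PL S.B), by omega⟩
  have hs1 : s < PL S.B := by omega
  have e1 : t / PL S.B = t' / PL S.B := by
    conv_lhs => rw [hs]
    rw [Nat.add_mul_div_left _ _ hP, Nat.div_eq_of_lt hs1, zero_add]
  have e2 : t % PL S.B = s := by
    conv_lhs => rw [hs]
    rw [Nat.add_mul_mod_self_left, Nat.mod_eq_of_lt hs1]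
  unfold cls len
  rw [e1, e2]
  exact ⟨rfl, by omega⟩

theorem len_zero : S.len 0 = 0 := by
  unfold len; simp

end Setup

namespace Sys

variable {S : Setup G C Col} (Y : Sys S)

def fD (u : C × Y.T) : C × Col := (u.1, S.col (Y.dg u.2).1)

def fact (g : G) (u : C × Y.T) : C × Y.T := (g • u.1, Y.act (S.sec g u.1) u.2)

theorem fD_act (g : G) (u : C × Y.T) : Y.fD (Y.fact g u) = S.dact g (Y.fD u) := by
  unfold fD fact Setup.dact
  simp only
  rw [Y.dg_act]
  unfold Setup.dact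
  simp only
  rw [S.col_smul]

/-- the nearby coarse time of colour `x` -/
noncomputable def tile (u : C × Y.T) (x : Col) : Y.T := Y.act (S.rel (Y.fD u).2 x).1 u.2

theorem tile_self (u : C × Y.T) : Y.tile u (Y.fD u).2 = u.2 := by
  unfold tile; rw [S.rel_self, Y.act_one]

theorem tile_move {n : G} (hn : S.Bl 1 n) {u : C × Y.T} {x : Col}
    (h : S.d (Y.fD u) x < cap S.B) : Y.tile (Y.fact n u) x = Y.tile u x := by
  unfold tile
  rw [Y.fD_act, ← S.rel_move hn h, Y.act_mul]
  rfl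

theorem tile_comp {u : C × Y.T} {x y : Col} (hx : S.d (Y.fD u) x < cap S.B)
    (hy : S.d (Y.fD u) y < cap S.B) : Y.act (S.rel x y).1 (Y.tile u x) = Y.tile u y := by
  unfold tile
  rw [← Y.act_mul, S.rel_comp hx hy]

noncomputable def valR (u : C × Y.T) (i : ℤ) : Role Col S.NN → S.Q
  | .S x => Y.q (Y.tile u (S.cur (rS S.B) (Y.fD u) x)) i
  | .V x => Y.q (Y.tile u (S.cur 1 (Y.fD u) x)) i
  | .IR x n =>
      if LL S.B ≤ S.th (S.d (Y.fD u) x) then
        S.RF (Y.dg (Y.tile u x)) (S.dact n.1 (Y.dg (Y.tile u x))) (Y.q (Y.tile u x)) i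
      else .blank
  | .O x n t =>
      if S.pt (S.tgt i (Y.dg (Y.tile u x)) (S.dact n.1 (Y.dg (Y.tile u x))) t) ≤
          S.th (S.d (Y.fD u) x) then
        Y.q (Y.tile u x)
          (S.nxt i (S.tgt i (Y.dg (Y.tile u x)) (S.dact n.1 (Y.dg (Y.tile u x))) t))
      else .blank
  | .W x =>
      if S.dist i (S.cls (S.th (S.d (Y.fD u) x))) ≤ S.len (S.th (S.d (Y.fD u) x)) then
        Y.q (Y.tile u x) (S.nxt i (S.cls (S.th (S.d (Y.fD u) x))))
      else .blank
  | .Rr => .role i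
  | .Dg x => .dig (Y.dg (Y.tile u (S.cur (rS S.B) (Y.fD u) x)))

noncomputable def fq (u : C × Y.T) (n : ℤ) : S.Q :=
  match S.dec n with
  | some r => Y.valR u (n / S.B) r
  | none => .blank

theorem fq_cell (u : C × Y.T) (i : ℤ) (r : Role Col S.NN) :
    Y.fq u ((S.B : ℤ) * i + S.pos r) = Y.valR u i r := by
  unfold fq
  rw [S.cast_cell, S.dec_pos]
  have hB : (0 : ℤ) < S.B := by exact_mod_cast S.B_pos
  have h1 : ((S.B : ℤ) * i + S.pos r) / S.B = i := by
    rw [add_comm, Int.add_mul_ediv_left _ _ hB.ne', Int.ediv_eq_zero_of_lt (by positivity)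
      (by exact_mod_cast S.pos_lt r), zero_add]
  rw [h1]

theorem read_same (u : C × Y.T) (i : ℤ) {r r' : Role Col S.NN} (h : r.stage < r'.stage) :
    Y.fq u (S.nxt ((S.B : ℤ) * i + S.pos r) (S.pos r' : ZMod S.B)) = Y.valR u i r' := by
  rw [S.nxt_same i (S.pos_stage _ _ h) (S.pos_lt _), fq_cell]

theorem read_next (u : C × Y.T) (i : ℤ) {r r' : Role Col S.NN} (h : S.pos r' ≤ S.pos r) :
    Y.fq u (S.nxt ((S.B : ℤ) * i + S.pos r) (S.pos r' : ZMod S.B)) = Y.valR u (i + 1) r' := by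
  rw [S.nxt_next i h (S.pos_lt _), fq_cell]

theorem exec_ok (u : C × Y.T) (i : ℤ) {x y : Col} (hx : S.d (Y.fD u) x ≤ 1)
    (hy : S.d (Y.fD u) y < cap S.B) :
    S.app (Y.valR u i (S.lab x y 0)) (Y.q (Y.tile u x) i) (Y.valR u i (S.lab x y 1))
      (Y.valR u i (S.lab x y 2)) (Y.valR u i (S.lab x y 3)) = Y.q (Y.tile u y) i := by
  have hth : LL S.B ≤ S.th (S.d (Y.fD u) x) := by unfold Setup.th rS; omega
  have hx' : S.d (Y.fD u) x < cap S.B := by unfold cap; omega
  have hpt : ∀ f, S.pt f ≤ S.th (S.d (Y.fD u) x) := fun f => by have := S.pt_le f; omega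
  rw [← Y.tile_comp hx' hy, Y.law _ (S.rel x y).2]
  unfold Setup.lab
  rw [if_pos rfl, if_neg (by decide), if_neg (by decide), if_neg (by decide)]
  simp only [valR]
  rw [if_pos hth, if_pos (hpt _), if_pos (hpt _), if_pos (hpt _)]
  rfl

theorem stage_lab (x y : Col) (t : Fin 4) : 2 ≤ (S.lab x y t).stage := by
  unfold Setup.lab
  split_ifs <;> simp [Role.stage]

theorem cur_d (k : ℕ) (D : C × Col) (x : Col) : S.d D (S.cur k D x) ≤ k := by
  unfold Setup.cur
  split_ifs with h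
  · exact h
  · rw [S.d_self]; exact Nat.zero_le _

section cases

variable {g : G} (hg : S.Bl 1 g) (u : C × Y.T) (i : ℤ)
include hg

theorem law_V (x : Col) : Y.valR (Y.fact g u) i (.V x) =
    S.step (Y.fD u) (S.dact g (Y.fD u)) (Y.fq u) ((S.B : ℤ) * i + S.pos (.V x)) := by
  rw [S.step_cell]
  simp only [Setup.baseR, Setup.tgtR, if_true]
  have hs : ∀ t, (Role.V x : Role Col S.NN).stage <
      (S.lab (S.cur 1 (Y.fD u) x) (S.cur 1 (S.dact g (Y.fD u)) x) t).stage :=
    fun t => lt_of_lt_of_le (by simp [Role.stage]) (stage_lab _ _ t)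
  rw [Y.read_same u i (hs 0), Y.read_same u i (hs 1), Y.read_same u i (hs 2),
    Y.read_same u i (hs 3), fq_cell]
  have h1 := cur_d (S := S) 1 (S.dact g (Y.fD u)) x
  have h2 := S.d_back hg (Y.fD u) (S.cur 1 (S.dact g (Y.fD u)) x)
  have h3 : S.d (Y.fD u) (S.cur 1 (S.dact g (Y.fD u)) x) < cap S.B := by unfold cap; omega
  have := Y.exec_ok u i (cur_d 1 (Y.fD u) x) h3
  simp only [valR] at this ⊢
  rw [this, Y.fD_act, Y.tile_move hg h3]

theorem law_S (x : Col) : Y.valR (Y.fact g u) i (.S x) =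
    S.step (Y.fD u) (S.dact g (Y.fD u)) (Y.fq u) ((S.B : ℤ) * i + S.pos (.S x)) := by
  rw [S.step_cell, fq_cell]
  have hb := S.d_back hg (Y.fD u) x
  by_cases h1 : S.d (S.dact g (Y.fD u)) x ≤ rS S.B
  · have h3 : S.d (Y.fD u) x < cap S.B := by unfold cap; unfold rS at h1; omega
    have hv : Y.valR (Y.fact g u) i (.S x) = Y.q (Y.tile u x) i := by
      simp only [valR]
      rw [Y.fD_act]
      unfold Setup.cur
      rw [if_pos h1, Y.tile_move hg h3]
    rw [hv]
    by_cases h2 : S.d (Y.fD u) x ≤ rS S.B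
    · simp only [Setup.baseR, if_pos h1, if_pos h2]
      rw [if_neg (by simp)]
      simp only [valR, Setup.cur, if_pos h2]
      rfl
    · simp only [Setup.baseR, Setup.tgtR, if_pos h1, if_neg h2, if_true]
      have hs : ∀ t, (Role.S x : Role Col S.NN).stage < (S.lab (Y.fD u).2 x t).stage :=
        fun t => lt_of_lt_of_le (by simp [Role.stage]) (stage_lab _ _ t)
      rw [Y.read_same u i (hs 0), Y.read_same u i (hs 1), Y.read_same u i (hs 2),
        Y.read_same u i (hs 3)]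
      have := Y.exec_ok u i (x := (Y.fD u).2) (y := x) (by rw [S.d_self]; omega) h3
      rw [← this]
      simp only [valR, Setup.cur, if_neg h2]
  · simp only [Setup.baseR, Setup.tgtR, if_neg h1]
    rw [if_neg (by simp), Y.read_same u i (by simp [Role.stage])]
    have h4 : S.d (Y.fD u) (S.dact g (Y.fD u)).2 ≤ 1 := by
      have := S.d_back hg (Y.fD u) (S.dact g (Y.fD u)).2
      rw [S.d_self] at this
      omega
    have h5 : S.d (Y.fD u) (S.dact g (Y.fD u)).2 < cap S.B := by unfold cap; omega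
    show _ = Y.valR u i (.V _)
    simp only [valR]
    rw [Y.fD_act]
    unfold Setup.cur
    rw [if_neg h1, if_pos h4, Y.tile_move hg h5]

theorem law_Dg (x : Col) : Y.valR (Y.fact g u) i (.Dg x) =
    S.step (Y.fD u) (S.dact g (Y.fD u)) (Y.fq u) ((S.B : ℤ) * i + S.pos (.Dg x)) := by
  rw [S.step_fid _ _ _ _ _ _ _ _ (.move (S.rel (S.cur (rS S.B) (Y.fD u) x)
    (S.cur (rS S.B) (S.dact g (Y.fD u)) x))) rfl (by simp) rfl rfl rfl, fq_cell]
  have h1 := cur_d (S := S) (rS S.B) (S.dact g (Y.fD u)) x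
  have h2 := S.d_back hg (Y.fD u) (S.cur (rS S.B) (S.dact g (Y.fD u)) x)
  have h3 : S.d (Y.fD u) (S.cur (rS S.B) (S.dact g (Y.fD u)) x) < cap S.B := by
    unfold cap; unfold rS at h1 h2 ⊢; omega
  have h4 := cur_d (S := S) (rS S.B) (Y.fD u) x
  have h5 : S.d (Y.fD u) (S.cur (rS S.B) (Y.fD u) x) < cap S.B := by
    unfold cap; unfold rS at h4 ⊢; omega
  simp only [valR]
  rw [Y.fD_act, Y.tile_move hg h3, ← Y.tile_comp h5 h3, Y.dg_act]
  rfl

omit hg in
theorem law_Rr : Y.valR (Y.fact g u) i .Rr =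
    S.step (Y.fD u) (S.dact g (Y.fD u)) (Y.fq u) ((S.B : ℤ) * i + S.pos .Rr) := by
  rw [S.step_fid _ _ _ _ _ _ _ _ .keep rfl (by simp) rfl rfl rfl, fq_cell]
  rfl

theorem law_W (x : Col) : Y.valR (Y.fact g u) i (.W x) =
    S.step (Y.fD u) (S.dact g (Y.fD u)) (Y.fq u) ((S.B : ℤ) * i + S.pos (.W x)) := by
  rw [S.step_fid _ _ _ _ _ (.W x) .Rr (.S x) (.wire (S.dd (S.dact g (Y.fD u)) x)) rfl (by simp)
    rfl rfl rfl, Y.read_next u i le_rfl, Y.read_same u i (by simp [Role.stage]),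
    Y.read_next u i (S.pos_stage _ _ (by simp [Role.stage])).le]
  have hb := S.d_back hg (Y.fD u) x
  have hf := S.d_forth hg (Y.fD u) x
  show _ = (if S.dist i (S.cls (S.th (S.d (S.dact g (Y.fD u)) x))) ≤
      S.len (S.th (S.d (S.dact g (Y.fD u)) x)) then
      (if S.dist i (S.cls (S.th (S.d (S.dact g (Y.fD u)) x))) = 1 then Y.valR u (i + 1) (.S x)
        else Y.valR u (i + 1) (.W x)) else Val.blank)
  simp only [valR]
  rw [Y.fD_act]
  by_cases h1 : S.dist i (S.cls (S.th (S.d (S.dact g (Y.fD u)) x))) ≤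
      S.len (S.th (S.d (S.dact g (Y.fD u)) x))
  · rw [if_pos h1, if_pos h1]
    have hp := S.dist_pos i (S.cls (S.th (S.d (S.dact g (Y.fD u)) x)))
    have h2 : S.th (S.d (S.dact g (Y.fD u)) x) ≠ 0 := by
      intro h0
      rw [h0, S.len_zero] at h1
      rw [h0] at hp
      omega
    have h3 : S.d (Y.fD u) x ≤ rS S.B := by unfold Setup.th at h2; omega
    have h4 : S.d (Y.fD u) x < cap S.B := by unfold cap; unfold rS at h3; omega
    rw [Y.tile_move hg h4]
    by_cases h5 : S.dist i (S.cls (S.th (S.d (S.dact g (Y.fD u)) x))) = 1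
    · rw [if_pos h5]
      unfold Setup.cur Setup.nxt
      rw [if_pos h3, h5]
      rfl
    · rw [if_neg h5]
      obtain ⟨e1, e2⟩ := S.cls_step (t := S.th (S.d (Y.fD u) x))
        (t' := S.th (S.d (S.dact g (Y.fD u)) x)) (by unfold Setup.th; omega)
        (by unfold Setup.th; omega) (by omega)
      have e3 := S.dist_succ h5
      rw [e1, S.nxt_succ h5, if_pos]
      push_cast
      omega
  · rw [if_neg h1, if_neg h1]

theorem law_O (x : Col) (n : S.NN) (t : Fin 4) : Y.valR (Y.fact g u) i (.O x n t) =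
    S.step (Y.fD u) (S.dact g (Y.fD u)) (Y.fq u) ((S.B : ℤ) * i + S.pos (.O x n t)) := by
  rw [S.step_fid _ _ _ _ _ (.W x) .Rr (.Dg x) (.pick n t (S.dd (S.dact g (Y.fD u)) x)) rfl
    (by simp) rfl rfl rfl, fq_cell, Y.read_same u i (by simp [Role.stage]),
    Y.read_same u i (by simp [Role.stage]), Y.read_same u i (by simp [Role.stage])]
  have hb := S.d_back hg (Y.fD u) x
  have hf := S.d_forth hg (Y.fD u) x
  set D' := Y.dg (Y.tile u (S.cur (rS S.B) (Y.fD u) x)) with hD'
  show _ = (if S.th (S.d (S.dact g (Y.fD u)) x) < S.pt (S.tgt i D' (S.dact n.1 D') t) then Val.blank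
      else if S.th (S.d (S.dact g (Y.fD u)) x) = S.pt (S.tgt i D' (S.dact n.1 D') t) then
        Y.valR u i (.W x) else Y.valR u i (.O x n t))
  by_cases h2 : S.th (S.d (S.dact g (Y.fD u)) x) = 0
  · have hp : ∀ f, 0 < S.pt f := fun f => by unfold Setup.pt; omega
    rw [if_pos (by rw [h2]; exact hp _)]
    simp only [valR]
    rw [Y.fD_act, if_neg (by rw [h2]; exact not_le.2 (hp _))]
  · have h3 : S.d (Y.fD u) x ≤ rS S.B := by unfold Setup.th at h2; omega
    have h4 : S.d (Y.fD u) x < cap S.B := by unfold cap; unfold rS at h3; omega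
    have h5 : D' = Y.dg (Y.tile u x) := by
      rw [hD']; unfold Setup.cur; rw [if_pos h3]
    rw [h5]
    simp only [valR]
    rw [Y.fD_act, Y.tile_move hg h4]
    set f := S.tgt i (Y.dg (Y.tile u x)) (S.dact n.1 (Y.dg (Y.tile u x))) t with hf'
    by_cases h6 : S.th (S.d (S.dact g (Y.fD u)) x) < S.pt f
    · rw [if_pos h6, if_neg (by omega)]
    · rw [if_neg h6, if_pos (by omega)]
      by_cases h7 : S.th (S.d (S.dact g (Y.fD u)) x) = S.pt f
      · rw [if_pos h7]
        obtain ⟨e1, e2⟩ := S.cls_near (f := f) (t := S.th (S.d (Y.fD u) x))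
          (by rw [← h7]; unfold Setup.th; omega) (by rw [← h7]; unfold Setup.th; omega)
        rw [e1, e2, if_pos (S.dist_le _ _)]
      · rw [if_neg h7, if_pos]
        unfold Setup.th at h6 h7 ⊢
        omega

theorem law_IR (x : Col) (n : S.NN) : Y.valR (Y.fact g u) i (.IR x n) =
    S.step (Y.fD u) (S.dact g (Y.fD u)) (Y.fq u) ((S.B : ℤ) * i + S.pos (.IR x n)) := by
  rw [S.step_fid _ _ _ _ _ (.O x n 0) .Rr (.Dg x) (.eval n (S.dd (S.dact g (Y.fD u)) x)) rfl
    (by simp) rfl rfl rfl, fq_cell, Y.read_same u i (by simp [Role.stage]),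
    Y.read_same u i (by simp [Role.stage]), Y.read_same u i (by simp [Role.stage])]
  have hb := S.d_back hg (Y.fD u) x
  set D' := Y.dg (Y.tile u (S.cur (rS S.B) (Y.fD u) x)) with hD'
  show _ = (if LL S.B ≤ S.th (S.d (S.dact g (Y.fD u)) x) then
      (if S.base i D' (S.dact n.1 D') = .exec then Y.valR u i (.O x n 0)
        else Val.fid (S.base i D' (S.dact n.1 D'))) else Val.blank)
  by_cases h2 : LL S.B ≤ S.th (S.d (S.dact g (Y.fD u)) x)
  · have hL : 0 < LL S.B := by have := S.pt_le 0; omega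
    have h3 : S.d (Y.fD u) x ≤ 2 := by unfold Setup.th rS at h2; omega
    have h3' : S.d (Y.fD u) x ≤ rS S.B := by unfold rS; omega
    have h4 : S.d (Y.fD u) x < cap S.B := by unfold cap; omega
    have h5 : D' = Y.dg (Y.tile u x) := by
      rw [hD']; unfold Setup.cur; rw [if_pos h3']
    have h6 : ∀ f, S.pt f ≤ S.th (S.d (Y.fD u) x) := fun f => by
      have := S.pt_le f
      unfold Setup.th rS
      omega
    rw [h5, if_pos h2]
    simp only [valR]
    rw [Y.fD_act, Y.tile_move hg h4, if_pos h2, if_pos (h6 _)]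
    rfl
  · rw [if_neg h2]
    simp only [valR]
    rw [Y.fD_act, if_neg h2]

end cases

theorem cell_eq {n : ℤ} {r : Role Col S.NN} (h : S.dec n = some r) :
    n = (S.B : ℤ) * (n / S.B) + S.pos r := by
  rw [S.dec_some h, ZMod.val_intCast]
  exact (Int.mul_ediv_add_emod n S.B).symm

theorem fq_law {g : G} (hg : S.Bl 1 g) (u : C × Y.T) (n : ℤ) :
    Y.fq (Y.fact g u) n = S.step (Y.fD u) (S.dact g (Y.fD u)) (Y.fq u) n := by
  cases h : S.dec n with
  | none =>
    rw [S.step_idle _ _ _ _ h]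
    unfold fq
    rw [h]
  | some r =>
    rw [cell_eq h, fq_cell]
    cases r with
    | S x => exact Y.law_S hg u _ x
    | V x => exact Y.law_V hg u _ x
    | IR x n => exact Y.law_IR hg u _ x n
    | O x n t => exact Y.law_O hg u _ x n t
    | W x => exact Y.law_W hg u _ x
    | Rr => exact Y.law_Rr u _
    | Dg x => exact Y.law_Dg hg u _ x

/-- the fine system simulating `Y` -/
noncomputable def enc : Sys S where
  T := C × Y.T
  act := Y.fact
  act_one := fun u => by
    unfold fact; rw [one_smul, S.sec_one, Y.act_one]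
  act_mul := fun g h u => by
    unfold fact; rw [mul_smul, S.sec_mul, Y.act_mul]
  dg := Y.fD
  dg_act := Y.fD_act
  q := Y.fq
  law := fun _ hn u i => Y.fq_law hn u i

end Sys

end H593Z.Sim
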