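import Mathlib

set_option autoImplicit false

/-!
From a family of rows on which a group acts by right-looking local rules to a group of
automorphisms of a subshift.
-/

namespace H593Z.Sim

open Classical

structure Fam (G A : Type) [Group G] where
  T : Type
  act : G → T → T
  act_one : ∀ w, act 1 w = w
  act_mul : ∀ g h w, act (g * h) w = act g (act h w)
  row : T → ℤ → A
  ne : Nonempty T
  loc : ∀ g, ∃ r : ℕ, ∀ w w' (n n' : ℤ), (∀ j : ℕ, j ≤ r → row w (n + j) = row w' (n' + j)) →
    row (act g w) n = row (act g w') n'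
  faith : ∀ g, (∀ w n, row (act g w) n = row w n) → g = 1

namespace Fam

variable {G A : Type} [Group G] (F : Fam G A)

def map {A' : Type} (e : A → A') (he : Function.Injective e) : Fam G A' where
  T := F.T
  act := F.act
  act_one := F.act_one
  act_mul := F.act_mul
  row := fun w n => e (F.row w n)
  ne := F.ne
  loc := fun g => by
    obtain ⟨r, hr⟩ := F.loc g
    exact ⟨r, fun w w' n n' h => congrArg e (hr w w' n n' fun j hj => he (h j hj))⟩
  faith := fun g h => F.faith g fun w n => he (h w n)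

noncomputable def rad (g : G) : ℕ := (F.loc g).choose

noncomputable def f (g : G) (x : ℕ → A) : A :=
  if h : ∃ p : F.T × ℤ, ∀ j : ℕ, j ≤ F.rad g → x j = F.row p.1 (p.2 + j) then
    F.row (F.act g h.choose.1) h.choose.2
  else x 0

theorem f_eq {g : G} {x : ℕ → A} {w : F.T} {s : ℤ}
    (h : ∀ j : ℕ, j ≤ F.rad g → x j = F.row w (s + j)) : F.f g x = F.row (F.act g w) s := by
  have hex : ∃ p : F.T × ℤ, ∀ j : ℕ, j ≤ F.rad g → x j = F.row p.1 (p.2 + j) := ⟨(w, s), h⟩
  unfold f
  rw [dif_pos hex]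
  exact (F.loc g).choose_spec _ _ _ _ fun j hj => (hex.choose_spec j hj).symm.trans (h j hj)

theorem f_congr {g : G} {x y : ℕ → A} (h : ∀ j : ℕ, j ≤ F.rad g → x j = y j) :
    F.f g x = F.f g y := by
  by_cases hex : ∃ p : F.T × ℤ, ∀ j : ℕ, j ≤ F.rad g → x j = F.row p.1 (p.2 + j)
  · obtain ⟨p, hp⟩ := hex
    rw [F.f_eq hp, F.f_eq fun j hj => (h j hj).symm.trans (hp j hj)]
  · unfold f
    rw [dif_neg hex, dif_neg, h 0 (Nat.zero_le _)]
    rintro ⟨p, hp⟩
    exact hex ⟨p, fun j hj => (h j hj).trans (hp j hj)⟩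

variable {I : Type} [AddCommMonoid I] (e : I)

/-- configurations all of whose finite windows in direction `e` occur in a row -/
def X : Set (I → A) :=
  {x | ∀ (n : I) (k : ℕ), ∃ (w : F.T) (s : ℤ), ∀ j : ℕ, j ≤ k → x (n + j • e) = F.row w (s + j)}

noncomputable def a (g : G) (x : I → A) (n : I) : A := F.f g fun j => x (n + j • e)

theorem a_eq {g : G} {x : I → A} {n : I} {k : ℕ} {w : F.T} {s : ℤ}
    (h : ∀ j : ℕ, j ≤ k + F.rad g → x (n + j • e) = F.row w (s + j)) {j : ℕ} (hj : j ≤ k) :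
    F.a e g x (n + j • e) = F.row (F.act g w) (s + j) := by
  apply F.f_eq
  intro i hi
  have := h (j + i) (by omega)
  rw [add_nsmul, ← add_assoc, Nat.cast_add, ← add_assoc] at this
  exact this

theorem a_mem (g : G) {x : I → A} (hx : x ∈ F.X e) : F.a e g x ∈ F.X e := by
  intro n k
  obtain ⟨w, s, h⟩ := hx n (k + F.rad g)
  exact ⟨F.act g w, s, fun j hj => F.a_eq e h hj⟩

theorem a_one {x : I → A} (hx : x ∈ F.X e) : F.a e 1 x = x := by
  funext n
  obtain ⟨w, s, h⟩ := hx n (0 + F.rad 1)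
  have h1 := F.a_eq e h (j := 0) le_rfl
  rw [F.act_one, ← h 0 (Nat.zero_le _)] at h1
  simpa using h1

theorem a_mul (g h : G) {x : I → A} (hx : x ∈ F.X e) :
    F.a e (g * h) x = F.a e g (F.a e h x) := by
  funext n
  obtain ⟨w, s, hw⟩ := hx n (F.rad (g * h) + (F.rad g + F.rad h))
  have h1 := F.a_eq e (g := g * h) (k := 0) (fun j hj => hw j (by omega)) (j := 0) le_rfl
  have h2 : ∀ j : ℕ, j ≤ 0 + F.rad g → F.a e h x (n + j • e) = F.row (F.act h w) (s + j) :=
    fun j hj => F.a_eq e (g := h) (k := F.rad g) (fun j hj => hw j (by omega)) (by omega)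
  have h3 := F.a_eq e h2 (j := 0) le_rfl
  rw [← F.act_mul, ← h1] at h3
  simpa using h3.symm

theorem shift_mem {x : I → A} (hx : x ∈ F.X e) (v : I) : (fun n => x (n + v)) ∈ F.X e := by
  intro n k
  obtain ⟨w, s, h⟩ := hx (n + v) k
  exact ⟨w, s, fun j hj => by rw [← h j hj, add_right_comm]⟩

theorem a_shift (g : G) (x : I → A) (v n : I) :
    F.a e g (fun n => x (n + v)) n = F.a e g x (n + v) := by
  unfold a
  simp only [add_right_comm]

noncomputable def rho : G →* Equiv.Perm (F.X e) where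
  toFun g :=
    { toFun := fun x => ⟨F.a e g x.1, F.a_mem e g x.2⟩
      invFun := fun x => ⟨F.a e g⁻¹ x.1, F.a_mem e g⁻¹ x.2⟩
      left_inv := fun x => Subtype.ext (by
        show F.a e g⁻¹ (F.a e g x.1) = x.1
        rw [← F.a_mul e _ _ x.2, inv_mul_cancel, F.a_one e x.2])
      right_inv := fun x => Subtype.ext (by
        show F.a e g (F.a e g⁻¹ x.1) = x.1
        rw [← F.a_mul e _ _ x.2, mul_inv_cancel, F.a_one e x.2]) }
  map_one' := Equiv.ext fun x => Subtype.ext (F.a_one e x.2)
  map_mul' := fun g h => Equiv.ext fun x => Subtype.ext (F.a_mul e g h x.2)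

theorem rho_val (g : G) (x : F.X e) : (F.rho e g x).1 = F.a e g x.1 := rfl

theorem row_mem (π : I →+ ℤ) (hπ : π e = 1) (w : F.T) (s : ℤ) :
    (fun n => F.row w (s + π n)) ∈ F.X e := by
  intro n k
  refine ⟨w, s + π n, fun j _ => ?_⟩
  show F.row w (s + π (n + j • e)) = _
  rw [map_add, map_nsmul, hπ, nsmul_eq_mul, mul_one, add_assoc]

theorem X_nonempty (π : I →+ ℤ) (hπ : π e = 1) : (F.X e).Nonempty := by
  obtain ⟨w⟩ := F.ne
  exact ⟨_, F.row_mem e π hπ w 0⟩

theorem rho_inj (π : I →+ ℤ) (hπ : π e = 1) : Function.Injective (F.rho e) := by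
  rw [injective_iff_map_eq_one]
  intro g hg
  apply F.faith
  intro w s
  have h1 : (F.rho e g ⟨_, F.row_mem e π hπ w s⟩).1 0 = F.row w (s + π 0) := by rw [hg]; rfl
  rw [rho_val, map_zero, add_zero] at h1
  rw [← h1]
  symm
  apply F.f_eq
  intro j _
  show F.row w (s + π (0 + j • e)) = _
  rw [zero_add, map_nsmul, hπ, nsmul_eq_mul, mul_one]

section top

variable [TopologicalSpace A] [DiscreteTopology A]

theorem a_cont (g : G) (n : I) : Continuous fun x : I → A => F.a e g x n := by
  have h1 : (fun x : I → A => F.a e g x n) =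
      (fun u : Fin (F.rad g + 1) → A => F.f g fun j => u ⟨min j (F.rad g), by omega⟩) ∘
        fun x : I → A => fun j : Fin (F.rad g + 1) => x (n + j.val • e) := by
    funext x
    apply F.f_congr
    intro j hj
    show _ = x (n + (min j (F.rad g)) • e)
    rw [min_eq_left hj]
  rw [h1]
  exact continuous_of_discreteTopology.comp (continuous_pi fun j => continuous_apply _)

theorem rho_cont (g : G) : Continuous (F.rho e g) := by
  apply Continuous.subtype_mk
  exact continuous_pi fun n => (F.a_cont e g n).comp continuous_subtype_val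

theorem X_closed : IsClosed (F.X e) := by
  have h1 : F.X e = ⋂ (n : I) (k : ℕ), (fun x : I → A => fun j : Fin (k + 1) => x (n + j.val • e)) ⁻¹'
      {u | ∃ (w : F.T) (s : ℤ), ∀ j : Fin (k + 1), u j = F.row w (s + j.val)} := by
    ext x
    simp only [Set.mem_iInter, Set.mem_preimage, Set.mem_setOf_eq]
    constructor
    · intro hx n k
      obtain ⟨w, s, h⟩ := hx n k
      exact ⟨w, s, fun j => h j (by omega)⟩
    · intro hx n k
      obtain ⟨w, s, h⟩ := hx n k
      exact ⟨w, s, fun j hj => h ⟨j, by omega⟩⟩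
  rw [h1]
  exact isClosed_iInter fun n => isClosed_iInter fun k =>
    (isClosed_discrete _).preimage (continuous_pi fun j => continuous_apply _)

end top

/-- words of length `n` occurring in rows -/
def words (n : ℕ) : Set (Fin n → A) := {u | ∃ (w : F.T) (s : ℤ), ∀ j : Fin n, u j = F.row w (s + j.val)}

theorem words_X (n : ℕ) :
    {u : Fin n → A | ∃ x ∈ F.X (1 : ℤ), ∀ j : Fin n, u j = x j.val} = F.words n := by
  ext u
  constructor
  · rintro ⟨x, hx, h⟩
    obtain ⟨w, s, hw⟩ := hx 0 n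
    refine ⟨w, s, fun j => ?_⟩
    rw [h, ← hw j j.2.le]
    simp
  · rintro ⟨w, s, h⟩
    exact ⟨_, F.row_mem 1 (AddMonoidHom.id ℤ) rfl w s, h⟩

theorem words_map {A' : Type} (c : A → A') (hc : Function.Injective c) (n : ℕ) :
    ((F.map c hc).words n).ncard = (F.words n).ncard := by
  have : (F.map c hc).words n = (fun u : Fin n → A => fun j => c (u j)) '' F.words n := by
    ext u
    constructor
    · rintro ⟨w, s, h⟩
      exact ⟨fun j => F.row w (s + j.val), ⟨w, s, fun _ => rfl⟩, funext fun j => (h j).symm⟩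
    · rintro ⟨v, ⟨w, s, h⟩, rfl⟩
      exact ⟨w, s, fun j => congrArg c (h j)⟩
  rw [this]
  exact Set.ncard_image_of_injective _ fun u v h => funext fun j => hc (congrFun h j)

end Fam

/-- a recursive bound on the number of words forces zero entropy -/
theorem zero_entropy (P : ℕ → ℕ) (a K c : ℕ) (h1 : ∀ n, P n ≤ a ^ n)
    (h2 : ∀ n, P n ≤ K * (P (n / 2 + c) + 1)) :
    Filter.Tendsto (fun n : ℕ => Real.log (P n) / n) Filter.atTop (nhds 0) := by
  set b : ℝ := Real.log (a + 1) with hb
  have hb0 : 0 ≤ b := Real.log_nonneg (by have : (0 : ℝ) ≤ a := Nat.cast_nonneg a; linarith)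
  have key : ∀ j : ℕ, ∃ C : ℝ, ∀ n : ℕ, Real.log (P n + 1) ≤ C + b * n / 2 ^ j := by
    intro j
    induction j with
    | zero =>
      refine ⟨Real.log 2, fun n => ?_⟩
      have e1 : (P n + 1 : ℝ) ≤ 2 * (a + 1) ^ n := by
        have e2 : (P n : ℝ) ≤ (a + 1) ^ n := by
          have : P n ≤ (a + 1) ^ n := (h1 n).trans (Nat.pow_le_pow_left (Nat.le_succ a) n)
          exact_mod_cast this
        have e3 : (1 : ℝ) ≤ (a + 1) ^ n :=
          one_le_pow₀ (by have : (0 : ℝ) ≤ a := Nat.cast_nonneg a; linarith)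
        linarith
      have e4 := Real.log_le_log (by positivity) e1
      rw [Real.log_mul (by norm_num) (by positivity), Real.log_pow] at e4
      rw [pow_zero, div_one, mul_comm]
      exact e4
    | succ j ih =>
      obtain ⟨C, hC⟩ := ih
      refine ⟨Real.log (K + 1) + C + b * c / 2 ^ j, fun n => ?_⟩
      have e1 : (P n + 1 : ℝ) ≤ (K + 1) * (P (n / 2 + c) + 1) := by
        have e2 : (P n : ℝ) ≤ K * (P (n / 2 + c) + 1) := by exact_mod_cast h2 n
        have e3 : (0 : ℝ) ≤ P (n / 2 + c) := Nat.cast_nonneg _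
        linarith
      have e4 := Real.log_le_log (by positivity) e1
      rw [Real.log_mul (by positivity) (by positivity)] at e4
      have e5 := hC (n / 2 + c)
      have e6 : ((n / 2 + c : ℕ) : ℝ) ≤ n / 2 + c := by
        push_cast
        have := @Nat.cast_div_le ℝ _ _ _ n 2
        push_cast at this
        linarith
      have e7 : b * ((n / 2 + c : ℕ) : ℝ) / 2 ^ j ≤ b * (n / 2 + c) / 2 ^ j := by gcongr
      have e8 : b * (n / 2 + c) / 2 ^ j = b * c / 2 ^ j + b * n / 2 ^ (j + 1) := by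
        field_simp; ring
      linarith
  rw [Metric.tendsto_atTop]
  intro ε hε
  obtain ⟨j, hj⟩ : ∃ j : ℕ, b / 2 ^ j < ε / 2 := by
    obtain ⟨j, hj⟩ := pow_unbounded_of_one_lt (2 * b / ε) (one_lt_two (α := ℝ))
    refine ⟨j, ?_⟩
    rw [div_lt_iff₀ hε] at hj
    rw [div_lt_div_iff₀ (by positivity) (by norm_num)]
    linarith
  obtain ⟨C, hC⟩ := key j
  obtain ⟨N, hN⟩ := exists_nat_gt (2 * C / ε)
  refine ⟨N + 1, fun n hn => ?_⟩
  have hn0 : (0 : ℝ) < n := by exact_mod_cast (show 0 < n by omega)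
  have hnN : (N : ℝ) < n := by exact_mod_cast (show N < n by omega)
  have e0 : 0 ≤ Real.log (P n) := Real.log_natCast_nonneg _
  have e1 : Real.log (P n) ≤ Real.log (P n + 1) := by
    rcases Nat.eq_zero_or_pos (P n) with h0 | h0
    · rw [h0]; simp
    · exact Real.log_le_log (by exact_mod_cast h0) (by linarith)
  rw [Real.dist_eq, sub_zero, abs_of_nonneg (by positivity), div_lt_iff₀ hn0]
  have e2 := hC n
  have e3 : b * n / 2 ^ j < ε / 2 * n := by
    rw [mul_div_right_comm]
    exact mul_lt_mul_of_pos_right hj hn0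
  have e4 : 2 * C < ε * n := by
    rw [div_lt_iff₀ hε] at hN
    nlinarith
  linarith

end H593Z.Sim
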