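import Pool.Agent.H593Z.SimEnc
import Pool.Agent.H593Z.SimFam

set_option autoImplicit false

namespace H593Z.Sim

open Classical

variable {G C Col : Type} [Group G] [MulAction G C] [MulAction G Col]

theorem finite_role (Col NN : Type) [Finite Col] [Finite NN] : Finite (Role Col NN) := by
  let f : Col ⊕ Col ⊕ (Col × NN) ⊕ (Col × NN × Fin 4) ⊕ Col ⊕ Unit ⊕ Col → Role Col NN
    | .inl x => .S x
    | .inr (.inl x) => .V x
    | .inr (.inr (.inl p)) => .IR p.1 p.2
    | .inr (.inr (.inr (.inl p))) => .O p.1 p.2.1 p.2.2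
    | .inr (.inr (.inr (.inr (.inl x)))) => .W x
    | .inr (.inr (.inr (.inr (.inr (.inl _))))) => .Rr
    | .inr (.inr (.inr (.inr (.inr (.inr x))))) => .Dg x
  apply Finite.of_surjective f
  intro r
  cases r with
  | S x => exact ⟨.inl x, rfl⟩
  | V x => exact ⟨.inr (.inl x), rfl⟩
  | IR x n => exact ⟨.inr (.inr (.inl (x, n))), rfl⟩
  | O x n t => exact ⟨.inr (.inr (.inr (.inl (x, n, t)))), rfl⟩
  | W x => exact ⟨.inr (.inr (.inr (.inr (.inl x)))), rfl⟩
  | Rr => exact ⟨.inr (.inr (.inr (.inr (.inr (.inl ()))))), rfl⟩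
  | Dg x => exact ⟨.inr (.inr (.inr (.inr (.inr (.inr x))))), rfl⟩

theorem finite_fid (NN TH : Type) [Finite NN] [Finite TH] : Finite (Fid NN TH) := by
  let f : Unit ⊕ Unit ⊕ Unit ⊕ NN ⊕ TH ⊕ (NN × Fin 4 × TH) ⊕ (NN × TH) → Fid NN TH
    | .inl _ => .keep
    | .inr (.inl _) => .exec
    | .inr (.inr (.inl _)) => .copy
    | .inr (.inr (.inr (.inl n))) => .move n
    | .inr (.inr (.inr (.inr (.inl d)))) => .wire d
    | .inr (.inr (.inr (.inr (.inr (.inl p))))) => .pick p.1 p.2.1 p.2.2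
    | .inr (.inr (.inr (.inr (.inr (.inr p))))) => .eval p.1 p.2
  apply Finite.of_surjective f
  intro r
  cases r with
  | keep => exact ⟨.inl (), rfl⟩
  | exec => exact ⟨.inr (.inl ()), rfl⟩
  | copy => exact ⟨.inr (.inr (.inl ())), rfl⟩
  | move n => exact ⟨.inr (.inr (.inr (.inl n))), rfl⟩
  | wire d => exact ⟨.inr (.inr (.inr (.inr (.inl d)))), rfl⟩
  | pick n t d => exact ⟨.inr (.inr (.inr (.inr (.inr (.inl (n, t, d)))))), rfl⟩
  | eval n d => exact ⟨.inr (.inr (.inr (.inr (.inr (.inr (n, d)))))), rfl⟩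

theorem finite_val (NN TH PP DD : Type) [Finite NN] [Finite TH] [Finite PP] [Finite DD] :
    Finite (Val NN TH PP DD) := by
  have := finite_fid NN TH
  let f : Unit ⊕ PP ⊕ DD ⊕ Fid NN TH → Val NN TH PP DD
    | .inl _ => .blank
    | .inr (.inl p) => .role p
    | .inr (.inr (.inl d)) => .dig d
    | .inr (.inr (.inr g)) => .fid g
  apply Finite.of_surjective f
  intro r
  cases r with
  | blank => exact ⟨.inl (), rfl⟩
  | role p => exact ⟨.inr (.inl p), rfl⟩
  | dig d => exact ⟨.inr (.inr (.inl d)), rfl⟩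
  | fid g => exact ⟨.inr (.inr (.inr g)), rfl⟩

/-- positions for the registers exist -/
theorem exists_pos (Col NN : Type) [Finite Col] [Finite NN] :
    ∃ (B : ℕ) (pos : Role Col NN → ℕ), (∀ r, pos r < B) ∧ Function.Injective pos ∧
      ∀ r r' : Role Col NN, r.stage < r'.stage → pos r < pos r' := by
  have := finite_role Col NN
  obtain ⟨M, ⟨e⟩⟩ := Finite.exists_equiv_fin (Role Col NN)
  have hs : ∀ r : Role Col NN, r.stage < 7 := fun r => by cases r <;> simp [Role.stage]
  refine ⟨7 * M, fun r => (e r).val + M * r.stage, fun r => ?_, fun r r' h => ?_,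
    fun r r' h => ?_⟩
  · have h1 := (e r).2
    have h2 : M * (r.stage + 1) ≤ M * 7 := Nat.mul_le_mul_left _ (hs r)
    rw [mul_add] at h2
    show (e r).val + M * r.stage < 7 * M
    omega
  · have h1 := congrArg (· % M) h
    simp only [Nat.add_mul_mod_self_left] at h1
    rw [Nat.mod_eq_of_lt (e r).2, Nat.mod_eq_of_lt (e r').2] at h1
    exact e.injective (Fin.ext h1)
  · have h1 := (e r).2
    have h2 : M * (r.stage + 1) ≤ M * r'.stage := Nat.mul_le_mul_left _ h
    rw [mul_add] at h2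
    show (e r).val + M * r.stage < (e r').val + M * r'.stage
    omega

namespace Setup

variable (S : Setup G C Col)

abbrev A := ZMod S.B × (C × Col) × S.Q

theorem two_le_B (c : C) : 2 ≤ S.B := by
  have h1 := S.pos_stage .Rr (.Dg (S.col c)) (by simp [Role.stage])
  have h2 := S.pos_lt (.Dg (S.col c))
  omega

theorem step_congr {D E : C × Col} {row row' : ℤ → S.Q} {n n' : ℤ}
    (hp : (n : ZMod S.B) = (n' : ZMod S.B))
    (h : ∀ j : ℕ, j ≤ S.B → row (n + j) = row' (n' + j)) :
    S.step D E row n = S.step D E row' n' := by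
  have h0 : row n = row' n' := by simpa using h 0 (Nat.zero_le _)
  have h1 : ∀ f, row (S.nxt n f) = row' (S.nxt n' f) := by
    intro f
    unfold nxt
    rw [← hp]
    exact h _ (S.dist_le _ _)
  unfold step RF
  rw [h0, h1, h1, h1, h1, hp]

noncomputable def tower : ℕ → Sys S
  | 0 => S.sys0
  | L + 1 => (tower L).enc

def Fix : ℕ → G → Prop
  | 0, _ => True
  | L + 1, g => ∀ c, g • c = c ∧ Fix L (S.sec g c)

end Setup

namespace Sys

variable {S : Setup G C Col}

def row (Y : Sys S) (w : Y.T) (n : ℤ) : S.A := ((n : ZMod S.B), Y.dg w, Y.q w n)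

theorem row_loc (Y Y' : Sys S) {g : G} (hg : S.Bl 1 g) (w : Y.T) (w' : Y'.T) (n n' : ℤ)
    (h : ∀ j : ℕ, j ≤ S.B → Y.row w (n + j) = Y'.row w' (n' + j)) :
    Y.row (Y.act g w) n = Y'.row (Y'.act g w') n' := by
  have h0 : Y.row w n = Y'.row w' n' := by simpa using h 0 (Nat.zero_le _)
  have hp : (n : ZMod S.B) = (n' : ZMod S.B) := congrArg Prod.fst h0
  have hd : Y.dg w = Y'.dg w' := congrArg (fun a => a.2.1) h0
  unfold row
  rw [Y.dg_act, Y'.dg_act, Y.law g hg, Y'.law g hg, hp, hd,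
    S.step_congr hp fun j hj => congrArg (fun a => a.2.2) (h j hj)]

theorem enc_dec (Y : Sys S) {u u' : C × Y.T} (h : ∀ n, Y.enc.row u n = Y.enc.row u' n) :
    u.1 = u'.1 ∧ ∀ n, Y.row u.2 n = Y.row u'.2 n := by
  have hd : Y.fD u = Y.fD u' := congrArg (fun a => a.2.1) (h 0)
  have hq : ∀ i r, Y.valR u i r = Y.valR u' i r := by
    intro i r
    rw [← fq_cell, ← fq_cell]
    exact congrArg (fun a => a.2.2) (h _)
  have hc : ∀ (k : ℕ) (v : C × Y.T), S.cur k (Y.fD v) (Y.fD v).2 = (Y.fD v).2 := by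
    intro k v; unfold Setup.cur; rw [ite_self]
  refine ⟨congrArg (fun a : C × Col => a.1) hd, fun n => ?_⟩
  have h1 := hq n (.V (Y.fD u).2)
  have h2 := hq n (.Dg (Y.fD u).2)
  simp only [valR] at h1 h2
  rw [hc, tile_self, hd, hc, tile_self] at h1 h2
  unfold row
  rw [h1, Val.dig.inj h2]

theorem valR_congr (Y Y' : Sys S) {u : C × Y.T} {u' : C × Y'.T} {i i' : ℤ}
    (hd : Y.fD u = Y'.fD u')
    (h : ∀ j : ℕ, j ≤ 2 * S.B → Y.row u.2 (i + j) = Y'.row u'.2 (i' + j)) (r : Role Col S.NN) :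
    Y.valR u i r = Y'.valR u' i' r := by
  have ht : ∀ (x : Col) (j : ℕ), j ≤ S.B →
      Y.row (Y.tile u x) (i + j) = Y'.row (Y'.tile u' x) (i' + j) := by
    intro x j hj
    unfold tile
    rw [← hd]
    apply row_loc Y Y' (S.rel _ x).2
    intro k hk
    have := h (j + k) (by omega)
    rwa [Nat.cast_add, ← add_assoc, ← add_assoc] at this
  have ht0 : ∀ x, Y.row (Y.tile u x) i = Y'.row (Y'.tile u' x) i' := fun x => by
    simpa using ht x 0 (Nat.zero_le _)
  have hp : (i : ZMod S.B) = (i' : ZMod S.B) := congrArg Prod.fst (ht0 (Y.fD u).2)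
  have hg : ∀ x, Y.dg (Y.tile u x) = Y'.dg (Y'.tile u' x) :=
    fun x => congrArg (fun a => a.2.1) (ht0 x)
  have hq0 : ∀ x, Y.q (Y.tile u x) i = Y'.q (Y'.tile u' x) i' :=
    fun x => congrArg (fun a => a.2.2) (ht0 x)
  have hq : ∀ x f, Y.q (Y.tile u x) (S.nxt i f) = Y'.q (Y'.tile u' x) (S.nxt i' f) := by
    intro x f
    unfold Setup.nxt
    rw [← hp]
    exact congrArg (fun a => a.2.2) (ht x _ (S.dist_le _ _))
  cases r <;> simp only [valR, Setup.RF, hd, hg, hq0, hq, hp]

end Sys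

namespace Setup

variable (S : Setup G C Col)

theorem tower_fix : ∀ (L : ℕ) (g : G) (_ : (S.tower L).T),
    (∀ (w : (S.tower L).T) n, (S.tower L).row ((S.tower L).act g w) n = (S.tower L).row w n) →
    S.Fix L g
  | 0, _, _, _ => trivial
  | L + 1, g, w, h => by
      intro c
      refine ⟨((S.tower L).enc_dec (h (c, w.2))).1, tower_fix L _ w.2 fun v n => ?_⟩
      exact ((S.tower L).enc_dec (h (c, v))).2 n

theorem tower_ne (c : C) : ∀ L, Nonempty (S.tower L).T
  | 0 => ⟨(c, S.col c)⟩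
  | L + 1 => (tower_ne c L).map fun w => (c, w)

noncomputable def fam (c : C) (gen : Subgroup.closure {g | S.Bl 1 g} = ⊤)
    (hfix : ∀ g, (∀ L, S.Fix L g) → g = 1) : Fam G S.A where
  T := Σ L, (S.tower L).T
  act := fun g w => ⟨w.1, (S.tower w.1).act g w.2⟩
  act_one := fun w => by rw [Sys.act_one]
  act_mul := fun g h w => by rw [Sys.act_mul]
  row := fun w => (S.tower w.1).row w.2
  ne := ⟨⟨0, (c, S.col c)⟩⟩
  loc := by
    intro g
    have hg : g ∈ Subgroup.closure {g | S.Bl 1 g} := by rw [gen]; trivial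
    induction hg using Subgroup.closure_induction'' with
    | mem g hg => exact ⟨S.B, fun w w' n n' h => Sys.row_loc _ _ hg _ _ _ _ h⟩
    | inv_mem g hg => exact ⟨S.B, fun w w' n n' h => Sys.row_loc _ _ (S.bl_inv _ _ hg) _ _ _ _ h⟩
    | one =>
      refine ⟨0, fun w w' n n' h => ?_⟩
      rw [Sys.act_one, Sys.act_one]
      simpa using h 0 le_rfl
    | mul g k _ _ ihg ihk =>
      obtain ⟨r, hr⟩ := ihg
      obtain ⟨t, ht⟩ := ihk
      refine ⟨r + t, fun w w' n n' h => ?_⟩
      rw [Sys.act_mul, Sys.act_mul]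
      refine hr ⟨w.1, (S.tower w.1).act k w.2⟩ ⟨w'.1, (S.tower w'.1).act k w'.2⟩ n n'
        fun j hj => ht w w' _ _ fun i hi => ?_
      have := h (j + i) (by omega)
      rwa [Nat.cast_add, ← add_assoc, ← add_assoc] at this
  faith := fun g h => hfix g fun L => by
    obtain ⟨w⟩ := S.tower_ne c L
    exact S.tower_fix L g w fun v n => h ⟨L, v⟩ n

noncomputable def code (m : ℕ) : (Σ L, (S.tower L).T) → ℤ →
    (ZMod S.B × (C × Col)) × Option (Fin m → S.A)
  | ⟨0, v⟩, s => (((s : ZMod S.B), v), none)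
  | ⟨L + 1, v⟩, s => (((s : ZMod S.B), (S.tower L).fD v),
      some fun j => (S.tower L).row v.2 (s / S.B + j.val))

theorem code_det (c : C) (n : ℕ) : ∀ (w w' : Σ L, (S.tower L).T) (s s' : ℤ),
    S.code (n / 2 + (2 * S.B + 2)) w s = S.code (n / 2 + (2 * S.B + 2)) w' s' →
    ∀ j : ℕ, j < n → (S.tower w.1).row w.2 (s + j) = (S.tower w'.1).row w'.2 (s' + j)
  | ⟨0, v⟩, ⟨0, v'⟩, s, s', h, j, _ => by
      have h1 : (s : ZMod S.B) = (s' : ZMod S.B) := congrArg (fun a => a.1.1) h
      have h2 : v = v' := congrArg (fun a => a.1.2) h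
      subst h2
      unfold Sys.row
      push_cast
      rw [h1]
      rfl
  | ⟨0, _⟩, ⟨_ + 1, _⟩, _, _, h, _, _ => absurd (congrArg Prod.snd h) (by simp [code])
  | ⟨_ + 1, _⟩, ⟨0, _⟩, _, _, h, _, _ => absurd (congrArg Prod.snd h) (by simp [code])
  | ⟨L + 1, v⟩, ⟨L' + 1, v'⟩, s, s', h, j, hj => by
      have h1 : (s : ZMod S.B) = (s' : ZMod S.B) := congrArg (fun a => a.1.1) h
      have h2 : (S.tower L).fD v = (S.tower L').fD v' := congrArg (fun a => a.1.2) h
      have h3 : ∀ k : ℕ, k < n / 2 + (2 * S.B + 2) →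
          (S.tower L).row v.2 (s / S.B + k) = (S.tower L').row v'.2 (s' / S.B + k) :=
        fun k hk => congrFun (Option.some.inj (congrArg Prod.snd h)) ⟨k, hk⟩
      have h4 : ((s + j : ℤ) : ZMod S.B) = ((s' + j : ℤ) : ZMod S.B) := by
        push_cast; rw [h1]
      have hB := S.two_le_B c
      have hB0 : (0 : ℤ) < S.B := by exact_mod_cast S.B_pos
      have h5 : s % S.B = s' % S.B := by
        rw [← ZMod.val_intCast, ← ZMod.val_intCast, h1]
      have h6 : ∀ t : ℤ, (t + j) / S.B = t / S.B + (t % S.B + j) / S.B := by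
        intro t
        conv_lhs => rw [← Int.mul_ediv_add_emod t S.B, add_assoc, add_comm,
          Int.add_mul_ediv_left _ _ hB0.ne']
        ring
      obtain ⟨a, ha⟩ := Int.eq_ofNat_of_zero_le (Int.emod_nonneg s hB0.ne')
      have ha' : a < S.B := by
        have := Int.emod_lt_of_pos s hB0
        rw [ha] at this
        exact_mod_cast this
      have h7 : (s % S.B + j) / S.B = (((a + j) / S.B : ℕ) : ℤ) := by
        rw [ha]; push_cast; rfl
      have h8 : (a + j) / S.B ≤ n / 2 + 1 := by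
        have e1 : (a + j) / S.B ≤ (j + S.B) / S.B := Nat.div_le_div_right (by omega)
        rw [Nat.add_div_right _ S.B_pos] at e1
        have e2 : j / S.B ≤ j / 2 := Nat.div_le_div_left hB (by norm_num)
        omega
      show (_, (S.tower L).fD v, (S.tower L).fq v (s + j)) =
        (_, (S.tower L').fD v', (S.tower L').fq v' (s' + j))
      rw [h4, h2]
      congr 2
      unfold Sys.fq
      rw [h4]
      cases S.dec ((s' + j : ℤ) : ZMod S.B) with
      | none => rfl
      | some r =>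
        apply Sys.valR_congr _ _ h2
        intro k hk
        rw [h6 s, h6 s', ← h5, h7, add_assoc, add_assoc, ← Nat.cast_add]
        exact h3 _ (by omega)

theorem words_le [Finite C] [Finite Col] [Finite S.A] (c : C)
    (gen : Subgroup.closure {g | S.Bl 1 g} = ⊤) (hfix : ∀ g, (∀ L, S.Fix L g) → g = 1) (n : ℕ) :
    ((S.fam c gen hfix).words n).ncard ≤ Nat.card (ZMod S.B × (C × Col)) *
      (((S.fam c gen hfix).words (n / 2 + (2 * S.B + 2))).ncard + 1) := by
  set F := S.fam c gen hfix with hF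
  set m := n / 2 + (2 * S.B + 2) with hm
  have hch : ∀ u ∈ F.words n, ∃ p : F.T × ℤ, ∀ j : Fin n, u j = F.row p.1 (p.2 + j.val) := by
    rintro u ⟨w, s, h⟩
    exact ⟨(w, s), h⟩
  have hne : Nonempty F.T := F.ne
  choose! p hp using hch
  have h1 : (F.words n).ncard ≤ ((Set.univ : Set (ZMod S.B × (C × Col))) ×ˢ
      (insert none (some '' F.words m))).ncard := by
    refine Set.ncard_le_ncard_of_injOn (fun u => S.code m (p u).1 (p u).2) ?_ ?_ (Set.toFinite _)
    · intro u _
      refine ⟨trivial, ?_⟩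
      generalize (p u).1 = w
      generalize (p u).2 = s
      obtain ⟨L, v⟩ := w
      cases L with
      | zero => exact Or.inl rfl
      | succ L => exact Or.inr ⟨_, ⟨⟨L, v.2⟩, s / S.B, fun _ => rfl⟩, rfl⟩
    · intro u hu u' hu' h
      funext j
      rw [hp u hu, hp u' hu']
      exact S.code_det c n _ _ _ _ h j j.2
  refine h1.trans ?_
  rw [Set.ncard_prod, Set.ncard_univ]
  apply Nat.mul_le_mul_left
  exact (Set.ncard_insert_le _ _).trans
    (Nat.succ_le_succ (Set.ncard_image_le (Set.toFinite _)))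

theorem exists_fam [Finite C] [Finite Col] [Finite S.NN] (c : C)
    (gen : Subgroup.closure {g | S.Bl 1 g} = ⊤) (hfix : ∀ g, (∀ L, S.Fix L g) → g = 1) :
    ∃ (k : ℕ) (F : Fam G (Fin k)),
      Filter.Tendsto (fun n : ℕ => Real.log (F.words n).ncard / n) Filter.atTop (nhds 0) := by
  have hQ : Finite S.Q := finite_val _ _ _ _
  obtain ⟨k, ⟨e⟩⟩ := Finite.exists_equiv_fin S.A
  refine ⟨k, (S.fam c gen hfix).map e e.injective, ?_⟩
  simp only [Fam.words_map]
  refine zero_entropy (fun n => ((S.fam c gen hfix).words n).ncard) (Nat.card S.A) _ _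
    (fun n => ?_) (S.words_le c gen hfix)
  refine (Set.ncard_le_card _).trans ?_
  rw [Nat.card_fun, Nat.card_eq_fintype_card (α := Fin n), Fintype.card_fin]

end Setup

end H593Z.Sim
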